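import Mathlib

set_option autoImplicit false
set_option linter.unusedSectionVars false

/-! First letters of elements of an amalgamated product. -/

namespace Pool.Agent.H536R3

open Monoid Monoid.PushoutI

section Amal

variable {ι : Type} {G : ι → Type} {H : Type} [∀ i, Group (G i)] [Group H] {φ : ∀ i, H →* G i}
  [DecidableEq ι] [∀ i, DecidableEq (G i)] (d : NormalWord.Transversal φ)

/-- index of the first letter -/
noncomputable def fl (g : PushoutI φ) : Option ι :=
  (g • (NormalWord.empty : NormalWord d)).fstIdx

theorem fl_base_mul (h : H) (g : PushoutI φ) : fl d (base φ h * g) = fl d g := by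
  unfold fl
  rw [mul_smul, NormalWord.base_smul_def]

theorem fl_one : fl d (1 : PushoutI φ) = none := by
  unfold fl
  rw [one_smul]; rfl

theorem fl_base (h : H) : fl d (base φ h) = none := by
  have := fl_base_mul d h 1
  rwa [mul_one, fl_one] at this

theorem fl_of_mul {i : ι} (u : G i) (hu : u ∉ (φ i).range) (g : PushoutI φ)
    (hg : fl d g ≠ some i) : fl d (of i u * g) = some i := by
  unfold fl at *
  rw [mul_smul, ← NormalWord.cons_eq_smul u _ hg hu]
  rfl

theorem kind {P : PushoutI φ → Prop} (hb : ∀ h, P (base φ h))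
    (hc : ∀ (i : ι) (u : G i) (g : PushoutI φ), u ∉ (φ i).range → fl d g ≠ some i → P g →
      P (of i u * g)) : ∀ g, P g := by
  have key : ∀ w : NormalWord d, ∀ h, P (base φ h * w.prod) := by
    intro w
    induction w using NormalWord.consRecOn with
    | empty => intro h; rw [NormalWord.prod_empty, mul_one]; exact hb h
    | cons i g w hmw hgn hgr hw1 ih =>
      intro h
      rw [NormalWord.prod_cons, ← of_apply_eq_base φ i, ← mul_assoc, ← map_mul]
      refine hc i _ _ ?_ ?_ (by simpa using ih 1)
      · intro hm
        exact hgr ((Subgroup.mul_mem_cancel_left (φ i).range (MonoidHom.mem_range.2 ⟨h, rfl⟩)).1 hm)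
      · unfold fl; rw [NormalWord.prod_smul_empty]; exact hmw
    | base h w hw ih =>
      intro h'
      rw [NormalWord.prod_smul, ← mul_assoc, ← map_mul]; exact ih _
  intro g
  have := key (g • .empty) 1
  rwa [NormalWord.prod_smul, NormalWord.prod_empty, map_one, mul_one, one_mul] at this

theorem fl_of_mem {m : ι} {v : G m} (hv : v ∈ (φ m).range) : fl d (of (φ := φ) m v) = none := by
  obtain ⟨h, rfl⟩ := hv
  rw [of_apply_eq_base]; exact fl_base d h

theorem fl_of_not_mem {m : ι} {v : G m} (hv : v ∉ (φ m).range) :
    fl d (of (φ := φ) m v) = some m := by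
  have := fl_of_mul d v hv 1 (by rw [fl_one]; simp)
  rwa [mul_one] at this

theorem fl_of_ne {m i : ι} (v : G m) (hmi : m ≠ i) : fl d (of (φ := φ) m v) ≠ some i := by
  by_cases hv : v ∈ (φ m).range
  · rw [fl_of_mem d hv]; simp
  · rw [fl_of_not_mem d hv]; simpa using hmi

theorem fl_none {g : PushoutI φ} (h : fl d g = none) : ∃ a, g = base φ a := by
  revert h
  refine kind d (P := fun g => fl d g = none → ∃ a, g = base φ a) ?_ ?_ g
  · intro a _; exact ⟨a, rfl⟩
  · intro i u g hu hg _ h
    rw [fl_of_mul d u hu g hg] at h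
    simp at h

theorem fl_some {g : PushoutI φ} {i : ι} (h : fl d g = some i) :
    ∃ (u : G i) (g' : PushoutI φ), u ∉ (φ i).range ∧ fl d g' ≠ some i ∧ g = of i u * g' := by
  revert h
  refine kind d (P := fun g => fl d g = some i →
    ∃ (u : G i) (g' : PushoutI φ), u ∉ (φ i).range ∧ fl d g' ≠ some i ∧ g = of i u * g') ?_ ?_ g
  · intro a h; rw [fl_base] at h; simp at h
  · intro j u g hu hg _ h
    rw [fl_of_mul d u hu g hg] at h
    obtain rfl : j = i := by simpa using h
    exact ⟨u, g, hu, hg, rfl⟩

/-- right multiplication by an element of a factor changes the first letter only inside the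
factor -/
theorem fl_mul_of (m : ι) (o : G m) (g : PushoutI φ) :
    fl d (g * of m o) = fl d g ∨ ∃ v : G m, g = of m v := by
  refine kind d (P := fun g => fl d (g * of m o) = fl d g ∨ ∃ v : G m, g = of m v) ?_ ?_ g
  · intro a
    right
    exact ⟨φ m a, (of_apply_eq_base φ m a).symm⟩
  · intro i u g hu hg ih
    rw [fl_of_mul d u hu g hg, mul_assoc]
    rcases ih with h | ⟨v, rfl⟩
    · left
      exact fl_of_mul d u hu _ (by rw [h]; exact hg)
    · by_cases hmi : m = i
      · subst hmi
        right
        exact ⟨u * v, by rw [map_mul]⟩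
      · left
        apply fl_of_mul d u hu
        rw [← map_mul]
        exact fl_of_ne d _ hmi

include d in
theorem mem_two {i j : ι} (hij : i ≠ j) {v : G i} {v' : G j}
    (h : of (φ := φ) i v = of (φ := φ) j v') : ∃ a, of (φ := φ) i v = base φ a := by
  apply fl_none d
  by_contra hc
  rcases Option.ne_none_iff_exists'.1 hc with ⟨k, hk⟩
  have h1 : k = i := by
    by_contra hki
    exact fl_of_ne d v (Ne.symm hki) hk
  have h2 : k = j := by
    by_contra hkj
    rw [h] at hk
    exact fl_of_ne d v' (Ne.symm hkj) hk
  exact hij (h1.symm.trans h2)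

end Amal

end Pool.Agent.H536R3
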