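import Mathlib

set_option autoImplicit false
set_option linter.unusedSectionVars false

/-! Free group facts: norms, a projection to the axis of a generator, positive words. -/

namespace Pool.Agent.H536R3

open FreeGroup

section FG

variable {α : Type} [DecidableEq α]

theorem norm_split (g : FreeGroup α) {n : ℕ} (h : g.norm = n + 1) :
    ∃ s g' : FreeGroup α, s.norm = 1 ∧ g'.norm = n ∧ g = s * g' := by
  have h1 : g.toWord.length = n + 1 := h
  obtain ⟨a, t, hat⟩ : ∃ a t, g.toWord = a :: t := by
    cases hw : g.toWord with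
    | nil => rw [hw] at h1; simp at h1
    | cons a t => exact ⟨a, t, rfl⟩
  have hred : IsReduced (a :: t) := by
    rw [← hat]; exact isReduced_toWord
  have ht : IsReduced t := List.IsChain.tail hred
  refine ⟨FreeGroup.mk [a], FreeGroup.mk t, ?_, ?_, ?_⟩
  · change (FreeGroup.mk [a]).toWord.length = 1
    rw [toWord_mk]; rfl
  · change (FreeGroup.mk t).toWord.length = n
    rw [toWord_mk, ht.reduce_eq]
    rw [hat] at h1
    simpa using h1
  · rw [FreeGroup.mul_mk, List.singleton_append, ← hat, mk_toWord]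

theorem norm_split' (g : FreeGroup α) {n : ℕ} (h : g.norm = n + 1) :
    ∃ s g' : FreeGroup α, s.norm = 1 ∧ g'.norm = n ∧ g = g' * s := by
  have h1 : g⁻¹.norm = n + 1 := by rw [norm_inv_eq]; exact h
  obtain ⟨s, g', hs, hg', he⟩ := norm_split g⁻¹ h1
  refine ⟨s⁻¹, g'⁻¹, by rw [norm_inv_eq]; exact hs, by rw [norm_inv_eq]; exact hg', ?_⟩
  rw [← mul_inv_rev, ← he, inv_inv]

theorem norm_one_iff (s : FreeGroup α) (h : s.norm = 1) : ∃ x : α × Bool, s = FreeGroup.mk [x] := by
  have h1 : s.toWord.length = 1 := h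
  obtain ⟨x, hx⟩ := List.length_eq_one_iff.1 h1
  exact ⟨x, by rw [← hx, mk_toWord]⟩

theorem toWord_single_mul (x : α × Bool) (g : FreeGroup α) :
    (FreeGroup.mk [x] * g).toWord = x :: g.toWord ∨
      ∃ b : Bool, b = !x.2 ∧ g.toWord = (x.1, b) :: (FreeGroup.mk [x] * g).toWord := by
  have h1 : (FreeGroup.mk [x] * g).toWord = reduce (x :: g.toWord) := by
    conv_lhs => rw [← mk_toWord (x := g)]
    rw [FreeGroup.mul_mk, toWord_mk]
    rfl
  rw [h1, reduce.cons, reduce_toWord]
  cases hg : g.toWord with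
  | nil => left; rfl
  | cons hd tl =>
    dsimp only
    split_ifs with hc
    · right
      refine ⟨hd.2, ?_, ?_⟩
      · rw [hc.2]; simp
      · rw [hc.1]
    · left; rfl

/-- signed length of the terminal block of letters `x0` -/
def tl (x0 : α) : List (α × Bool) → ℤ
  | [] => 0
  | a :: L => tl x0 L + (if a.1 = x0 ∧ ∀ y ∈ L, y.1 = x0 then (if a.2 then 1 else -1) else 0)

def ex (x0 : α) (g : FreeGroup α) : ℤ := tl x0 g.toWord

theorem tl_cons_bd (x0 : α) (a : α × Bool) (L : List (α × Bool)) :
    |tl x0 (a :: L) - tl x0 L| ≤ 1 := by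
  rw [tl]
  split_ifs <;> simp

theorem ex_left (x0 : α) (s g : FreeGroup α) (hs : s.norm = 1) :
    |ex x0 (s * g) - ex x0 g| ≤ 1 := by
  obtain ⟨x, rfl⟩ := norm_one_iff s hs
  rcases toWord_single_mul x g with h | ⟨b, _, h⟩
  · rw [ex, ex, h]; exact tl_cons_bd _ _ _
  · rw [ex, ex, h, abs_sub_comm]; exact tl_cons_bd _ _ _

theorem ex_mul (x0 : α) : ∀ (n : ℕ) (w g : FreeGroup α), w.norm = n →
    |ex x0 (w * g) - ex x0 g| ≤ n := by
  intro n
  induction n with
  | zero =>
    intro w g hw
    rw [norm_eq_zero.1 hw]; simp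
  | succ n ih =>
    intro w g hw
    obtain ⟨s, w', hs, hw', rfl⟩ := norm_split w hw
    have h1 := ih w' g hw'
    have h2 := ex_left x0 s (w' * g) hs
    rw [mul_assoc]
    have h3 : ex x0 (s * (w' * g)) - ex x0 g =
      (ex x0 (s * (w' * g)) - ex x0 (w' * g)) + (ex x0 (w' * g) - ex x0 g) := by ring
    rw [h3]
    refine (abs_add_le _ _).trans ?_
    push_cast
    linarith

theorem tl_replicate (x0 : α) (b : Bool) (n : ℕ) :
    tl x0 (List.replicate n (x0, b)) = (if b then (1 : ℤ) else -1) * n := by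
  induction n with
  | zero => simp [tl]
  | succ n ih =>
    have hc : (x0, b).1 = x0 ∧ ∀ y ∈ List.replicate n (x0, b), y.1 = x0 := by
      refine ⟨rfl, ?_⟩
      intro y hy
      rw [List.eq_of_mem_replicate hy]
    rw [List.replicate_succ, tl, ih, if_pos hc]
    push_cast; ring

theorem ex_zpow (x0 : α) (i : ℤ) : ex x0 ((of x0) ^ i) = i := by
  rcases Int.natAbs_eq i with h | h
  · rw [h, zpow_natCast, ex, toWord_of_pow, tl_replicate]; simp
  · rw [h, zpow_neg, zpow_natCast, ex, toWord_inv, toWord_of_pow]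
    have : invRev (List.replicate i.natAbs (x0, true)) = List.replicate i.natAbs (x0, false) := by
      simp [invRev]
    rw [this, tl_replicate]; simp

theorem mem_zpowers_of_word (x0 : α) (L : List (α × Bool)) (h : ∀ y ∈ L, y.1 = x0) :
    FreeGroup.mk L ∈ Subgroup.zpowers (of x0) := by
  induction L with
  | nil => exact one_mem _
  | cons a t ih =>
    have h1 : FreeGroup.mk (a :: t) = FreeGroup.mk [a] * FreeGroup.mk t := by
      rw [FreeGroup.mul_mk]; rfl
    rw [h1]
    refine mul_mem ?_ (ih fun y hy => h y (List.mem_cons_of_mem _ hy))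
    obtain ⟨a1, a2⟩ := a
    have ha : a1 = x0 := h _ List.mem_cons_self
    subst ha
    cases a2 with
    | true => exact Subgroup.mem_zpowers _
    | false =>
      have : FreeGroup.mk [(a1, false)] = (of a1)⁻¹ := by
        rw [FreeGroup.of, FreeGroup.inv_mk]; rfl
      rw [this]
      exact inv_mem (Subgroup.mem_zpowers _)

theorem ex_of_mul (x0 : α) (h : FreeGroup α) (hh : h ∉ Subgroup.zpowers (of x0)) :
    ex x0 (of x0 * h) = ex x0 h := by
  have hno : ¬ ∀ y ∈ h.toWord, y.1 = x0 := by
    intro hy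
    apply hh
    rw [← mk_toWord (x := h)]
    exact mem_zpowers_of_word x0 _ hy
  have hof : of x0 = FreeGroup.mk [(x0, true)] := rfl
  rcases toWord_single_mul (x0, true) h with h1 | ⟨b, _, h1⟩
  · rw [ex, ex, hof, h1, tl, if_neg]
    · simp
    · rintro ⟨_, h2⟩; exact hno h2
  · rw [ex, ex, ← hof] at *
    rw [h1, tl, if_neg]
    · simp
    · rintro ⟨_, h2⟩
      apply hno
      intro y hy
      rw [h1] at hy
      rcases List.mem_cons.1 hy with rfl | hy
      · rfl
      · exact h2 y hy

theorem ex_zpow_mul (x0 : α) (h : FreeGroup α) (hh : h ∉ Subgroup.zpowers (of x0)) (j : ℤ) :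
    ex x0 ((of x0) ^ j * h) = ex x0 h := by
  have hmem : ∀ j : ℤ, (of x0) ^ j * h ∉ Subgroup.zpowers (of x0) := by
    intro j hj
    apply hh
    have := mul_mem (inv_mem (Subgroup.zpow_mem_zpowers (of x0) j)) hj
    simpa using this
  induction j using Int.induction_on with
  | zero => simp
  | succ i ih =>
    rw [zpow_add_one, (Commute.self_zpow (of x0) (i : ℤ)).eq.symm, mul_assoc,
      ex_of_mul x0 _ (hmem _), ih]
  | pred i ih =>
    rw [← ih]
    have h1 := ex_of_mul x0 ((of x0) ^ (-(i : ℤ) - 1) * h) (hmem _)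
    rw [← h1, ← mul_assoc, ← zpow_one_add]
    congr 3
    ring

/-- coordinate control for a coset different from the axis -/
theorem axis_bd (x0 : α) (o : FreeGroup α) (ho : o ∉ Subgroup.zpowers (of x0)) (i j : ℤ) :
    |i + ex x0 o⁻¹| ≤ ((of x0) ^ (-i) * o * (of x0) ^ j).norm := by
  set w := (of x0) ^ (-i) * o * (of x0) ^ j with hw
  have h1 := ex_mul x0 w.norm w ((of x0) ^ (-j) * o⁻¹) rfl
  have h2 : w * ((of x0) ^ (-j) * o⁻¹) = (of x0) ^ (-i) := by
    rw [hw]; group
  rw [h2, ex_zpow, ex_zpow_mul] at h1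
  · rw [← abs_neg]
    convert h1 using 2
    ring
  · intro h
    exact ho (by simpa using inv_mem h)

/-- exponent sum of `x0` -/
def ret (x0 : α) : FreeGroup α →* Multiplicative ℤ :=
  FreeGroup.lift (fun y => if y = x0 then Multiplicative.ofAdd 1 else 1)

theorem ret_single (x0 : α) (s : FreeGroup α) (hs : s.norm = 1) :
    |(ret x0 s).toAdd| ≤ 1 := by
  obtain ⟨⟨x, b⟩, rfl⟩ := norm_one_iff s hs
  cases b with
  | true =>
    have : FreeGroup.mk [(x, true)] = of x := rfl
    rw [this, ret, lift_apply_of]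
    split_ifs <;> simp
  | false =>
    have : FreeGroup.mk [(x, false)] = (of x)⁻¹ := by
      rw [FreeGroup.of, FreeGroup.inv_mk]; rfl
    rw [this, ret, _root_.map_inv, lift_apply_of]
    split_ifs <;> simp

theorem ret_bd (x0 : α) : ∀ (n : ℕ) (g : FreeGroup α), g.norm = n →
    |(ret x0 g).toAdd| ≤ n := by
  intro n
  induction n with
  | zero =>
    intro g hg
    rw [norm_eq_zero.1 hg]; simp
  | succ n ih =>
    intro g hg
    obtain ⟨s, g', hs, hg', rfl⟩ := norm_split g hg
    rw [_root_.map_mul, toAdd_mul]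
    refine (abs_add_le _ _).trans ?_
    have h1 := ret_single x0 s hs
    have h2 := ih g' hg'
    push_cast
    linarith

theorem ret_zpow (x0 : α) (i : ℤ) : (ret x0 ((of x0) ^ i)).toAdd = i := by
  rw [map_zpow, ret, lift_apply_of, if_pos rfl]
  simp

/-- positive words -/
def pw (w : List α) : FreeGroup α := FreeGroup.mk (w.map fun x => (x, true))

theorem reduce_pos (w : List α) :
    reduce (w.map fun x => (x, true)) = w.map fun x => (x, true) := by
  apply FreeGroup.IsReduced.reduce_eq
  unfold FreeGroup.IsReduced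
  rw [List.isChain_map]
  induction w with
  | nil => exact List.isChain_nil
  | cons a t ih =>
    cases t with
    | nil => exact List.isChain_singleton _
    | cons b t => rw [List.isChain_cons_cons]; exact ⟨fun _ => rfl, ih⟩

theorem norm_pw (w : List α) : (pw w).norm = w.length := by
  rw [pw, FreeGroup.norm, toWord_mk, reduce_pos, List.length_map]

theorem pw_injective : Function.Injective (pw : List α → FreeGroup α) := by
  intro w w' h
  have h1 := congrArg FreeGroup.toWord h
  rw [pw, pw, toWord_mk, toWord_mk, reduce_pos, reduce_pos] at h1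
  apply List.map_injective_iff.2 _ h1
  intro x y hxy
  exact (Prod.mk.inj hxy).1

theorem pw_append (w w' : List α) : pw (w ++ w') = pw w * pw w' := by
  rw [pw, pw, pw, FreeGroup.mul_mk, List.map_append]

theorem pw_nil : pw ([] : List α) = 1 := rfl

end FG

end Pool.Agent.H536R3
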