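import Mathlib

set_option autoImplicit false
set_option linter.unusedVariables false

/-! Groups of permutations of `ℤ` with uniform bounds preserving a Sturmian colouring have
bounded orbits. -/

namespace Pool.Agent.H536R3

/-- coarse embeddings of `ℤ` -/
def QI1 (L : ℤ) (g : ℤ → ℤ) : Prop :=
  (∀ n m, |g n - g m| ≤ L * |n - m| + L) ∧ (∀ n m, |n - m| ≤ L * |g n - g m| + L)

theorem QI1.neg {L : ℤ} {g : ℤ → ℤ} (h : QI1 L g) : QI1 L (fun n => - g n) := by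
  constructor
  · intro n m
    have e : -g n - -g m = -(g n - g m) := by ring
    rw [e, abs_neg]; exact h.1 n m
  · intro n m
    have e : -g n - -g m = -(g n - g m) := by ring
    rw [e, abs_neg]; exact h.2 n m

theorem ivt (g : ℤ → ℤ) (J : ℤ) (hJ : ∀ n, |g (n + 1) - g n| ≤ J) : ∀ (k : ℕ) (a y : ℤ),
    g a ≤ y → y ≤ g (a + k) → ∃ c, a ≤ c ∧ c ≤ a + k ∧ |g c - y| ≤ J := by
  intro k
  induction k with
  | zero =>
    intro a y h1 h2
    refine ⟨a, le_rfl, by simp, ?_⟩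
    simp only [Nat.cast_zero, add_zero] at h2
    have h3 := (abs_nonneg _).trans (hJ a)
    have h4 : g a = y := le_antisymm h1 h2
    rw [h4, sub_self, abs_zero]; exact h3
  | succ k ih =>
    intro a y h1 h2
    by_cases h : y ≤ g (a + k)
    · obtain ⟨c, h3, h4, h5⟩ := ih a y h1 h
      exact ⟨c, h3, by push_cast; omega, h5⟩
    · refine ⟨a + k, by omega, by push_cast; omega, ?_⟩
      have h3 := hJ (a + k)
      have h4 : g (a + k + 1) = g (a + (k + 1 : ℕ)) := by push_cast; ring_nf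
      rw [abs_le] at h3 ⊢
      push Not at h
      rw [h4] at h3
      constructor <;> linarith

/-- the constant -/
def DL (L : ℤ) : ℤ := L * (L * (2 * L) + L) + L

theorem DL_nonneg {L : ℤ} (hL : 0 ≤ L) : 0 ≤ DL L := by unfold DL; positivity

theorem QI1.jump {L : ℤ} {g : ℤ → ℤ} (h : QI1 L g) (n : ℤ) : |g (n + 1) - g n| ≤ 2 * L := by
  have h1 := h.1 (n + 1) n
  have e : (n + 1 - n : ℤ) = 1 := by ring
  rw [e, abs_one] at h1
  linarith

theorem bet_max {L : ℤ} (hL : 0 ≤ L) {g : ℤ → ℤ} (h : QI1 L g) {a b c : ℤ} (hab : a ≤ b)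
    (hbc : b ≤ c) : g b ≤ max (g a) (g c) + DL L := by
  by_contra hc
  push Not at hc
  have hD := DL_nonneg hL
  have hga : g a + DL L < g b := lt_of_le_of_lt (by
    have := le_max_left (g a) (g c); linarith) hc
  have hgc : g c + DL L < g b := lt_of_le_of_lt (by
    have := le_max_right (g a) (g c); linarith) hc
  rcases le_total (g a) (g c) with hac | hac
  · obtain ⟨k, hk⟩ := Int.le.dest hab
    obtain ⟨a', h1, h2, h3⟩ := ivt g (2 * L) h.jump k a (g c) hac (by rw [hk]; linarith)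
    have h4 := h.2 c a'
    have h5 : |g c - g a'| ≤ 2 * L := by rw [abs_sub_comm]; exact h3
    have h6 : L * |g c - g a'| ≤ L * (2 * L) := mul_le_mul_of_nonneg_left h5 hL
    have h7 : c - b ≤ L * (2 * L) + L := by
      have := le_abs_self (c - a')
      linarith
    have h8 := h.1 c b
    have h9 : |c - b| = c - b := abs_of_nonneg (by linarith)
    rw [h9] at h8
    have h10 : L * (c - b) ≤ L * (L * (2 * L) + L) := mul_le_mul_of_nonneg_left h7 hL
    have h11 := neg_abs_le (g c - g b)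
    unfold DL at *
    linarith
  · obtain ⟨k, hk⟩ := Int.le.dest hbc
    obtain ⟨c', h1, h2, h3⟩ := ivt (fun n => - g n) (2 * L) h.neg.jump k b (- g a)
      (by linarith) (by rw [hk]; linarith)
    have h4 := h.2 c' a
    have h5 : |g c' - g a| ≤ 2 * L := by
      have e : -g c' - -g a = -(g c' - g a) := by ring
      rw [e, abs_neg] at h3; exact h3
    have h6 : L * |g c' - g a| ≤ L * (2 * L) := mul_le_mul_of_nonneg_left h5 hL
    have h7 : b - a ≤ L * (2 * L) + L := by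
      have := le_abs_self (c' - a)
      linarith
    have h8 := h.1 b a
    have h9 : |b - a| = b - a := abs_of_nonneg (by linarith)
    rw [h9] at h8
    have h10 : L * (b - a) ≤ L * (L * (2 * L) + L) := mul_le_mul_of_nonneg_left h7 hL
    have h11 := le_abs_self (g b - g a)
    unfold DL at *
    linarith

theorem bet_min {L : ℤ} (hL : 0 ≤ L) {g : ℤ → ℤ} (h : QI1 L g) {a b c : ℤ} (hab : a ≤ b)
    (hbc : b ≤ c) : min (g a) (g c) ≤ g b + DL L := by
  have h1 := bet_max hL h.neg hab hbc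
  rw [max_neg_neg] at h1
  linarith

/-- going up -/
def OPT (g : ℤ → ℤ) : Prop := ∀ y, ∃ n0, ∀ n, n0 ≤ n → y ≤ g n

theorem OPT.mon {L : ℤ} (hL : 0 ≤ L) {g : ℤ → ℤ} (h : QI1 L g) (ho : OPT g) {n m : ℤ}
    (hnm : n ≤ m) : g n ≤ g m + DL L := by
  obtain ⟨n0, h0⟩ := ho (g n)
  have h1 := h0 (max n0 m) (le_max_left _ _)
  have h2 := bet_min hL h hnm (le_max_right n0 m)
  rwa [min_eq_left h1] at h2

theorem dich {L : ℤ} (hL : 0 ≤ L) {g : ℤ → ℤ} (h : QI1 L g) : OPT g ∨ OPT (fun n => - g n) := by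
  have key : ∀ g : ℤ → ℤ, QI1 L g → g 0 + DL L < g (L * DL L + L + 1) → OPT g := by
    intro g h h1 y
    have hD := DL_nonneg hL
    have hN : 0 ≤ L * DL L + L + 1 := by positivity
    refine ⟨max (L * DL L + L + 1) (L * |y - g 0| + L + 1), fun n hn => ?_⟩
    have hn1 := (le_max_left _ _).trans hn
    have hn2 := (le_max_right _ _).trans hn
    have h2 := bet_max hL h hN hn1
    have h3 : g 0 < g n := by
      by_contra hc
      push Not at hc
      rw [max_eq_left hc] at h2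
      linarith
    have h4 := h.2 n 0
    have h5 : |n - 0| = n := by rw [sub_zero]; exact abs_of_nonneg (hN.trans hn1)
    rw [h5] at h4
    have h6 : L * |y - g 0| < L * |g n - g 0| := by linarith
    have h7 : |y - g 0| < |g n - g 0| := lt_of_mul_lt_mul_left h6 hL
    have h8 : |g n - g 0| = g n - g 0 := abs_of_nonneg (by linarith)
    have h9 := le_abs_self (y - g 0)
    linarith
  have h1 := h.2 (L * DL L + L + 1) 0
  have hD := DL_nonneg hL
  have hN : 0 ≤ L * DL L + L + 1 := by positivity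
  rw [sub_zero, abs_of_nonneg hN] at h1
  have h2 : L * DL L < L * |g (L * DL L + L + 1) - g 0| := by linarith
  have h3 : DL L < |g (L * DL L + L + 1) - g 0| := lt_of_mul_lt_mul_left h2 hL
  rcases lt_abs.1 h3 with h4 | h4
  · left
    apply key g h; linarith
  · right
    apply key _ h.neg
    linarith

theorem OPT.comp {g g' : ℤ → ℤ} (h : OPT g) (h' : OPT g') : OPT (fun n => g (g' n)) := by
  intro y
  obtain ⟨n0, h0⟩ := h y
  obtain ⟨n1, h1⟩ := h' n0
  exact ⟨n1, fun n hn => h0 _ (h1 n hn)⟩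

theorem OPT.symm {L : ℤ} (hL : 0 ≤ L) {σ : Equiv.Perm ℤ} (h : QI1 L σ) (ho : OPT σ) :
    OPT (σ⁻¹ : Equiv.Perm ℤ) := by
  intro y
  refine ⟨σ y + DL L + 1, fun m hm => ?_⟩
  by_contra hc
  push Not at hc
  have h1 := ho.mon hL h hc.le
  have h2 : σ (σ⁻¹ m) = m := Equiv.apply_symm_apply σ m
  rw [h2] at h1
  linarith

theorem OR_comp {L : ℤ} (hL : 0 ≤ L) {σ τ : Equiv.Perm ℤ} (h : QI1 L σ) (h' : QI1 L τ)
    (ho : OPT (fun n => - σ n)) (ho' : OPT (fun n => - τ n)) : OPT (σ * τ⁻¹ : Equiv.Perm ℤ) := by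
  intro z
  refine ⟨τ (σ⁻¹ (z + DL L)) + DL L + 1, fun m hm => ?_⟩
  have h2 : τ (τ⁻¹ m) = m := Equiv.apply_symm_apply τ m
  have h3 : σ (σ⁻¹ (z + DL L)) = z + DL L := Equiv.apply_symm_apply σ _
  have h4 : τ⁻¹ m ≤ σ⁻¹ (z + DL L) := by
    by_contra hc
    push Not at hc
    have h1 := ho'.mon hL h'.neg hc.le
    rw [h2] at h1
    linarith
  have h5 := ho.mon hL h.neg h4
  rw [h3] at h5
  rw [Equiv.Perm.mul_apply]
  linarith

/-! ### flux -/

/-- indicator of the half line -/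
noncomputable def chi (t n : ℤ) : ℝ := if t ≤ n then 1 else 0

/-- flux of a weight -/
noncomputable def Fx (w : ℤ → ℝ) (σ : Equiv.Perm ℤ) : ℝ := ∑ᶠ n, w n * (chi 0 n - chi 0 (σ n))

theorem chi_diff {L : ℤ} (hL : 0 ≤ L) {σ : Equiv.Perm ℤ} (h : QI1 L σ) (ho : OPT σ) (n : ℤ)
    (hn : chi (σ⁻¹ 0) n ≠ chi 0 (σ n)) : σ n ∈ Finset.Icc (-(DL L)) (DL L) := by
  have h2 : σ (σ⁻¹ 0) = 0 := Equiv.apply_symm_apply σ 0
  have hD := DL_nonneg hL
  unfold chi at hn
  rw [Finset.mem_Icc]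
  by_cases h1 : σ⁻¹ 0 ≤ n
  · rw [if_pos h1] at hn
    have h3 := ho.mon hL h h1
    rw [h2] at h3
    have h4 : ¬ 0 ≤ σ n := fun h4 => hn (by rw [if_pos h4])
    constructor <;> linarith
  · rw [if_neg h1] at hn
    have h3 := ho.mon hL h (not_le.1 h1).le
    rw [h2] at h3
    have h4 : 0 ≤ σ n := by
      by_contra h4
      exact hn (by rw [if_neg h4])
    constructor <;> linarith

theorem chi_diff0 (t n : ℤ) (hn : chi 0 n ≠ chi t n) : n ∈ Finset.Icc (-|t|) |t| := by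
  unfold chi at hn
  rw [Finset.mem_Icc]
  have h1 := le_abs_self t
  have h2 := neg_abs_le t
  have h3 := abs_nonneg t
  by_cases h4 : 0 ≤ n
  · rw [if_pos h4] at hn
    have h5 : ¬ t ≤ n := fun h5 => hn (by rw [if_pos h5])
    constructor <;> linarith
  · rw [if_neg h4] at hn
    have h5 : t ≤ n := by
      by_contra h5
      exact hn (by rw [if_neg h5])
    constructor <;> linarith

theorem fin_supp {L : ℤ} (hL : 0 ≤ L) {σ : Equiv.Perm ℤ} (h : QI1 L σ) (ho : OPT σ) :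
    ∃ N : ℕ, ∀ n, chi 0 n ≠ chi 0 (σ n) → n ∈ Finset.Icc (-(N : ℤ)) N := by
  classical
  have hfin : {n | chi 0 n ≠ chi 0 (σ n)}.Finite := by
    have h1 : {n | chi 0 n ≠ chi 0 (σ n)} ⊆
        (Finset.Icc (-|σ⁻¹ 0|) |σ⁻¹ 0| : Set ℤ) ∪ σ ⁻¹' (Finset.Icc (-(DL L)) (DL L) : Finset ℤ) := by
      intro n hn
      by_cases h2 : chi 0 n = chi (σ⁻¹ 0) n
      · right
        exact chi_diff hL h ho n (fun h3 => hn (h2.trans h3))
      · left
        exact_mod_cast chi_diff0 _ n h2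
    refine Set.Finite.subset (Set.Finite.union (Finset.finite_toSet _)
      ((Finset.finite_toSet _).preimage σ.injective.injOn)) h1
  obtain ⟨N, hN⟩ : ∃ N : ℕ, ∀ n ∈ hfin.toFinset, n.natAbs ≤ N := by
    refine ⟨hfin.toFinset.sup Int.natAbs, fun n hn => Finset.le_sup (f := Int.natAbs) hn⟩
  refine ⟨N, fun n hn => ?_⟩
  have h1 := hN n (by rw [Set.Finite.mem_toFinset]; exact hn)
  rw [Finset.mem_Icc]
  omega

theorem Fx_eq {L : ℤ} (hL : 0 ≤ L) {σ : Equiv.Perm ℤ} (h : QI1 L σ) (ho : OPT σ) :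
    ∃ N0 : ℕ, ∀ N : ℕ, N0 ≤ N → ∀ w : ℤ → ℝ,
      Fx w σ = ∑ n ∈ Finset.Icc (-(N : ℤ)) N, w n * (chi 0 n - chi 0 (σ n)) := by
  obtain ⟨N0, h0⟩ := fin_supp hL h ho
  refine ⟨N0, fun N hN w => ?_⟩
  apply finsum_eq_sum_of_support_subset
  intro n hn
  have h1 : chi 0 n ≠ chi 0 (σ n) := by
    intro h2
    apply hn
    simp only [h2, sub_self, mul_zero]
  have h2 := h0 n h1
  rw [Finset.mem_Icc] at h2
  rw [Finset.coe_Icc, Set.mem_Icc]
  omega

theorem Fx_mul {L : ℤ} (hL : 0 ≤ L) {σ τ : Equiv.Perm ℤ} (h : QI1 L σ) (ho : OPT σ)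
    (h' : QI1 L τ) (ho' : OPT τ) (w : ℤ → ℝ) (hw : ∀ n, w (τ n) = w n) :
    Fx w (σ * τ) = Fx w σ + Fx w τ := by
  have hfs : ∀ ρ : Equiv.Perm ℤ, QI1 L ρ → OPT ρ →
      (Function.support fun n => w n * (chi 0 n - chi 0 (ρ n))).Finite := by
    intro ρ hρ hρo
    obtain ⟨N, hN⟩ := fin_supp hL hρ hρo
    refine Set.Finite.subset (Finset.finite_toSet (Finset.Icc (-(N : ℤ)) N)) ?_
    intro n hn
    apply hN
    intro h2
    apply hn
    simp only [h2, sub_self, mul_zero]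
  have e1 : ∀ n, w n * (chi 0 n - chi 0 ((σ * τ) n)) =
      w n * (chi 0 n - chi 0 (τ n)) + w (τ n) * (chi 0 (τ n) - chi 0 (σ (τ n))) := by
    intro n
    rw [hw, Equiv.Perm.mul_apply]; ring
  have e2 : ∑ᶠ n, w (τ n) * (chi 0 (τ n) - chi 0 (σ (τ n))) = Fx w σ :=
    finsum_comp_equiv τ (f := fun n => w n * (chi 0 n - chi 0 (σ n)))
  unfold Fx at *
  rw [finsum_congr e1, finsum_add_distrib (hfs τ h' ho') ?_, e2, add_comm]
  exact Set.Finite.preimage (τ.injective.injOn) (hfs σ h ho)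

theorem tele (w W : ℤ → ℝ) (h0 : W 0 = 0) (h1 : ∀ t, W (t + 1) = W t + w t) (N : ℕ) (t : ℤ)
    (ht : |t| ≤ N) : ∑ n ∈ Finset.Icc (-(N : ℤ)) N, w n * (chi 0 n - chi t n) = W t := by
  classical
  have step : ∀ t : ℤ, |t| ≤ N →
      ∑ n ∈ Finset.Icc (-(N : ℤ)) N, w n * (chi 0 n - chi (t + 1) n) =
      ∑ n ∈ Finset.Icc (-(N : ℤ)) N, w n * (chi 0 n - chi t n) + w t := by
    intro t ht
    have e : ∀ n, w n * (chi 0 n - chi (t + 1) n) =
        w n * (chi 0 n - chi t n) + (if n = t then w t else 0) := by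
      intro n
      unfold chi
      by_cases h2 : n = t
      · subst h2
        rw [if_neg (by omega : ¬ n + 1 ≤ n), if_pos (le_refl n), if_pos rfl]; ring
      · rw [if_neg h2]
        by_cases h3 : t ≤ n
        · rw [if_pos h3, if_pos (by omega : t + 1 ≤ n)]; ring
        · rw [if_neg h3, if_neg (by omega : ¬ t + 1 ≤ n)]; ring
    rw [Finset.sum_congr rfl (fun n _ => e n), Finset.sum_add_distrib, Finset.sum_ite_eq',
      if_pos]
    rw [Finset.mem_Icc]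
    exact abs_le.1 ht
  have zero : ∑ n ∈ Finset.Icc (-(N : ℤ)) N, w n * (chi 0 n - chi 0 n) = 0 := by simp
  induction t using Int.induction_on with
  | zero => rw [zero, h0]
  | succ i ih =>
    have hi : |(i : ℤ)| ≤ N := by
      rw [abs_of_nonneg (by omega)] at ht ⊢
      omega
    rw [step _ hi, ih hi, h1]
  | pred i ih =>
    have hi : |-(i : ℤ)| ≤ N := by
      rw [abs_of_nonpos (by omega)] at ht ⊢
      omega
    have h2 := step (-(i : ℤ) - 1) ht
    have h3 := h1 (-(i : ℤ) - 1)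
    rw [sub_add_cancel] at h2 h3
    rw [ih hi] at h2
    linarith

theorem Fx_near {L : ℤ} (hL : 0 ≤ L) {σ : Equiv.Perm ℤ} (h : QI1 L σ) (ho : OPT σ)
    (w W : ℤ → ℝ) (h0 : W 0 = 0) (h1 : ∀ t, W (t + 1) = W t + w t) (hw : ∀ n, |w n| ≤ 1) :
    |Fx w σ - W (σ⁻¹ 0)| ≤ 2 * DL L + 1 := by
  classical
  obtain ⟨N0, hN0⟩ := Fx_eq hL h ho
  set N := max N0 (σ⁻¹ 0).natAbs with hN
  have hle : N0 ≤ N := le_max_left _ _
  have ht : |σ⁻¹ 0| ≤ (N : ℤ) := by
    have : (σ⁻¹ 0).natAbs ≤ N := le_max_right _ _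
    rw [Int.abs_eq_natAbs]; exact_mod_cast this
  rw [hN0 N hle w, ← tele w W h0 h1 N _ ht, ← Finset.sum_sub_distrib]
  have e : ∀ n, w n * (chi 0 n - chi 0 (σ n)) - w n * (chi 0 n - chi (σ⁻¹ 0) n) =
      w n * (chi (σ⁻¹ 0) n - chi 0 (σ n)) := by intro n; ring
  rw [Finset.sum_congr rfl (fun n _ => e n)]
  refine (Finset.abs_sum_le_sum_abs _ _).trans ?_
  have hb : ∀ n, |w n * (chi (σ⁻¹ 0) n - chi 0 (σ n))| ≤
      if σ n ∈ Finset.Icc (-(DL L)) (DL L) then 1 else 0 := by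
    intro n
    by_cases h2 : chi (σ⁻¹ 0) n = chi 0 (σ n)
    · rw [h2, sub_self, mul_zero, abs_zero]
      split_ifs <;> norm_num
    · rw [if_pos (chi_diff hL h ho n h2), abs_mul]
      have h3 : |chi (σ⁻¹ 0) n - chi 0 (σ n)| ≤ 1 := by
        unfold chi
        split_ifs <;> norm_num
      calc |w n| * |chi (σ⁻¹ 0) n - chi 0 (σ n)| ≤ 1 * 1 :=
            mul_le_mul (hw n) h3 (abs_nonneg _) zero_le_one
        _ = 1 := by norm_num
  refine (Finset.sum_le_sum fun n _ => hb n).trans ?_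
  rw [← Finset.sum_filter, Finset.sum_const, nsmul_eq_mul, mul_one]
  have h2 : (Finset.filter (fun n => σ n ∈ Finset.Icc (-(DL L)) (DL L))
      (Finset.Icc (-(N : ℤ)) N)).card ≤ (Finset.Icc (-(DL L)) (DL L)).card := by
    apply Finset.card_le_card_of_injOn σ
    · intro n hn
      exact (Finset.mem_filter.1 hn).2
    · exact σ.injective.injOn
  have h3 : ((Finset.Icc (-(DL L)) (DL L)).card : ℤ) = 2 * DL L + 1 := by
    rw [Int.card_Icc]
    have := DL_nonneg hL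
    omega
  have h4 : ((Finset.Icc (-(DL L)) (DL L)).card : ℝ) = 2 * DL L + 1 := by
    exact_mod_cast h3
  rw [← h4]
  exact_mod_cast h2

theorem Fx_int {L : ℤ} (hL : 0 ≤ L) {σ : Equiv.Perm ℤ} (h : QI1 L σ) (ho : OPT σ)
    (s : ℤ → ℕ) (α : ℝ) : ∃ p q : ℤ, Fx (fun n => (s n : ℝ) - α) σ = p - α * q ∧
      Fx (fun _ => 1) σ = q := by
  obtain ⟨N0, hN0⟩ := Fx_eq hL h ho
  let c : ℤ → ℤ := fun n => if 0 ≤ n then 1 else 0
  have hc : ∀ n, chi 0 n = (c n : ℝ) := by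
    intro n
    simp only [chi, c]
    split_ifs <;> simp
  refine ⟨∑ n ∈ Finset.Icc (-(N0 : ℤ)) N0, (s n : ℤ) * (c n - c (σ n)),
    ∑ n ∈ Finset.Icc (-(N0 : ℤ)) N0, (c n - c (σ n)), ?_, ?_⟩
  · rw [hN0 N0 le_rfl]
    push_cast
    rw [Finset.mul_sum, ← Finset.sum_sub_distrib]
    refine Finset.sum_congr rfl fun n _ => ?_
    rw [hc, hc]; ring
  · rw [hN0 N0 le_rfl]
    push_cast
    refine Finset.sum_congr rfl fun n _ => ?_
    rw [hc, hc]; ring

theorem flux_main (s : ℤ → ℕ) (α : ℝ) (hα : Irrational α) (h0 : 0 < α) (h1 : α < 1)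
    (hs1 : ∀ n, s n ≤ 1)
    (hs : ∀ n : ℤ, (s n : ℝ) = ⌊((n + 1 : ℤ) : ℝ) * α⌋ - ⌊(n : ℝ) * α⌋)
    (G : Subgroup (Equiv.Perm ℤ)) (L : ℕ) (hG : ∀ σ ∈ G, ∀ n, s (σ n) = s n)
    (hL : ∀ σ ∈ G, ∀ n m : ℤ, (σ n - σ m).natAbs ≤ L * (n - m).natAbs + L) (n : ℤ) :
    ∃ B : ℕ, ∀ σ ∈ G, (σ n).natAbs ≤ B := by
  have hL0 : (0 : ℤ) ≤ L := Int.natCast_nonneg L
  have hbd : ∀ σ ∈ G, ∀ n m : ℤ, |σ n - σ m| ≤ L * |n - m| + L := by
    intro σ hσ n m
    rw [Int.abs_eq_natAbs, Int.abs_eq_natAbs]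
    exact_mod_cast hL σ hσ n m
  have hQ : ∀ σ ∈ G, QI1 L σ := by
    intro σ hσ
    refine ⟨hbd σ hσ, fun n m => ?_⟩
    have h2 := hbd σ⁻¹ (G.inv_mem hσ) (σ n) (σ m)
    have e1 : σ⁻¹ (σ n) = n := Equiv.symm_apply_apply σ n
    have e2 : σ⁻¹ (σ m) = m := Equiv.symm_apply_apply σ m
    rwa [e1, e2] at h2
  let w : ℤ → ℝ := fun n => (s n : ℝ) - α
  let W : ℤ → ℝ := fun t => ⌊(t : ℝ) * α⌋ - t * α
  have hW0 : W 0 = 0 := by simp [W]
  have hW1 : ∀ t, W (t + 1) = W t + w t := by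
    intro t
    simp only [W, w]
    rw [hs t]
    push_cast
    ring
  have hWb : ∀ t, |W t| ≤ 1 := by
    intro t
    simp only [W]
    rw [abs_le]
    have e1 := Int.floor_le ((t : ℝ) * α)
    have e2 := Int.lt_floor_add_one ((t : ℝ) * α)
    constructor <;> linarith
  have hwb : ∀ n, |w n| ≤ 1 := by
    intro n
    simp only [w]
    have e1 : (s n : ℝ) ≤ 1 := by exact_mod_cast hs1 n
    have e2 : (0 : ℝ) ≤ s n := Nat.cast_nonneg _
    rw [abs_le]
    constructor <;> linarith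
  -- orientation preserving elements
  have hmem : ∀ σ ∈ G, OPT σ → ∀ k : ℕ, σ ^ (k + 1) ∈ G ∧ OPT (σ ^ (k + 1) : Equiv.Perm ℤ) ∧
      Fx w (σ ^ (k + 1)) = (k + 1) * Fx w σ := by
    intro σ hσ ho k
    induction k with
    | zero => simp only [zero_add, pow_one]; exact ⟨hσ, ho, by norm_num⟩
    | succ k ih =>
      obtain ⟨i1, i2, i3⟩ := ih
      refine ⟨G.pow_mem hσ _, ?_, ?_⟩
      · rw [pow_succ]
        exact i2.comp ho
      · rw [pow_succ, Fx_mul hL0 (hQ _ i1) i2 (hQ σ hσ) ho w (fun n => by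
          simp only [w]; rw [hG σ hσ n]), i3]
        push_cast; ring
  have hzero : ∀ σ ∈ G, OPT σ → Fx w σ = 0 := by
    intro σ hσ ho
    by_contra hne
    have hpos : 0 < |Fx w σ| := abs_pos.2 hne
    obtain ⟨k, hk⟩ := exists_nat_gt ((2 * (DL L : ℝ) + 2) / |Fx w σ|)
    obtain ⟨i1, i2, i3⟩ := hmem σ hσ ho k
    have e1 := Fx_near hL0 (hQ _ i1) i2 w W hW0 hW1 hwb
    have e2 := hWb ((σ ^ (k + 1))⁻¹ 0)
    have e3 : |Fx w (σ ^ (k + 1))| ≤ 2 * DL L + 2 := by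
      have := abs_sub_abs_le_abs_sub (Fx w (σ ^ (k + 1))) (W ((σ ^ (k + 1))⁻¹ 0))
      linarith
    rw [i3, abs_mul] at e3
    have e4 : |(k : ℝ) + 1| = k + 1 := abs_of_nonneg (by positivity)
    rw [e4] at e3
    rw [div_lt_iff₀ hpos] at hk
    nlinarith
  have hone : ∀ σ ∈ G, OPT σ → |σ⁻¹ 0| ≤ 2 * DL L + 1 := by
    intro σ hσ ho
    obtain ⟨p, q, hp, hq⟩ := Fx_int hL0 (hQ σ hσ) ho s α
    have e1 : (p : ℝ) - α * q = 0 := by rw [← hp]; exact hzero σ hσ ho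
    have e2 : q = 0 := by
      by_contra hq0
      have hq1 : (q : ℝ) ≠ 0 := by exact_mod_cast hq0
      apply hα
      refine ⟨(p : ℚ) / q, ?_⟩
      push_cast
      rw [div_eq_iff hq1]
      linarith
    have e3 := Fx_near hL0 (hQ σ hσ) ho (fun _ => 1) (fun t => (t : ℝ)) (by simp) (by
      intro t; push_cast; ring) (by intro n; simp)
    rw [hq, e2] at e3
    rw [Int.cast_zero, zero_sub, abs_neg] at e3
    exact_mod_cast e3
  have hplus : ∀ σ ∈ G, OPT σ → ∀ n : ℤ, |σ n| ≤ 2 * DL L + 1 + (L * |n| + L) := by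
    intro σ hσ ho n
    have e1 := hone σ⁻¹ (G.inv_mem hσ) (ho.symm hL0 (hQ σ hσ))
    rw [inv_inv] at e1
    have e2 := hbd σ hσ n 0
    rw [sub_zero] at e2
    have e3 := abs_sub_abs_le_abs_sub (σ n) (σ 0)
    linarith
  by_cases hex : ∃ τ ∈ G, ¬ OPT τ
  · obtain ⟨τ, hτ, hτo⟩ := hex
    have hτ' : OPT (fun n => - τ n) := (dich hL0 (hQ τ hτ)).resolve_left hτo
    refine ⟨(2 * DL L + 1 + (L * |n| + L)).toNat + (2 * DL L + 1 + (L * |τ n| + L)).toNat,
      fun σ hσ => ?_⟩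
    by_cases ho : OPT σ
    · have e1 := hplus σ hσ ho n
      rw [Int.abs_eq_natAbs (σ n)] at e1
      omega
    · have ho' : OPT (fun n => - σ n) := (dich hL0 (hQ σ hσ)).resolve_left ho
      have e1 := hplus (σ * τ⁻¹) (G.mul_mem hσ (G.inv_mem hτ))
        (OR_comp hL0 (hQ σ hσ) (hQ τ hτ) ho' hτ') (τ n)
      have e2 : (σ * τ⁻¹) (τ n) = σ n := by
        rw [Equiv.Perm.mul_apply]
        exact congrArg σ (Equiv.symm_apply_apply τ n)
      rw [e2, Int.abs_eq_natAbs (σ n)] at e1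
      omega
  · push Not at hex
    refine ⟨(2 * DL L + 1 + (L * |n| + L)).toNat, fun σ hσ => ?_⟩
    have e1 := hplus σ hσ (hex σ hσ) n
    rw [Int.abs_eq_natAbs (σ n)] at e1
    omega

end Pool.Agent.H536R3
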