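import Pool.Agent.H536R3.Pattern

set_option autoImplicit false
set_option linter.unusedSectionVars false
set_option linter.unusedVariables false

/-! Coarse symmetries of the graph. -/

namespace Pool.Agent.H536R3

open Monoid Monoid.PushoutI

variable {s : ℤ → ℕ}

theorem io_cast {n m : ℤ} (h : n = m) (h' : s n = s m) (o : Pc (s n)) :
    io s m (pcCast h' o) = io s n o := by
  subst h; rfl

/-- the homomorphism induced by a relabelling of levels -/
noncomputable def PH (φ : ℤ → ℤ) (h : ∀ n, s n = s (φ n)) : KK s →* KK s :=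
  PushoutI.lift (fun n => (io s (φ n)).comp (pcCast (h n))) (bb s) (by
    intro n
    ext a : 1
    simp only [MonoidHom.comp_apply]
    rw [pcCast_phi, io_phi])

theorem PH_io (φ : ℤ → ℤ) (h : ∀ n, s n = s (φ n)) (n : ℤ) (o : Pc (s n)) :
    PH φ h (io s n o) = io s (φ n) (pcCast (h n) o) := by
  unfold PH io
  rw [PushoutI.lift_of]
  rfl

theorem PH_bb (φ : ℤ → ℤ) (h : ∀ n, s n = s (φ n)) (a : AA) : PH φ h (bb s a) = bb s a := by
  unfold PH bb
  rw [PushoutI.lift_base]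

theorem PH_PH (φ ψ : ℤ → ℤ) (h : ∀ n, s n = s (φ n)) (h' : ∀ n, s n = s (ψ n))
    (hi : ∀ n, ψ (φ n) = n) (x : KK s) : PH ψ h' (PH φ h x) = x := by
  induction x using PushoutI.induction_on with
  | @of n o =>
    rw [PH_io, PH_io]
    have h1 := io_cast (hi n).symm ((h n).trans (h' (φ n))) o
    rw [← h1]
    congr 1
    have : ∀ {a b c : ℕ} (e : a = b) (e' : b = c) (e'' : a = c) (o : Pc a),
        pcCast e' (pcCast e o) = pcCast e'' o := by
      intro a b c e e' e'' o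
      subst e; subst e'; rfl
    exact this _ _ _ _
  | base a => rw [PH_bb, PH_bb]
  | mul x y hx hy => rw [_root_.map_mul, _root_.map_mul, hx, hy]

/-- the induced map of vertices -/
noncomputable def PV (φ : ℤ → ℤ) (h : ∀ n, s n = s (φ n)) (x : KK s × ℤ) : KK s × ℤ :=
  (PH φ h x.1, φ x.2)

theorem PV_lip (φ : ℤ → ℤ) (h : ∀ n, s n = s (φ n)) (L : ℕ) (hL1 : 1 ≤ L)
    (hL : ∀ n, (φ (n + 1) - φ n).natAbs ≤ L) (x y : KK s × ℤ) :
    dX s (PV φ h x) (PV φ h y) ≤ L * dX s x y := by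
  apply lip_map (connected_XX s) (connected_XX s)
  rintro ⟨g, n⟩ ⟨g', m⟩ (⟨e1, e2⟩ | ⟨i, o, e1, e2, e3, e4⟩)
  · simp only at e1 e2
    subst e1
    refine (dX_vert s _ (φ n) (φ m)).trans ?_
    rcases e2 with e2 | e2
    · rw [e2]; exact hL m
    · rw [e2]
      have := hL n
      omega
  · simp only at e1 e2 e4
    subst e1
    subst e2
    refine le_trans (dX_adj s ?_) hL1
    right
    refine ⟨φ m, pcCast (h m) o, rfl, rfl, by rw [nm_pcCast]; exact e3, ?_⟩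
    change PH φ h g' = PH φ h g * io s (φ m) (pcCast (h m) o)
    rw [e4, _root_.map_mul, PH_io]

/-- left translations -/
def LT (g : KK s) (x : KK s × ℤ) : KK s × ℤ := (g * x.1, x.2)

theorem LT_le (g : KK s) (x y : KK s × ℤ) : dX s (LT g x) (LT g y) ≤ dX s x y := by
  have := lip_map (connected_XX s) (connected_XX s) (LT g) 1 (by
    rintro ⟨a, n⟩ ⟨b, m⟩ h
    apply dX_adj
    rcases h with ⟨e1, e2⟩ | ⟨i, o, e1, e2, e3, e4⟩
    · left
      refine ⟨?_, e2⟩
      change g * a = g * b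
      have e1' : a = b := e1
      rw [e1']
    · right
      refine ⟨i, o, e1, e2, e3, ?_⟩
      change g * b = g * a * io s i o
      have e4' : b = a * io s i o := e4
      rw [e4', mul_assoc]) x y
  rwa [one_mul] at this

theorem LT_LT (g : KK s) (x : KK s × ℤ) : LT g⁻¹ (LT g x) = x := by
  unfold LT
  simp

theorem LT_LT' (g : KK s) (x : KK s × ℤ) : LT g (LT g⁻¹ x) = x := by
  unfold LT
  simp

theorem LT_eq (g : KK s) (x y : KK s × ℤ) : dX s (LT g x) (LT g y) = dX s x y := by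
  apply le_antisymm (LT_le g x y)
  have := LT_le g⁻¹ (LT g x) (LT g y)
  rwa [LT_LT, LT_LT] at this

/-- coarse transitivity -/
theorem coarse_trans {α : ℝ} (h0 : 0 < α) (h1 : α < 1) : ∃ L N : ℕ, ∀ x y : KK (st α) × ℤ,
    ∃ f : KK (st α) × ℤ → KK (st α) × ℤ,
      (∀ a b, dX (st α) (f a) (f b) ≤ L * dX (st α) a b) ∧
      (∀ a b, dX (st α) a b ≤ L * dX (st α) (f a) (f b)) ∧
      (∀ b, ∃ a, f a = b) ∧ dX (st α) (f x) y ≤ N := by
  obtain ⟨N, hN⟩ := st_maps h0 h1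
  refine ⟨2 * N + 1, N, ?_⟩
  rintro ⟨g, n⟩ ⟨g', m⟩
  obtain ⟨φ, hφ1, hφ2⟩ := hN (m - n)
  have hs1 : ∀ n, st α n = st α (φ n) := fun n => (hφ1 n).symm
  have hs2 : ∀ n, st α n = st α (φ.symm n) := by
    intro n
    have := hφ1 (φ.symm n)
    rwa [Equiv.apply_symm_apply] at this
  have hφ3 : ∀ k, (φ.symm k - (k - (m - n))).natAbs ≤ N := by
    intro k
    have := hφ2 (φ.symm k)
    rw [Equiv.apply_symm_apply] at this
    omega
  have hl1 : ∀ k, (φ (k + 1) - φ k).natAbs ≤ 2 * N + 1 := by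
    intro k
    have e1 := hφ2 k
    have e2 := hφ2 (k + 1)
    omega
  have hl2 : ∀ k, (φ.symm (k + 1) - φ.symm k).natAbs ≤ 2 * N + 1 := by
    intro k
    have e1 := hφ3 k
    have e2 := hφ3 (k + 1)
    omega
  have hV1 : ∀ x, PV φ.symm hs2 (PV φ hs1 x) = x := by
    rintro ⟨x, k⟩
    unfold PV
    simp only
    rw [PH_PH φ φ.symm hs1 hs2 (fun n => φ.symm_apply_apply n), Equiv.symm_apply_apply]
  have hV2 : ∀ x, PV φ hs1 (PV φ.symm hs2 x) = x := by
    rintro ⟨x, k⟩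
    unfold PV
    simp only
    rw [PH_PH φ.symm φ hs2 hs1 (fun n => φ.apply_symm_apply n), Equiv.apply_symm_apply]
  refine ⟨fun z => LT g' (PV φ hs1 (LT g⁻¹ z)), ?_, ?_, ?_, ?_⟩
  · intro a b
    rw [LT_eq]
    have e1 := PV_lip φ hs1 (2 * N + 1) (by omega) hl1 (LT g⁻¹ a) (LT g⁻¹ b)
    rwa [LT_eq] at e1
  · intro a b
    rw [LT_eq]
    have e1 := PV_lip φ.symm hs2 (2 * N + 1) (by omega) hl2 (PV φ hs1 (LT g⁻¹ a))
      (PV φ hs1 (LT g⁻¹ b))
    rwa [hV1, hV1, LT_eq] at e1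
  · intro b
    refine ⟨LT g (PV φ.symm hs2 (LT g'⁻¹ b)), ?_⟩
    simp only
    rw [LT_LT, hV2, LT_LT']
  · have e1 : LT g' (PV φ hs1 (LT g⁻¹ (g, n))) = (g', φ n) := by
      unfold LT PV
      simp
    change dX (st α) (LT g' (PV φ hs1 (LT g⁻¹ (g, n)))) (g', m) ≤ N
    rw [e1]
    refine (dX_vert _ g' (φ n) m).trans ?_
    have := hφ2 n
    omega

end Pool.Agent.H536R3
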