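import Pool.Agent.H536R3.Rthree
import Pool.Agent.H536R3.Flux
import Pool.Agent.H536R3.Sym

set_option autoImplicit false
set_option linter.unusedVariables false

/-! From quasi-isometries to quasi-actions. -/

namespace Pool.Agent.H536R3

universe u

theorem iso_dist {W : Type u} {Y : SimpleGraph W} (hY : Y.Connected) (e : Y ≃g Y) (x y : W) :
    Y.dist (e x) (e y) = Y.dist x y := by
  have key : ∀ (e : Y ≃g Y) (x y : W), Y.dist (e x) (e y) ≤ Y.dist x y := by
    intro e x y
    obtain ⟨p, hp⟩ := hY.exists_walk_length_eq_dist x y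
    rw [← hp, ← SimpleGraph.Walk.length_map e.toHom p]
    exact SimpleGraph.dist_le _
  apply le_antisymm (key e x y)
  have h := key e.symm (e x) (e y)
  rwa [RelIso.symm_apply_apply, RelIso.symm_apply_apply] at h

/-- a graph quasi-isometric to a transitive graph carries a cobounded quasi-action -/
theorem exists_QA {s : ℤ → ℕ} {W : Type u} {Y : SimpleGraph W} (hY : Y.Connected)
    (ht : ∀ x y : W, ∃ e : Y ≃g Y, e x = y) (F : KK s × ℤ → W) (A : ℕ)
    (h1 : ∀ x x', Y.dist (F x) (F x') ≤ A * dX s x x' + A)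
    (h2 : ∀ x x', dX s x x' ≤ A * Y.dist (F x) (F x') + A)
    (h3 : ∀ y, ∃ x, Y.dist y (F x) ≤ A) :
    ∃ (f : (Y ≃g Y) → KK s × ℤ → KK s × ℤ) (K C : ℕ), QA s f K C := by
  choose G hG using h3
  have tri : ∀ a b c, Y.dist a c ≤ Y.dist a b + Y.dist b c := fun a b c => hY.dist_triangle
  have hc : ∀ a b, Y.dist a b = Y.dist b a := fun a b => SimpleGraph.dist_comm
  have hFG : ∀ a b, Y.dist (F (G a)) (F (G b)) ≤ Y.dist a b + 2 * A := by
    intro a b
    have e1 := tri (F (G a)) a (F (G b))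
    have e2 := tri a b (F (G b))
    have e3 := hG a
    have e4 := hG b
    rw [hc] at e3
    omega
  have hFG' : ∀ a b, Y.dist a b ≤ Y.dist (F (G a)) (F (G b)) + 2 * A := by
    intro a b
    have e1 := tri a (F (G a)) b
    have e2 := tri (F (G a)) (F (G b)) b
    have e3 := hG a
    have e4 := hG b
    rw [hc] at e4
    omega
  have hGG : ∀ a b, dX s (G a) (G b) ≤ A * (Y.dist a b + 2 * A) + A := fun a b =>
    (h2 _ _).trans (Nat.add_le_add_right (Nat.mul_le_mul_left _ (hFG a b)) _)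
  have hGG' : ∀ a b, Y.dist a b ≤ A * dX s (G a) (G b) + A + 2 * A := fun a b =>
    (hFG' a b).trans (Nat.add_le_add_right (h1 _ _) _)
  refine ⟨fun h x => G (h (F x)), A * A, 4 * (A * A) + 4 * A, ?_, ?_, ?_, ?_, ?_⟩
  · intro h x y
    have e1 := hGG (h (F x)) (h (F y))
    rw [iso_dist hY] at e1
    have e2 := h1 x y
    have e3 : A * Y.dist (F x) (F y) ≤ A * (A * dX s x y + A) := Nat.mul_le_mul_left _ e2
    nlinarith
  · intro h x y
    have e1 := hGG' (h (F x)) (h (F y))
    rw [iso_dist hY] at e1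
    have e2 := h2 x y
    have e3 := Nat.mul_le_mul_left A e1
    nlinarith
  · intro h h' x
    have e0 : (h * h') (F x) = h (h' (F x)) := rfl
    simp only [e0]
    refine (hGG _ _).trans ?_
    rw [iso_dist hY]
    have e1 := hG (h' (F x))
    rw [hc] at e1
    have e2 := Nat.mul_le_mul_left A e1
    nlinarith
  · intro x
    have e0 : (1 : Y ≃g Y) (F x) = F x := rfl
    simp only [e0]
    refine (h2 _ _).trans ?_
    have e1 := hG (F x)
    rw [hc] at e1
    have e2 := Nat.mul_le_mul_left A e1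
    nlinarith
  · intro x y
    obtain ⟨h, hh⟩ := ht (F x) (F y)
    refine ⟨h, ?_⟩
    simp only [hh]
    refine (h2 _ _).trans ?_
    have e1 := hG (F y)
    rw [hc] at e1
    have e2 := Nat.mul_le_mul_left A e1
    nlinarith

theorem no_transitive {α : ℝ} (hα : Irrational α) (h0 : 0 < α) (h1 : α < 1) {W : Type u}
    {Y : SimpleGraph W} (hY : Y.Connected) (ht : ∀ x y : W, ∃ e : Y ≃g Y, e x = y)
    (F : KK (st α) × ℤ → W) (A : ℕ)
    (f1 : ∀ x x', Y.dist (F x) (F x') ≤ A * dX (st α) x x' + A)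
    (f2 : ∀ x x', dX (st α) x x' ≤ A * Y.dist (F x) (F x') + A)
    (f3 : ∀ y, ∃ x, Y.dist y (F x) ≤ A) : False := by
  obtain ⟨f, K, C, q⟩ := exists_QA hY ht F A f1 f2 f3
  exact no_QA (st_le h0 h1) q (flux_main (st α) α hα h0 h1 (st_le h0 h1) (st_real h0 h1))

end Pool.Agent.H536R3
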