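import Pool.Agent.H536R3.PieceB
import Pool.Agent.H536R3.Amal

set_option autoImplicit false
set_option linter.unusedSectionVars false

/-! The graph: vertices `K × ℤ`, `K` the amalgamated product over `ℤ³` of pieces. -/

namespace Pool.Agent.H536R3

open Monoid Monoid.PushoutI

/-! ### general graph lemmas -/

section gen

variable {V : Type} {X : SimpleGraph V}

theorem lip_gen (hX : X.Connected) (F : V → V → ℕ) (h0 : ∀ a, F a a = 0)
    (htri : ∀ a b c, F a c ≤ F a b + F b c) (h : ∀ a b, X.Adj a b → F a b ≤ 1) (a b : V) :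
    F a b ≤ X.dist a b := by
  obtain ⟨p, hp⟩ := hX.exists_walk_length_eq_dist a b
  rw [← hp]
  clear hp
  induction p with
  | nil => rw [h0]; exact Nat.zero_le _
  | @cons a b c hab q ih =>
    have h1 := h a b hab
    have h2 := htri a b c
    rw [SimpleGraph.Walk.length_cons]
    omega

theorem lip_map {W : Type} {Y : SimpleGraph W} (hX : X.Connected) (hY : Y.Connected) (f : V → W)
    (L : ℕ) (h : ∀ a b, X.Adj a b → Y.dist (f a) (f b) ≤ L) (a b : V) :
    Y.dist (f a) (f b) ≤ L * X.dist a b := by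
  obtain ⟨p, hp⟩ := hX.exists_walk_length_eq_dist a b
  rw [← hp]
  clear hp
  induction p with
  | nil => simp
  | @cons a b c hab q ih =>
    have h1 := h a b hab
    have h2 := hY.dist_triangle (u := f a) (v := f b) (w := f c)
    rw [SimpleGraph.Walk.length_cons, mul_add]
    omega

theorem cross_gen (hX : X.Connected) (U : Set V) {x y : V} (hx : x ∈ U) (hy : y ∉ U) :
    ∃ z z', X.Adj z z' ∧ z ∈ U ∧ z' ∉ U ∧ X.dist x z' + X.dist z' y ≤ X.dist x y := by
  obtain ⟨p, hp⟩ := hX.exists_walk_length_eq_dist x y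
  rw [← hp]
  clear hp
  induction p with
  | nil => exact absurd hx hy
  | @cons a b c hab q ih =>
    rw [SimpleGraph.Walk.length_cons]
    by_cases hb : b ∈ U
    · obtain ⟨z, z', h1, h2, h3, h4⟩ := ih hb hy
      refine ⟨z, z', h1, h2, h3, ?_⟩
      have h5 := hX.dist_triangle (u := a) (v := b) (w := z')
      have h6 : X.dist a b = 1 := SimpleGraph.dist_eq_one_iff_adj.2 hab
      omega
    · refine ⟨a, b, hab, hx, hb, ?_⟩
      have h6 : X.dist a b = 1 := SimpleGraph.dist_eq_one_iff_adj.2 hab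
      have h7 := SimpleGraph.dist_le q
      omega

theorem ball_bd (hX : X.Connected) (Δ : ℕ)
    (hΔ : ∀ (x : V) (s : Finset V), (∀ y ∈ s, X.Adj x y) → s.card ≤ Δ) :
    ∀ (r : ℕ) (x : V) (s : Finset V), (∀ y ∈ s, X.dist x y ≤ r) → s.card ≤ (Δ + 1) ^ r := by
  classical
  intro r
  induction r with
  | zero =>
    intro x s hs
    rw [pow_zero, Finset.card_le_one]
    intro a ha b hb
    have h1 := hs a ha
    have h2 := hs b hb
    rw [Nat.le_zero, hX.dist_eq_zero_iff] at h1 h2
    exact h1.symm.trans h2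
  | succ r ih =>
    intro x s hs
    have hπ : ∀ y, ∃ z, y ∈ s → X.dist x z ≤ r ∧ (z = y ∨ X.Adj z y) := by
      intro y
      by_cases hy : y ∈ s
      · have hy1 := hs y hy
        by_cases hyr : X.dist x y ≤ r
        · exact ⟨y, fun _ => ⟨hyr, Or.inl rfl⟩⟩
        · obtain ⟨p, hp⟩ := hX.exists_walk_length_eq_dist y x
          cases p with
          | nil =>
            exfalso; apply hyr; simp
          | @cons _ z _ hab q =>
            refine ⟨z, fun _ => ⟨?_, Or.inr hab.symm⟩⟩
            rw [SimpleGraph.Walk.length_cons, SimpleGraph.dist_comm] at hp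
            have := SimpleGraph.dist_le q
            rw [SimpleGraph.dist_comm] at this
            omega
      · exact ⟨y, fun h => absurd h hy⟩
    choose π hπ using hπ
    have h1 : s.card ≤ (Δ + 1) * (s.image π).card := by
      apply Finset.card_le_mul_card_image
      intro z hz
      have h2 : (s.filter fun y => π y = z) ⊆
          insert z ((s.filter fun y => π y = z).filter fun y => X.Adj z y) := by
        intro y hy
        rw [Finset.mem_insert]
        have hy' := Finset.mem_filter.1 hy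
        rcases (hπ y hy'.1).2 with h | h
        · left; rw [← h, hy'.2]
        · right
          rw [Finset.mem_filter]
          exact ⟨hy, by rw [← hy'.2]; exact h⟩
      refine (Finset.card_le_card h2).trans ((Finset.card_insert_le _ _).trans ?_)
      have := hΔ z ((s.filter fun y => π y = z).filter fun y => X.Adj z y)
        (fun y hy => (Finset.mem_filter.1 hy).2)
      omega
    have h2 : (s.image π).card ≤ (Δ + 1) ^ r := by
      apply ih x
      intro y hy
      obtain ⟨a, ha, rfl⟩ := Finset.mem_image.1 hy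
      exact (hπ a ha).1
    calc s.card ≤ (Δ + 1) * (s.image π).card := h1
      _ ≤ (Δ + 1) * (Δ + 1) ^ r := Nat.mul_le_mul_left _ h2
      _ = (Δ + 1) ^ (r + 1) := by rw [pow_succ, mul_comm]

end gen

/-! ### the group and the graph -/

variable (s : ℤ → ℕ)

/-- the amalgamated product -/
abbrev KK : Type := PushoutI (fun n : ℤ => phi (s n))

theorem phi_inj : ∀ n : ℤ, Function.Injective (phi (s n)) := fun n => phi_injective (s n)

/-- a choice of transversals -/
noncomputable def tr : NormalWord.Transversal (fun n : ℤ => phi (s n)) :=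
  (NormalWord.transversal_nonempty _ (phi_inj s)).some

/-- inclusion of the piece of level `n` -/
abbrev io (n : ℤ) : Pc (s n) →* KK s := PushoutI.of (φ := fun n : ℤ => phi (s n)) n

/-- inclusion of `ℤ³` -/
abbrev bb : AA →* KK s := PushoutI.base (fun n : ℤ => phi (s n))

theorem io_phi (n : ℤ) (a : AA) : io s n (phi (s n) a) = bb s a :=
  of_apply_eq_base (fun n : ℤ => phi (s n)) n a

/-- adjacency -/
def AdjR (x y : KK s × ℤ) : Prop :=
  (x.1 = y.1 ∧ (x.2 = y.2 + 1 ∨ y.2 = x.2 + 1)) ∨
  ∃ (n : ℤ) (o : Pc (s n)), x.2 = n ∧ y.2 = n ∧ nm o = 1 ∧ y.1 = x.1 * io s n o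

/-- the graph -/
def XX : SimpleGraph (KK s × ℤ) where
  Adj := AdjR s
  symm := by
    constructor
    rintro x y (⟨h1, h2⟩ | ⟨n, o, h1, h2, h3, h4⟩)
    · exact Or.inl ⟨h1.symm, h2.symm⟩
    · refine Or.inr ⟨n, o⁻¹, h2, h1, by rw [nm_inv]; exact h3, ?_⟩
      rw [h4, _root_.map_inv, mul_inv_cancel_right]
  loopless := by
    constructor
    rintro x (⟨_, h | h⟩ | ⟨n, o, h1, h2, h3, h4⟩)
    · omega
    · omega
    · have h5 : io s n o = 1 := by
        have := congrArg (fun z => x.1⁻¹ * z) h4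
        simpa using this.symm
      have h6 : o = 1 := of_injective (phi_inj s) n (by rw [h5, _root_.map_one])
      rw [h6, nm_one] at h3
      omega

theorem adj_iff (x y : KK s × ℤ) : (XX s).Adj x y ↔ AdjR s x y := Iff.rfl

theorem reach_vert (g : KK s) (n m : ℤ) : (XX s).Reachable (g, n) (g, m) := by
  have key : ∀ (k : ℕ) (n : ℤ), (XX s).Reachable (g, n) (g, n + k) := by
    intro k
    induction k with
    | zero => intro n; simp
    | succ k ih =>
      intro n
      refine (ih n).trans (SimpleGraph.Adj.reachable ?_)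
      rw [adj_iff]
      left
      refine ⟨rfl, Or.inr ?_⟩
      simp only
      push_cast; ring
  rcases le_total n m with h | h
  · obtain ⟨k, hk⟩ := Int.le.dest h
    rw [← hk]; exact key k n
  · obtain ⟨k, hk⟩ := Int.le.dest h
    rw [← hk]; exact (key k m).symm

theorem reach_piece (g : KK s) (n : ℤ) : ∀ (k : ℕ) (o : Pc (s n)), nm o = k →
    (XX s).Reachable (g, n) (g * io s n o, n) := by
  intro k
  induction k with
  | zero => intro o ho; rw [nm_eq_zero ho, _root_.map_one, mul_one]
  | succ k ih =>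
    intro o ho
    obtain ⟨o', t, ho', ht, rfl⟩ := nm_split o ho
    refine (ih o' ho').trans (SimpleGraph.Adj.reachable ?_)
    rw [adj_iff]
    right
    exact ⟨n, t, rfl, rfl, ht, by simp only; rw [_root_.map_mul, mul_assoc]⟩

theorem connected_XX : (XX s).Connected := by
  have key : ∀ (k g : KK s) (n m : ℤ), (XX s).Reachable (g, n) (g * k, m) := by
    intro k
    induction k using PushoutI.induction_on with
    | of i o =>
      intro g n m
      exact (reach_vert s g n i).trans ((reach_piece s g i _ o rfl).trans (reach_vert s _ i m))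
    | base h =>
      intro g n m
      rw [← of_apply_eq_base (fun n : ℤ => phi (s n)) 0 h]
      exact (reach_vert s g n 0).trans ((reach_piece s g 0 _ _ rfl).trans (reach_vert s _ 0 m))
    | mul x y hx hy =>
      intro g n m
      rw [← mul_assoc]
      exact (hx g n n).trans (hy (g * x) n m)
  have : Nonempty (KK s × ℤ) := ⟨(1, 0)⟩
  refine SimpleGraph.Connected.mk ?_
  rintro ⟨g, n⟩ ⟨g', m⟩
  have := key (g⁻¹ * g') g n m
  rwa [mul_inv_cancel_left] at this

/-- distance in the graph -/
noncomputable abbrev dX (x y : KK s × ℤ) : ℕ := (XX s).dist x y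

theorem dX_tri (x y z : KK s × ℤ) : dX s x z ≤ dX s x y + dX s y z :=
  (connected_XX s).dist_triangle

theorem dX_comm (x y : KK s × ℤ) : dX s x y = dX s y x := SimpleGraph.dist_comm

theorem dX_eq_zero {x y : KK s × ℤ} (h : dX s x y = 0) : x = y :=
  (connected_XX s).dist_eq_zero_iff.1 h

theorem dX_self (x : KK s × ℤ) : dX s x x = 0 := SimpleGraph.dist_self

theorem dX_adj {x y : KK s × ℤ} (h : AdjR s x y) : dX s x y ≤ 1 :=
  (SimpleGraph.dist_eq_one_iff_adj.2 h).le

theorem dX_vert (g : KK s) (n m : ℤ) : dX s (g, n) (g, m) ≤ (n - m).natAbs := by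
  have key : ∀ (k : ℕ) (n : ℤ), dX s (g, n) (g, n + k) ≤ k := by
    intro k
    induction k with
    | zero => intro n; simp
    | succ k ih =>
      intro n
      refine (dX_tri s _ (g, n + k) _).trans ?_
      have h1 := ih n
      have h2 : dX s (g, n + k) (g, n + (k + 1 : ℕ)) ≤ 1 := by
        apply dX_adj
        left
        refine ⟨rfl, Or.inr ?_⟩
        simp only
        push_cast; ring
      omega
  rcases le_total n m with h | h
  · obtain ⟨k, hk⟩ := Int.le.dest h
    rw [← hk]
    refine (key k n).trans ?_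
    omega
  · obtain ⟨k, hk⟩ := Int.le.dest h
    rw [← hk, dX_comm]
    refine (key k m).trans ?_
    omega

theorem dX_piece_le (g : KK s) (n : ℤ) : ∀ (k : ℕ) (o : Pc (s n)), nm o = k →
    dX s (g, n) (g * io s n o, n) ≤ k := by
  intro k
  induction k with
  | zero => intro o ho; rw [nm_eq_zero ho, _root_.map_one, mul_one, dX_self]
  | succ k ih =>
    intro o ho
    obtain ⟨o', t, ho', ht, rfl⟩ := nm_split o ho
    refine (dX_tri s _ (g * io s n o', n) _).trans ?_
    have h1 := ih o' ho'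
    have h2 : dX s (g * io s n o', n) (g * io s n (o' * t), n) ≤ 1 := by
      apply dX_adj
      right
      exact ⟨n, t, rfl, rfl, ht, by simp only; rw [_root_.map_mul, mul_assoc]⟩
    omega

/-- the level is 1-Lipschitz -/
theorem level_lip (x y : KK s × ℤ) : (x.2 - y.2).natAbs ≤ dX s x y := by
  apply lip_gen (connected_XX s) (fun x y => (x.2 - y.2).natAbs)
  · intro a; simp
  · intro a b c; omega
  · rintro a b (⟨_, h⟩ | ⟨n, o, h1, h2, _, _⟩)
    · omega
    · omega

/-- retraction to `ℤ³` -/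
noncomputable def rho : KK s →* AA :=
  PushoutI.lift (fun n => rt (s n)) (MonoidHom.id AA) (by
    intro n; ext a : 1; exact rt_phi _ _)

theorem rho_io (n : ℤ) (o : Pc (s n)) : rho s (io s n o) = rt (s n) o := by
  unfold rho io; exact PushoutI.lift_of _ _ _ _

theorem rho_bb (a : AA) : rho s (bb s a) = a := by
  unfold rho bb; exact PushoutI.lift_base _ _ _ _

theorem rho_lip (x y : KK s × ℤ) : an ((rho s x.1)⁻¹ * rho s y.1) ≤ dX s x y := by
  apply lip_gen (connected_XX s) (fun x y => an ((rho s x.1)⁻¹ * rho s y.1))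
  · intro a; simp [an_one]
  · intro a b c
    have : (rho s a.1)⁻¹ * rho s c.1 =
      ((rho s a.1)⁻¹ * rho s b.1) * ((rho s b.1)⁻¹ * rho s c.1) := by group
    rw [this]; exact an_mul _ _
  · rintro a b (⟨h, _⟩ | ⟨n, o, h1, h2, h3, h4⟩)
    · rw [h, inv_mul_cancel, an_one]; omega
    · rw [h4, _root_.map_mul, inv_mul_cancel_left, rho_io]
      have := an_rt o
      omega

/-- retraction to the piece of level `n` -/
noncomputable def rn (n : ℤ) : KK s →* Pc (s n) :=
  PushoutI.lift (fun m => if h : m = n then pcCast (congrArg s h) else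
      (phi (s n)).comp (rt (s m))) (phi (s n)) (by
    intro m
    ext a : 1
    split_ifs with h
    · exact pcCast_phi _ _
    · simp only [MonoidHom.comp_apply]; rw [rt_phi])

theorem rn_io_self (n : ℤ) (o : Pc (s n)) : rn s n (io s n o) = o := by
  unfold rn io
  rw [PushoutI.lift_of, dif_pos rfl]
  rfl

theorem rn_io_nm (n m : ℤ) (o : Pc (s m)) : nm (rn s n (io s m o)) ≤ nm o := by
  unfold rn io
  rw [PushoutI.lift_of]
  split_ifs with h
  · rw [nm_pcCast]
  · rw [MonoidHom.comp_apply]
    exact (nm_phi _).trans (an_rt o)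

theorem rn_lip (n : ℤ) (x y : KK s × ℤ) : nm ((rn s n x.1)⁻¹ * rn s n y.1) ≤ dX s x y := by
  apply lip_gen (connected_XX s) (fun x y => nm ((rn s n x.1)⁻¹ * rn s n y.1))
  · intro a; simp [nm_one]
  · intro a b c
    have : (rn s n a.1)⁻¹ * rn s n c.1 =
      ((rn s n a.1)⁻¹ * rn s n b.1) * ((rn s n b.1)⁻¹ * rn s n c.1) := by group
    rw [this]; exact nm_mul _ _
  · rintro a b (⟨h, _⟩ | ⟨m, o, h1, h2, h3, h4⟩)
    · rw [h, inv_mul_cancel, nm_one]; omega
    · rw [h4, _root_.map_mul, inv_mul_cancel_left]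
      have := rn_io_nm s n m o
      omega

theorem dX_piece (g : KK s) (n : ℤ) (o o' : Pc (s n)) :
    dX s (g * io s n o, n) (g * io s n o', n) = nm (o⁻¹ * o') := by
  apply le_antisymm
  · have h1 := dX_piece_le s (g * io s n o) n _ (o⁻¹ * o') rfl
    have h2 : g * io s n o * io s n (o⁻¹ * o') = g * io s n o' := by
      rw [mul_assoc, ← _root_.map_mul, mul_inv_cancel_left]
    rwa [h2] at h1
  · have h1 := rn_lip s n (g * io s n o, n) (g * io s n o', n)
    simp only [_root_.map_mul, rn_io_self] at h1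
    have h2 : (rn s n g * o)⁻¹ * (rn s n g * o') = o⁻¹ * o' := by group
    rwa [h2] at h1

/-- flats -/
def FL (k : KK s) (n : ℤ) : Set (KK s × ℤ) := {x | ∃ a, x = (k * bb s a, n)}

/-- pieces -/
def OB (k : KK s) (n : ℤ) : Set (KK s × ℤ) := {x | ∃ o, x = (k * io s n o, n)}

/-- half-spaces -/
noncomputable def UU (k : KK s) (n : ℤ) : Set (KK s × ℤ) := {x | fl (tr s) (k⁻¹ * x.1) = some n}

theorem FL_sub_OB (k : KK s) (n : ℤ) : FL s k n ⊆ OB s k n := by
  rintro x ⟨a, rfl⟩
  exact ⟨phi (s n) a, by rw [io_phi]⟩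

theorem FL_not_UU (k : KK s) (n : ℤ) {x : KK s × ℤ} (hx : x ∈ FL s k n) : x ∉ UU s k n := by
  obtain ⟨a, rfl⟩ := hx
  intro h
  have h1 : fl (tr s) (k⁻¹ * (k * bb s a)) = some n := h
  rw [inv_mul_cancel_left] at h1
  rw [fl_base] at h1
  simp at h1

theorem cross (k : KK s) (n : ℤ) {x y : KK s × ℤ} (hx : x ∈ UU s k n) (hy : y ∉ UU s k n) :
    ∃ z ∈ FL s k n, dX s x z + dX s z y ≤ dX s x y := by
  obtain ⟨z, z', hadj, hz, hz', hd⟩ := cross_gen (connected_XX s) (UU s k n) hx hy
  refine ⟨z', ?_, hd⟩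
  have hz1 : fl (tr s) (k⁻¹ * z.1) = some n := hz
  have hz2 : fl (tr s) (k⁻¹ * z'.1) ≠ some n := hz'
  rcases hadj with ⟨h1, _⟩ | ⟨m, o, h1, h2, _, h4⟩
  · rw [h1] at hz1; exact absurd hz1 hz2
  · rw [h4, ← mul_assoc] at hz2
    rcases fl_mul_of (tr s) m o (k⁻¹ * z.1) with h5 | ⟨v, hv⟩
    · rw [h5] at hz2; exact absurd hz1 hz2
    · have hmn : m = n := by
        by_contra hmn
        rw [hv] at hz1
        exact fl_of_ne (tr s) v hmn hz1
      subst hmn
      rw [hv, ← _root_.map_mul] at hz2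
      have h6 : v * o ∈ (phi (s m)).range := by
        by_contra hc
        exact hz2 (fl_of_not_mem (tr s) hc)
      obtain ⟨a, ha⟩ := h6
      refine ⟨a, Prod.ext ?_ h2⟩
      rw [h4]
      have h7 : z.1 = k * io s m v := by rw [← hv, mul_inv_cancel_left]
      rw [h7, mul_assoc, ← _root_.map_mul, ← ha, io_phi]

theorem cross' (k : KK s) (n : ℤ) {x y : KK s × ℤ} (hx : x ∉ UU s k n) (hy : y ∈ UU s k n) :
    ∃ z ∈ FL s k n, dX s x z + dX s z y ≤ dX s x y := by
  obtain ⟨z, hz, h⟩ := cross s k n hy hx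
  refine ⟨z, hz, ?_⟩
  rw [dX_comm s x z, dX_comm s z y, dX_comm s x y]
  omega

/-- a point close to points on both sides is close to the flat -/
theorem cross_near (k : KK s) (n : ℤ) {x p q : KK s × ℤ} {R : ℕ} (hq : q ∈ UU s k n)
    (hp : p ∉ UU s k n) (hxq : dX s x q ≤ R) (hxp : dX s x p ≤ R) :
    ∃ z ∈ FL s k n, dX s x z ≤ R := by
  by_cases hx : x ∈ UU s k n
  · obtain ⟨z, hz, h⟩ := cross s k n hx hp
    exact ⟨z, hz, by omega⟩
  · obtain ⟨z, hz, h⟩ := cross' s k n hx hq
    exact ⟨z, hz, by omega⟩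

/-- degree bound -/
theorem deg_bd (hs : ∀ n, s n ≤ 1) (x : KK s × ℤ) (t : Finset (KK s × ℤ))
    (ht : ∀ y ∈ t, (XX s).Adj x y) : t.card ≤ 14 := by
  classical
  let t1 := t.filter fun y => y.1 = x.1 ∧ (y.2 = x.2 + 1 ∨ y.2 = x.2 - 1)
  let t2 := t.filter fun y => ∃ o : Pc (s x.2), nm o = 1 ∧ y = (x.1 * io s x.2 o, x.2)
  have hsub : t ⊆ t1 ∪ t2 := by
    intro y hy
    rw [Finset.mem_union, Finset.mem_filter, Finset.mem_filter]
    rcases ht y hy with ⟨h1, h2⟩ | ⟨n, o, h1, h2, h3, h4⟩
    · left; exact ⟨hy, h1.symm, by omega⟩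
    · right
      subst h1
      exact ⟨hy, o, h3, Prod.ext h4 h2⟩
  have h1 : t1.card ≤ 2 := by
    have : t1 ⊆ {(x.1, x.2 + 1), (x.1, x.2 - 1)} := by
      intro y hy
      obtain ⟨_, h1, h2⟩ := Finset.mem_filter.1 hy
      rw [Finset.mem_insert, Finset.mem_singleton]
      rcases h2 with h2 | h2
      · left; exact Prod.ext h1 h2
      · right; exact Prod.ext h1 h2
    exact (Finset.card_le_card this).trans Finset.card_le_two
  have h2 : t2.card ≤ 12 := by
    have hch : ∀ y, ∃ o : Pc (s x.2), y ∈ t2 → nm o = 1 ∧ y = (x.1 * io s x.2 o, x.2) := by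
      intro y
      by_cases hy : y ∈ t2
      · obtain ⟨_, o, ho⟩ := Finset.mem_filter.1 hy
        exact ⟨o, fun _ => ho⟩
      · exact ⟨1, fun h => absurd h hy⟩
    choose f hf using hch
    rw [← Finset.card_image_of_injOn (s := t2) (f := f)]
    · refine (letters (t2.image f) ?_).trans ?_
      · intro o ho
        obtain ⟨y, hy, rfl⟩ := Finset.mem_image.1 ho
        exact (hf y hy).1
      · have := hs x.2
        omega
    · intro a ha b hb hab
      have h3 := (hf a ha).2
      have h4 := (hf b hb).2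
      rw [h3, h4, hab]
  calc t.card ≤ (t1 ∪ t2).card := Finset.card_le_card hsub
    _ ≤ t1.card + t2.card := Finset.card_union_le _ _
    _ ≤ 14 := by omega

theorem ballX (hs : ∀ n, s n ≤ 1) (r : ℕ) (x : KK s × ℤ) (t : Finset (KK s × ℤ))
    (ht : ∀ y ∈ t, dX s x y ≤ r) : t.card ≤ 15 ^ r :=
  ball_bd (connected_XX s) 14 (deg_bd s hs) r x t ht

end Pool.Agent.H536R3
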