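import Pool.Agent.H674R3.HenR

set_option autoImplicit false

open Finset

namespace Pool.Agent.H536R3.HenRFixB

open Pool.Agent.H674R3.HenR

/-- number of divisors of `E` in `nz H` -/
theorem cnt (H D : ℕ) (hD : DivB H D) (E : ℤ) (hE : |E| ≤ 1000 * (H : ℤ) ^ 2) :
    (∑ δ ∈ nz H, if δ ∣ E then 1 else 0) ≤ 2 * D + (if E = 0 then 2 * H else 0) := by
  classical
  rw [← Finset.card_filter]
  by_cases h0 : E = 0
  · rw [if_pos h0]
    have h1 : (nz H).card = 2 * H := by
      have : nz H = (Finset.Icc (-(H : ℤ)) H).erase 0 := by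
        ext x
        simp only [nz, Finset.mem_filter, Finset.mem_erase]
        tauto
      rw [this, Finset.card_erase_of_mem (Finset.mem_Icc.mpr (by omega)), Int.card_Icc]
      omega
    have h2 := Finset.card_filter_le (nz H) (fun δ => δ ∣ E)
    omega
  · rw [if_neg h0, add_zero]
    have hn : E.natAbs ≠ 0 := by omega
    have hle : E.natAbs ≤ 1000 * H ^ 2 := by
      have : ((E.natAbs : ℕ) : ℤ) ≤ ((1000 * H ^ 2 : ℕ) : ℤ) := by
        rw [Int.natCast_natAbs]; push_cast; exact hE
      exact_mod_cast this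
    have h1 := hD.2 _ hn hle
    have h2 : (nz H).filter (fun δ => δ ∣ E) ⊆
        (E.natAbs.divisors.image (fun n : ℕ => (n : ℤ))) ∪
        (E.natAbs.divisors.image (fun n : ℕ => -(n : ℤ))) := by
      intro δ hδ
      rw [Finset.mem_filter] at hδ
      have h3 : δ.natAbs ∈ E.natAbs.divisors :=
        Nat.mem_divisors.mpr ⟨Int.natAbs_dvd_natAbs.mpr hδ.2, hn⟩
      rw [Finset.mem_union, Finset.mem_image, Finset.mem_image]
      rcases le_total 0 δ with h | h
      · exact Or.inl ⟨_, h3, by omega⟩
      · exact Or.inr ⟨_, h3, by omega⟩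
    have h3 := Finset.card_le_card h2
    have h4 := Finset.card_union_le (E.natAbs.divisors.image (fun n : ℕ => (n : ℤ)))
      (E.natAbs.divisors.image (fun n : ℕ => -(n : ℤ)))
    have h5 := Finset.card_image_le (s := E.natAbs.divisors) (f := fun n : ℕ => (n : ℤ))
    have h6 := Finset.card_image_le (s := E.natAbs.divisors) (f := fun n : ℕ => -(n : ℤ))
    omega

theorem taskFixB : TaskFixB := by
  classical
  intro H D b hH hD hb hbH
  set tx : Finset ℤ := Finset.Icc (-(9 * (H : ℤ))) (9 * (H : ℤ)) with htx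
  have ctx : tx.card = 18 * H + 1 := by
    rw [htx, Int.card_Icc]; omega
  have cbx : (bx H).card = 16 * H + 1 := by
    unfold bx
    rw [Int.card_Icc]; omega
  have h0bx : (0 : ℤ) ∈ bx H := Finset.mem_Icc.mpr (by omega)
  -- the sum as a sum of indicators
  have h1 : ∀ δ u : ℤ, (solR H b δ u).card ≤
      ∑ v ∈ bx H, ∑ t ∈ tx, if δ ∣ u * (t - u - v) - b * v then 1 else 0 := by
    intro δ u
    unfold solR
    rw [Finset.card_filter, Finset.sum_product]
    apply Finset.sum_le_sum
    intro v _
    apply Finset.sum_le_sum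
    intro t _
    split_ifs with h2 h3
    · exact le_rfl
    · exact absurd h2.2 h3
    · exact Nat.zero_le _
    · exact le_rfl
  have h2 : ∑ δ ∈ nz H, ∑ u ∈ bx H, (solR H b δ u).card ≤
      ∑ u ∈ bx H, ∑ v ∈ bx H, ∑ t ∈ tx, ∑ δ ∈ nz H,
        if δ ∣ u * (t - u - v) - b * v then 1 else 0 := by
    rw [Finset.sum_comm]
    apply Finset.sum_le_sum
    intro u _
    calc ∑ δ ∈ nz H, (solR H b δ u).card ≤ ∑ δ ∈ nz H, ∑ v ∈ bx H, ∑ t ∈ tx,
          (if δ ∣ u * (t - u - v) - b * v then 1 else 0) :=
          Finset.sum_le_sum (fun δ _ => h1 δ u)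
      _ = ∑ v ∈ bx H, ∑ δ ∈ nz H, ∑ t ∈ tx,
          (if δ ∣ u * (t - u - v) - b * v then 1 else 0) := Finset.sum_comm
      _ = _ := Finset.sum_congr rfl (fun v _ => Finset.sum_comm)
      _ ≤ _ := le_rfl
  have h3 : ∀ u ∈ bx H, ∀ v ∈ bx H, (∑ t ∈ tx, ∑ δ ∈ nz H,
        if δ ∣ u * (t - u - v) - b * v then 1 else 0) ≤
      (2 * D * (18 * H + 1) + 2 * H) +
        (if u = 0 then (if v = 0 then 2 * H * (18 * H + 1) else 0) else 0) := by
    intro u hu v hv
    have hu' : |u| ≤ 8 * (H : ℤ) := abs_le.mpr (Finset.mem_Icc.mp hu)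
    have hv' : |v| ≤ 8 * (H : ℤ) := abs_le.mpr (Finset.mem_Icc.mp hv)
    have h4 : (∑ t ∈ tx, ∑ δ ∈ nz H, if δ ∣ u * (t - u - v) - b * v then 1 else 0) ≤
        ∑ t ∈ tx, (2 * D + (if u * (t - u - v) - b * v = 0 then 2 * H else 0)) := by
      apply Finset.sum_le_sum
      intro t ht
      apply cnt H D hD
      have ht' : |t| ≤ 9 * (H : ℤ) := abs_le.mpr (Finset.mem_Icc.mp ht)
      have e1 : |u * (t - u - v)| ≤ 8 * (H : ℤ) * (25 * (H : ℤ)) := by
        rw [abs_mul]
        apply mul_le_mul hu' _ (abs_nonneg _) (by positivity)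
        have := abs_le.mp ht'
        have := abs_le.mp hu'
        have := abs_le.mp hv'
        rw [abs_le]
        constructor <;> linarith
      have e2 : |b * v| ≤ (H : ℤ) * (8 * (H : ℤ)) := by
        rw [abs_mul]
        exact mul_le_mul hbH hv' (abs_nonneg _) (by positivity)
      have e3 := abs_sub (u * (t - u - v)) (b * v)
      nlinarith
    refine h4.trans ?_
    rw [Finset.sum_add_distrib, Finset.sum_const, ctx, smul_eq_mul]
    have h5 : (∑ t ∈ tx, if u * (t - u - v) - b * v = 0 then 2 * H else 0) ≤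
        2 * H + (if u = 0 then (if v = 0 then 2 * H * (18 * H + 1) else 0) else 0) := by
      by_cases hu0 : u = 0
      · by_cases hv0 : v = 0
        · rw [if_pos hu0, if_pos hv0]
          calc (∑ t ∈ tx, if u * (t - u - v) - b * v = 0 then 2 * H else 0) ≤
              ∑ t ∈ tx, 2 * H := by
                apply Finset.sum_le_sum
                intro t _
                split_ifs
                · exact le_rfl
                · exact Nat.zero_le _
            _ = 2 * H * (18 * H + 1) := by rw [Finset.sum_const, ctx, smul_eq_mul]; ring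
            _ ≤ _ := by omega
        · rw [if_pos hu0, if_neg hv0]
          have : ∀ t ∈ tx, (if u * (t - u - v) - b * v = 0 then 2 * H else 0) = 0 := by
            intro t _
            rw [if_neg]
            rw [hu0]
            intro h
            have : b * v = 0 := by linarith
            rcases mul_eq_zero.mp this with h | h
            · exact hb h
            · exact hv0 h
          rw [Finset.sum_eq_zero this]
          omega
      · rw [if_neg hu0, add_zero, ← Finset.sum_filter, Finset.sum_const, smul_eq_mul]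
        have hc : (tx.filter (fun t => u * (t - u - v) - b * v = 0)).card ≤ 1 := by
          rw [Finset.card_le_one]
          intro a ha a' ha'
          rw [Finset.mem_filter] at ha ha'
          have : u * (a - a') = 0 := by linarith [ha.2, ha'.2]
          rcases mul_eq_zero.mp this with h | h
          · exact absurd h hu0
          · linarith
        calc _ ≤ 1 * (2 * H) := Nat.mul_le_mul_right _ hc
          _ = 2 * H := by ring
    calc (18 * H + 1) * (2 * D) + (∑ t ∈ tx, if u * (t - u - v) - b * v = 0 then 2 * H else 0) ≤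
        (18 * H + 1) * (2 * D) + (2 * H +
          (if u = 0 then (if v = 0 then 2 * H * (18 * H + 1) else 0) else 0)) :=
          Nat.add_le_add_left h5 _
      _ = _ := by ring
  have h4 : ∑ u ∈ bx H, ∑ v ∈ bx H, (∑ t ∈ tx, ∑ δ ∈ nz H,
        if δ ∣ u * (t - u - v) - b * v then 1 else 0) ≤
      (16 * H + 1) * ((16 * H + 1) * (2 * D * (18 * H + 1) + 2 * H)) +
        2 * H * (18 * H + 1) := by
    calc _ ≤ ∑ u ∈ bx H, ∑ v ∈ bx H, ((2 * D * (18 * H + 1) + 2 * H) +
        (if u = 0 then (if v = 0 then 2 * H * (18 * H + 1) else 0) else 0)) :=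
          Finset.sum_le_sum (fun u hu => Finset.sum_le_sum (fun v hv => h3 u hu v hv))
      _ = _ := by
        have e1 : ∀ u ∈ bx H, ∑ v ∈ bx H, ((2 * D * (18 * H + 1) + 2 * H) +
            (if u = 0 then (if v = 0 then 2 * H * (18 * H + 1) else 0) else 0)) =
            (16 * H + 1) * (2 * D * (18 * H + 1) + 2 * H) +
              (if u = 0 then 2 * H * (18 * H + 1) else 0) := by
          intro u _
          rw [Finset.sum_add_distrib, Finset.sum_const, cbx, smul_eq_mul]
          congr 1
          split_ifs with h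
          · rw [Finset.sum_ite_eq', if_pos h0bx]
          · exact Finset.sum_const_zero
        rw [Finset.sum_congr rfl e1, Finset.sum_add_distrib, Finset.sum_const, cbx, smul_eq_mul,
          Finset.sum_ite_eq', if_pos h0bx]
  refine (h2.trans h4).trans ?_
  have hD1 := hD.1
  have k1 : 16 * H + 1 ≤ 17 * H := by omega
  have k2 : 18 * H + 1 ≤ 19 * H := by omega
  have k3 : H ≤ D * H := Nat.le_mul_of_pos_left _ hD1
  calc (16 * H + 1) * ((16 * H + 1) * (2 * D * (18 * H + 1) + 2 * H)) + 2 * H * (18 * H + 1)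
      ≤ (17 * H) * ((17 * H) * (2 * D * (19 * H) + 2 * (D * H))) + 2 * H * (19 * H) := by
        gcongr
    _ = 11560 * (H ^ 3 * D) + 38 * (H ^ 2 * 1 * 1) := by ring
    _ ≤ 11560 * (H ^ 3 * D) + 38 * (H ^ 2 * H * D) := by gcongr
    _ ≤ 20000 * H ^ 3 * D := by nlinarith [Nat.zero_le (H ^ 3 * D)]

end Pool.Agent.H536R3.HenRFixB
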