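import Pool.Agent.H536R3.Graph

set_option autoImplicit false
set_option linter.unusedSectionVars false
set_option linter.unusedVariables false

/-! A Sturmian colouring of `ℤ` and the coarse symmetries of its graph. -/

namespace Pool.Agent.H536R3

open Monoid Monoid.PushoutI

/-! ### ranks -/

theorem rank_inv (T : ℤ → Prop) [DecidablePred T] (r : ℤ → ℤ)
    (hr : ∀ n, r (n + 1) = r n + (if T n then 1 else 0))
    (hlo : ∀ k, ∃ n, r n ≤ k) (hhi : ∀ k, ∃ n, k < r n) :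
    ∃ p : ℤ → ℤ, (∀ k, T (p k)) ∧ (∀ k, r (p k) = k) ∧ ∀ n, T n → p (r n) = n := by
  have hmono : Monotone r := by
    apply monotone_int_of_le_succ
    intro n
    rw [hr]
    split_ifs <;> omega
  have hex : ∀ k, ∃ n, T n ∧ r n = k := by
    intro k
    obtain ⟨n0, h0⟩ := hlo k
    obtain ⟨n1, h1⟩ := hhi k
    obtain ⟨n, hn, hmax⟩ := Int.exists_greatest_of_bdd (P := fun n => r n ≤ k) ⟨n1, by
      intro z hz
      by_contra hc
      push Not at hc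
      have := hmono hc.le
      omega⟩ ⟨n0, h0⟩
    have h2 : k < r (n + 1) := by
      by_contra hc
      push Not at hc
      have := hmax (n + 1) hc
      omega
    have h3 := hr n
    refine ⟨n, ?_, ?_⟩
    · by_contra hT
      rw [if_neg hT] at h3
      omega
    · split_ifs at h3 <;> omega
  choose p hp1 hp2 using hex
  refine ⟨p, hp1, hp2, ?_⟩
  intro n hn
  have h1 := hp1 (r n)
  have h2 := hp2 (r n)
  rcases lt_trichotomy (p (r n)) n with h | h | h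
  · have h3 := hmono (show p (r n) + 1 ≤ n by omega)
    rw [hr, if_pos h1] at h3
    omega
  · exact h
  · have h3 := hmono (show n + 1 ≤ p (r n) by omega)
    rw [hr, if_pos hn] at h3
    omega

/-- the Sturmian colouring -/
noncomputable def st (α : ℝ) (n : ℤ) : ℕ := (⌊((n + 1 : ℤ) : ℝ) * α⌋ - ⌊(n : ℝ) * α⌋).toNat

section sturm

variable {α : ℝ} (h0 : 0 < α) (h1 : α < 1)

include h0 h1

theorem st_step (n : ℤ) : ⌊((n + 1 : ℤ) : ℝ) * α⌋ = ⌊(n : ℝ) * α⌋ ∨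
    ⌊((n + 1 : ℤ) : ℝ) * α⌋ = ⌊(n : ℝ) * α⌋ + 1 := by
  have e1 := Int.floor_le ((n : ℝ) * α)
  have e2 := Int.lt_floor_add_one ((n : ℝ) * α)
  have e3 := Int.floor_le (((n + 1 : ℤ) : ℝ) * α)
  have e4 := Int.lt_floor_add_one (((n + 1 : ℤ) : ℝ) * α)
  push_cast at e3 e4 ⊢
  have e5 : ⌊(n : ℝ) * α⌋ < ⌊((n : ℝ) + 1) * α⌋ + 1 := by
    have : ((⌊(n : ℝ) * α⌋ : ℤ) : ℝ) < ((⌊((n : ℝ) + 1) * α⌋ + 1 : ℤ) : ℝ) := by
      push_cast; nlinarith
    exact_mod_cast this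
  have e6 : ⌊((n : ℝ) + 1) * α⌋ < ⌊(n : ℝ) * α⌋ + 2 := by
    have : ((⌊((n : ℝ) + 1) * α⌋ : ℤ) : ℝ) < ((⌊(n : ℝ) * α⌋ + 2 : ℤ) : ℝ) := by
      push_cast; nlinarith
    exact_mod_cast this
  omega

theorem st_le (n : ℤ) : st α n ≤ 1 := by
  unfold st
  rcases st_step h0 h1 n with h | h
  · rw [h]; simp
  · rw [h]; simp

theorem st_int (n : ℤ) : (st α n : ℤ) = ⌊((n + 1 : ℤ) : ℝ) * α⌋ - ⌊(n : ℝ) * α⌋ := by
  unfold st
  rcases st_step h0 h1 n with h | h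
  · rw [h]; simp
  · rw [h]; simp

theorem st_real (n : ℤ) : (st α n : ℝ) = ⌊((n + 1 : ℤ) : ℝ) * α⌋ - ⌊(n : ℝ) * α⌋ := by
  have := st_int h0 h1 n
  exact_mod_cast this

theorem st_maps : ∃ N : ℕ, ∀ j : ℤ, ∃ φ : Equiv.Perm ℤ, (∀ n, st α (φ n) = st α n) ∧
    ∀ n, (φ n - (n + j)).natAbs ≤ N := by
  classical
  -- rank functions
  have hr1 : ∀ n : ℤ, ⌊((n + 1 : ℤ) : ℝ) * α⌋ = ⌊(n : ℝ) * α⌋ + (if st α n = 1 then 1 else 0) := by
    intro n
    have := st_int h0 h1 n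
    have h2 := st_le h0 h1 n
    split_ifs <;> omega
  have hr0 : ∀ n : ℤ, (n + 1) - ⌊((n + 1 : ℤ) : ℝ) * α⌋ =
      (n - ⌊(n : ℝ) * α⌋) + (if st α n = 0 then 1 else 0) := by
    intro n
    have := st_int h0 h1 n
    have h2 := st_le h0 h1 n
    split_ifs <;> omega
  obtain ⟨p, hp1, hp2, hp3⟩ := rank_inv (fun n => st α n = 1) (fun n => ⌊(n : ℝ) * α⌋) hr1 (by
    intro k
    refine ⟨⌊(k : ℝ) / α⌋, ?_⟩
    rw [Int.floor_le_iff]
    have e1 := Int.floor_le ((k : ℝ) / α)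
    have e2 := mul_le_mul_of_nonneg_right e1 h0.le
    rw [div_mul_cancel₀ _ h0.ne'] at e2
    linarith) (by
    intro k
    refine ⟨⌊((k : ℝ) + 1) / α⌋ + 1, ?_⟩
    have e1 := Int.lt_floor_add_one (((k : ℝ) + 1) / α)
    have e2 := mul_lt_mul_of_pos_right e1 h0
    rw [div_mul_cancel₀ _ h0.ne'] at e2
    have e3 : k + 1 ≤ ⌊((⌊((k : ℝ) + 1) / α⌋ + 1 : ℤ) : ℝ) * α⌋ := by
      rw [Int.le_floor]
      push_cast
      exact e2.le
    exact e3)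
  have h1' : 0 < 1 - α := by linarith
  obtain ⟨q, hq1, hq2, hq3⟩ := rank_inv (fun n => st α n = 0) (fun n => n - ⌊(n : ℝ) * α⌋) hr0 (by
    intro k
    refine ⟨⌊((k : ℝ) - 1) / (1 - α)⌋, ?_⟩
    have e1 := Int.floor_le (((k : ℝ) - 1) / (1 - α))
    have e2 := mul_le_mul_of_nonneg_right e1 h1'.le
    rw [div_mul_cancel₀ _ h1'.ne'] at e2
    have e3 := Int.lt_floor_add_one (((⌊((k : ℝ) - 1) / (1 - α)⌋ : ℤ) : ℝ) * α)
    have e4 : ((⌊((k : ℝ) - 1) / (1 - α)⌋ - ⌊((⌊((k : ℝ) - 1) / (1 - α)⌋ : ℤ) : ℝ) * α⌋ : ℤ) : ℝ)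
      < ((k + 1 : ℤ) : ℝ) := by
      push_cast
      linarith
    have e5 : ⌊((k : ℝ) - 1) / (1 - α)⌋ - ⌊((⌊((k : ℝ) - 1) / (1 - α)⌋ : ℤ) : ℝ) * α⌋ < k + 1 := by
      exact_mod_cast e4
    omega) (by
    intro k
    refine ⟨⌊(k : ℝ) / (1 - α)⌋ + 1, ?_⟩
    have e1 := Int.lt_floor_add_one ((k : ℝ) / (1 - α))
    have e2 := mul_lt_mul_of_pos_right e1 h1'
    rw [div_mul_cancel₀ _ h1'.ne'] at e2
    have e3 := Int.floor_le (((⌊(k : ℝ) / (1 - α)⌋ + 1 : ℤ) : ℝ) * α)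
    have e4 : ((k : ℤ) : ℝ) < ((⌊(k : ℝ) / (1 - α)⌋ + 1 -
        ⌊((⌊(k : ℝ) / (1 - α)⌋ + 1 : ℤ) : ℝ) * α⌋ : ℤ) : ℝ) := by
      push_cast at e3 ⊢
      linarith
    exact_mod_cast e4)
  -- the maps
  let F : ℤ → ℤ → ℤ → ℤ := fun a b n =>
    if st α n = 1 then p (⌊(n : ℝ) * α⌋ + a) else q (n - ⌊(n : ℝ) * α⌋ + b)
  have hF1 : ∀ a b n, st α n = 1 → F a b n = p (⌊(n : ℝ) * α⌋ + a) := by
    intro a b n hn; simp only [F, if_pos hn]
  have hF0 : ∀ a b n, st α n = 0 → F a b n = q (n - ⌊(n : ℝ) * α⌋ + b) := by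
    intro a b n hn; simp only [F, hn]; simp
  have hcase : ∀ n, st α n = 1 ∨ st α n = 0 := by
    intro n; have := st_le h0 h1 n; omega
  have hs : ∀ a b n, st α (F a b n) = st α n := by
    intro a b n
    rcases hcase n with hn | hn
    · rw [hF1 a b n hn, hp1, hn]
    · rw [hF0 a b n hn, hq1, hn]
  have hinv : ∀ a b n, F (-a) (-b) (F a b n) = n := by
    intro a b n
    rcases hcase n with hn | hn
    · rw [hF1 (-a) (-b) _ (by rw [hs, hn]), hF1 a b n hn, hp2, add_neg_cancel_right, hp3 n hn]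
    · rw [hF0 (-a) (-b) _ (by rw [hs, hn]), hF0 a b n hn, hq2, add_neg_cancel_right, hq3 n hn]
  obtain ⟨N, hN⟩ := exists_nat_gt (2 / α + 2 / (1 - α))
  have hA : 0 < 2 / α := by positivity
  have hB : 0 < 2 / (1 - α) := by positivity
  refine ⟨N, fun j => ?_⟩
  refine ⟨⟨F ⌊(j : ℝ) * α⌋ (j - ⌊(j : ℝ) * α⌋), F (-⌊(j : ℝ) * α⌋) (-(j - ⌊(j : ℝ) * α⌋)),
    hinv _ _, fun n => ?_⟩, hs _ _, ?_⟩
  · have := hinv (-⌊(j : ℝ) * α⌋) (-(j - ⌊(j : ℝ) * α⌋)) n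
    rwa [neg_neg, neg_neg] at this
  · intro n
    simp only [Equiv.coe_fn_mk]
    set m := F ⌊(j : ℝ) * α⌋ (j - ⌊(j : ℝ) * α⌋) n with hm
    have key : |((m - (n + j) : ℤ) : ℝ)| < N := by
      have f1 := Int.floor_le ((n : ℝ) * α)
      have f2 := Int.lt_floor_add_one ((n : ℝ) * α)
      have f3 := Int.floor_le ((j : ℝ) * α)
      have f4 := Int.lt_floor_add_one ((j : ℝ) * α)
      have f5 := Int.floor_le ((m : ℝ) * α)
      have f6 := Int.lt_floor_add_one ((m : ℝ) * α)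
      rcases hcase n with hn | hn
      · have e1 : ⌊(m : ℝ) * α⌋ = ⌊(n : ℝ) * α⌋ + ⌊(j : ℝ) * α⌋ := by
          rw [hm, hF1 _ _ n hn, hp2]
        rw [e1] at f5 f6
        push_cast at f5 f6
        have e2 : |((m - (n + j) : ℤ) : ℝ) * α| < 2 := by
          push_cast
          rw [abs_lt]
          constructor <;> nlinarith
        rw [abs_mul, abs_of_pos h0] at e2
        have e3 : |((m - (n + j) : ℤ) : ℝ)| < 2 / α := by
          rw [lt_div_iff₀ h0]; exact e2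
        linarith
      · have e1 : m - ⌊(m : ℝ) * α⌋ = n - ⌊(n : ℝ) * α⌋ + (j - ⌊(j : ℝ) * α⌋) := by
          rw [hm, hF0 _ _ n hn, hq2]
        have e1' : (m : ℝ) - ⌊(m : ℝ) * α⌋ = n - ⌊(n : ℝ) * α⌋ + (j - ⌊(j : ℝ) * α⌋) := by
          exact_mod_cast e1
        have e2 : |((m - (n + j) : ℤ) : ℝ) * (1 - α)| < 2 := by
          push_cast
          rw [abs_lt]
          constructor <;> nlinarith
        rw [abs_mul, abs_of_pos h1'] at e2
        have e3 : |((m - (n + j) : ℤ) : ℝ)| < 2 / (1 - α) := by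
          rw [lt_div_iff₀ h1']; exact e2
        linarith
    have key2 : |m - (n + j)| < (N : ℤ) := by
      have : ((|m - (n + j)| : ℤ) : ℝ) < ((N : ℤ) : ℝ) := by
        rw [Int.cast_abs]; exact_mod_cast key
      exact_mod_cast this
    rw [Int.abs_eq_natAbs] at key2
    omega

end sturm

end Pool.Agent.H536R3
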