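import Pool.Agent.H536R3.FG

set_option autoImplicit false
set_option linter.unusedSectionVars false

/-! The pieces `F₂ × F₂ × F_{d+1}` and their non-separation by sets of polynomial growth. -/

namespace Pool.Agent.H536R3

open FreeGroup Filter Topology

/-- polynomial growth bound for a subset, with respect to a distance function -/
def Growth {α : Type} (dd : α → α → ℕ) (S : Set α) (C m : ℕ) : Prop :=
  ∀ (x : α) (r : ℕ) (s : Finset α), (∀ y ∈ s, y ∈ S ∧ dd x y ≤ r) → s.card ≤ C * (r + 1) ^ m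

theorem Growth.mono {α : Type} {dd : α → α → ℕ} {S T : Set α} {C m : ℕ} (h : Growth dd T C m)
    (hST : S ⊆ T) : Growth dd S C m :=
  fun x r s hs => h x r s fun y hy => ⟨hST (hs y hy).1, (hs y hy).2⟩

theorem Growth.up {α : Type} {dd : α → α → ℕ} {S : Set α} {C m m' : ℕ} (h : Growth dd S C m)
    (hm : m ≤ m') : Growth dd S C m' :=
  fun x r s hs => (h x r s hs).trans (Nat.mul_le_mul_left _ (Nat.pow_le_pow_right (by omega) hm))

theorem poly_lt_exp (C m : ℕ) : ∃ n0 : ℕ, ∀ n, n0 ≤ n → C * (n + 1) ^ m < 2 ^ n := by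
  have h1 := (tendsto_pow_const_div_const_pow_of_one_lt m (r := (2 : ℝ)) (by norm_num)).comp
    (tendsto_add_atTop_nat 1)
  have h2 : ∀ᶠ n : ℕ in atTop, ((n + 1 : ℕ) : ℝ) ^ m / 2 ^ (n + 1) < 1 / (2 * (C + 1)) := by
    have := h1.eventually (gt_mem_nhds (show (0 : ℝ) < 1 / (2 * (C + 1)) by positivity))
    simpa using this
  obtain ⟨n0, hn0⟩ := eventually_atTop.1 h2
  refine ⟨n0, fun n hn => ?_⟩
  have h3 := hn0 n hn
  rw [div_lt_div_iff₀ (by positivity) (by positivity)] at h3
  have h4 : ((C * (n + 1) ^ m : ℕ) : ℝ) < ((2 ^ n : ℕ) : ℝ) := by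
    push_cast at h3 ⊢
    rw [pow_succ] at h3
    have h5 : (0 : ℝ) ≤ ((n : ℝ) + 1) ^ m := by positivity
    nlinarith
  exact_mod_cast h4

theorem kraft : ∀ (n : ℕ) (B : Finset (List (Fin 2))), (∀ b ∈ B, b.length ≤ n) →
    ∑ b ∈ B, 2 ^ (n - b.length) < 2 ^ n →
    ∃ w : List (Fin 2), w.length = n ∧ ∀ b ∈ B, ¬ b <+: w := by
  intro n
  induction n with
  | zero =>
    intro B hB hs
    refine ⟨[], rfl, ?_⟩
    intro b hb
    exfalso
    have h1 : ∑ b ∈ B, 2 ^ (0 - b.length) = B.card := by simp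
    rw [h1] at hs
    have : B.card = 0 := by simpa using hs
    rw [Finset.card_eq_zero] at this
    rw [this] at hb
    simp at hb
  | succ n ih =>
    intro B hB hs
    have hnil : [] ∉ B := by
      intro h
      have := Finset.single_le_sum (f := fun b : List (Fin 2) => 2 ^ (n + 1 - b.length))
        (fun _ _ => Nat.zero_le _) h
      simp at this
      omega
    let Bx : Fin 2 → Finset (List (Fin 2)) := fun x =>
      B.preimage (List.cons x) (fun a _ b _ h => (List.cons.inj h).2)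
    have hsum : ∀ x, ∑ t ∈ Bx x, 2 ^ (n - t.length) =
        ∑ b ∈ (Bx x).image (List.cons x), 2 ^ (n + 1 - b.length) := by
      intro x
      rw [Finset.sum_image (fun a _ b _ h => (List.cons.inj h).2)]
      apply Finset.sum_congr rfl
      intro t _
      congr 1
      rw [List.length_cons]; omega
    have hdisj : Disjoint ((Bx 0).image (List.cons 0)) ((Bx 1).image (List.cons 1)) := by
      rw [Finset.disjoint_left]
      intro a h0 h1
      obtain ⟨t, _, rfl⟩ := Finset.mem_image.1 h0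
      obtain ⟨t', _, h⟩ := Finset.mem_image.1 h1
      have := (List.cons.inj h).1
      exact absurd this (by decide)
    have hsub : (Bx 0).image (List.cons 0) ∪ (Bx 1).image (List.cons 1) ⊆ B := by
      intro a ha
      rcases Finset.mem_union.1 ha with h | h <;>
      · obtain ⟨t, ht, rfl⟩ := Finset.mem_image.1 h
        exact Finset.mem_preimage.1 ht
    have hle : ∑ t ∈ Bx 0, 2 ^ (n - t.length) + ∑ t ∈ Bx 1, 2 ^ (n - t.length) < 2 ^ (n + 1) := by
      rw [hsum, hsum, ← Finset.sum_union hdisj]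
      exact lt_of_le_of_lt (Finset.sum_le_sum_of_subset hsub) hs
    have hex : ∃ x, ∑ t ∈ Bx x, 2 ^ (n - t.length) < 2 ^ n := by
      by_contra hc
      push Not at hc
      have h0 := hc 0
      have h1 := hc 1
      rw [pow_succ] at hle
      omega
    obtain ⟨x, hx⟩ := hex
    obtain ⟨w, hw, hw2⟩ := ih (Bx x) (by
      intro b hb
      have := hB _ (Finset.mem_preimage.1 hb)
      rw [List.length_cons] at this; omega) hx
    refine ⟨x :: w, by rw [List.length_cons, hw], ?_⟩
    intro b hb hpre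
    cases b with
    | nil => exact hnil hb
    | cons y t =>
      rw [List.cons_prefix_cons] at hpre
      obtain ⟨rfl, hpre⟩ := hpre
      exact hw2 t (Finset.mem_preimage.2 hb) hpre

/-- choice of a word avoiding blocked initial segments and bad slices -/
theorem good_word (C m : ℕ) : ∃ ρ : ℕ, ∀ s : ℕ, ∃ n0 : ℕ, ∀ n, n0 ≤ n →
    ∀ (α : Type) (dd : α → α → ℕ) (E : Set α) (u : α), Growth dd E C m →
    (∀ e ∈ E, ρ < dd u e) → ∀ (mv : List (Fin 2) → α) (key : α → FreeGroup (Fin 2))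
      (k0 : FreeGroup (Fin 2)), (∀ b, dd u (mv b) ≤ b.length) → (∀ b, key (mv b) = k0 * pw b) →
    ∃ w : List (Fin 2), w.length = n ∧ (∀ b, b <+: w → mv b ∉ E) ∧
      ∀ e ∈ E, key e = k0 * pw w → 2 * n + 2 * s < dd u e := by
  let f : ℕ → ℝ := fun j => C * ((j + 1 : ℕ) : ℝ) ^ m / 2 ^ j
  have hf0 : ∀ j, 0 ≤ f j := fun j => by positivity
  have hsf : Summable f := by
    have h1 := summable_pow_mul_geometric_of_norm_lt_one m (r := (1 / 2 : ℝ))
      (by rw [Real.norm_eq_abs, abs_of_pos] <;> norm_num)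
    have h2 := ((summable_nat_add_iff 1).2 h1).mul_left (2 * C : ℝ)
    refine h2.congr ?_
    intro j
    simp only [f]
    rw [one_div, inv_pow, pow_succ]
    field_simp
  have htail := tendsto_sum_nat_add f
  obtain ⟨ρ, hρ⟩ := (htail.eventually (gt_mem_nhds (show (0 : ℝ) < 1 / 4 by norm_num))).exists
  refine ⟨ρ, fun s => ?_⟩
  obtain ⟨n0, hn0⟩ := poly_lt_exp (4 * C * (2 * s + 2) ^ m) m
  refine ⟨n0, ?_⟩
  intro n hn α dd E u hE hdeep mv key k0 hmv hkey
  classical
  have hmvinj : Function.Injective mv := by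
    intro b b' h
    have := congrArg key h
    rw [hkey, hkey] at this
    exact pw_injective (mul_left_cancel this)
  let LL : Finset (List (Fin 2)) := (List.finite_length_le (Fin 2) n).toFinset
  have hLL : ∀ b, b ∈ LL ↔ b.length ≤ n := fun b => by simp [LL]
  let B1 := LL.filter fun b => mv b ∈ E
  let B2 := LL.filter fun b => b.length = n ∧ ∃ e ∈ E, key e = k0 * pw b ∧ dd u e ≤ 2 * n + 2 * s
  have hB2 : B2.card ≤ C * (2 * n + 2 * s + 1) ^ m := by
    have hch : ∀ b, ∃ e, b ∈ B2 → e ∈ E ∧ key e = k0 * pw b ∧ dd u e ≤ 2 * n + 2 * s := by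
      intro b
      by_cases hb : b ∈ B2
      · obtain ⟨e, he⟩ := (Finset.mem_filter.1 hb).2.2
        exact ⟨e, fun _ => he⟩
      · exact ⟨u, fun h => absurd h hb⟩
    choose g hg using hch
    have hg1 := fun b hb => (hg b hb).1
    have hg2 := fun b hb => (hg b hb).2.1
    have hg3 := fun b hb => (hg b hb).2.2
    rw [← Finset.card_image_of_injOn (s := B2) (f := g)]
    · apply hE u
      intro y hy
      obtain ⟨b, hb, rfl⟩ := Finset.mem_image.1 hy
      exact ⟨hg1 b hb, hg3 b hb⟩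
    · intro a ha b hb hab
      have h1 := hg2 a ha
      have h2 := hg2 b hb
      rw [hab, h2] at h1
      exact (pw_injective (mul_left_cancel h1)).symm
  have hB1j : ∀ j, (B1.filter fun b => b.length = j).card ≤ C * (j + 1) ^ m := by
    intro j
    rw [← Finset.card_image_of_injective _ hmvinj]
    apply hE u
    intro y hy
    obtain ⟨b, hb, rfl⟩ := Finset.mem_image.1 hy
    rw [Finset.mem_filter] at hb
    refine ⟨(Finset.mem_filter.1 hb.1).2, ?_⟩
    have := hmv b
    omega
  have hB1lt : ∀ b ∈ B1, ρ < b.length := by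
    intro b hb
    exact lt_of_lt_of_le (hdeep _ (Finset.mem_filter.1 hb).2) (hmv b)
  have hsum1 : (4 : ℝ) * ((∑ b ∈ B1, 2 ^ (n - b.length) : ℕ) : ℝ) ≤ 2 ^ n := by
    have hmaps : ∀ b ∈ B1, b.length ∈ Finset.Ico ρ (n + 1) := by
      intro b hb
      rw [Finset.mem_Ico]
      have h1 := hB1lt b hb
      have h2 := (hLL b).1 (Finset.mem_filter.1 hb).1
      omega
    rw [← Finset.sum_fiberwise_of_maps_to hmaps]
    push_cast
    have hbd : ∀ j ∈ Finset.Ico ρ (n + 1),
        ∑ b ∈ B1 with b.length = j, (2 : ℝ) ^ (n - b.length) ≤ 2 ^ n * f j := by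
      intro j hj
      rw [Finset.mem_Ico] at hj
      have h1 : ∑ b ∈ B1 with b.length = j, (2 : ℝ) ^ (n - b.length) =
          ∑ b ∈ B1 with b.length = j, (2 : ℝ) ^ (n - j) := by
        apply Finset.sum_congr rfl
        intro b hb
        rw [(Finset.mem_filter.1 hb).2]
      rw [h1, Finset.sum_const, nsmul_eq_mul]
      have h2 : ((B1.filter fun b => b.length = j).card : ℝ) ≤ C * ((j + 1 : ℕ) : ℝ) ^ m := by
        exact_mod_cast hB1j j
      have h3 : (2 : ℝ) ^ n = 2 ^ (n - j) * 2 ^ j := by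
        rw [← pow_add]; congr 1; omega
      rw [h3]
      calc ((B1.filter fun b => b.length = j).card : ℝ) * 2 ^ (n - j)
          ≤ C * ((j + 1 : ℕ) : ℝ) ^ m * 2 ^ (n - j) := by gcongr
        _ = 2 ^ (n - j) * 2 ^ j * f j := by
            simp only [f]; field_simp
    have h5 : ∑ j ∈ Finset.Ico ρ (n + 1), f j ≤ 1 / 4 := by
      rw [Finset.sum_Ico_eq_sum_range]
      refine le_trans ?_ hρ.le
      have h6 : Summable fun k => f (k + ρ) := (summable_nat_add_iff ρ).2 hsf
      have h7 := h6.sum_le_tsum (Finset.range (n + 1 - ρ)) (fun _ _ => hf0 _)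
      simpa [add_comm] using h7
    calc (4 : ℝ) * ∑ j ∈ Finset.Ico ρ (n + 1), ∑ b ∈ B1 with b.length = j, (2 : ℝ) ^ (n - b.length)
        ≤ 4 * ∑ j ∈ Finset.Ico ρ (n + 1), 2 ^ n * f j := by
          gcongr with j hj
          exact hbd j hj
      _ = 4 * (2 ^ n * ∑ j ∈ Finset.Ico ρ (n + 1), f j) := by rw [← Finset.mul_sum]
      _ ≤ 4 * (2 ^ n * (1 / 4)) := by gcongr
      _ = 2 ^ n := by ring
  have hsum1' : 4 * ∑ b ∈ B1, 2 ^ (n - b.length) ≤ 2 ^ n := by exact_mod_cast hsum1
  have hsum2 : 4 * ∑ b ∈ B2, 2 ^ (n - b.length) < 2 ^ n := by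
    have h1 : ∑ b ∈ B2, 2 ^ (n - b.length) = B2.card := by
      rw [Finset.card_eq_sum_ones]
      apply Finset.sum_congr rfl
      intro b hb
      rw [(Finset.mem_filter.1 hb).2.1]; simp
    rw [h1]
    have h2 := hn0 n hn
    refine lt_of_le_of_lt ?_ h2
    calc 4 * B2.card ≤ 4 * (C * (2 * n + 2 * s + 1) ^ m) := Nat.mul_le_mul_left _ hB2
      _ ≤ 4 * (C * ((2 * s + 2) * (n + 1)) ^ m) := by
          gcongr
          nlinarith [Nat.zero_le (s * n)]
      _ = 4 * C * (2 * s + 2) ^ m * (n + 1) ^ m := by rw [mul_pow]; ring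
  obtain ⟨w, hw, hw2⟩ := kraft n (B1 ∪ B2) (by
    intro b hb
    rcases Finset.mem_union.1 hb with h | h
    · exact (hLL b).1 (Finset.mem_filter.1 h).1
    · exact (hLL b).1 (Finset.mem_filter.1 h).1) (by
    refine lt_of_le_of_lt (Finset.sum_union_inter (s₁ := B1) (s₂ := B2)
      (f := fun b : List (Fin 2) => 2 ^ (n - b.length)) ▸ Nat.le_add_right _ _) ?_
    have := Nat.two_pow_pos n
    omega)
  refine ⟨w, hw, ?_, ?_⟩
  · intro b hb hbE
    refine hw2 b (Finset.mem_union_left _ (Finset.mem_filter.2 ⟨?_, hbE⟩)) hb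
    rw [hLL, ← hw]
    exact hb.length_le
  · intro e he hk
    by_contra hc
    push Not at hc
    exact hw2 w (Finset.mem_union_right _ (Finset.mem_filter.2 ⟨(hLL w).2 hw.le, hw, e, he, hk, hc⟩))
      (List.prefix_refl w)

theorem geod {β : Type} [DecidableEq β] (P Q : FreeGroup β → Prop)
    (hstep : ∀ t s, s.norm = 1 → Q t → Q (t * s) → (P t ↔ P (t * s))) (y : FreeGroup β) (n : ℕ)
    (hQ : ∀ t, (y⁻¹ * t).norm ≤ n → Q t) :
    ∀ y', (y⁻¹ * y').norm ≤ n → (P y ↔ P y') := by
  have key : ∀ k, k ≤ n → ∀ y', (y⁻¹ * y').norm = k → (P y ↔ P y') := by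
    intro k
    induction k with
    | zero =>
      intro _ y' h
      have : y = y' := by
        rw [FreeGroup.norm_eq_zero] at h
        exact inv_mul_eq_one.1 h
      rw [this]
    | succ k ih =>
      intro hk y' h
      obtain ⟨s, g', hs, hg', he⟩ := norm_split' _ h
      have e1 : y' = y * g' * s := by
        rw [mul_assoc, ← he]; group
      have e2 : (y⁻¹ * (y * g')).norm = k := by
        rw [inv_mul_cancel_left]; exact hg'
      rw [ih (by omega) (y * g') e2, e1]
      apply hstep _ _ hs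
      · apply hQ; rw [e2]; omega
      · apply hQ; rw [← e1, h]; exact hk
  intro y' h
  exact key _ h y' rfl

theorem pw_single {β : Type} (x : β) : pw [x] = FreeGroup.of x := rfl

/-- the piece groups -/
abbrev Pc (d : ℕ) : Type := FreeGroup (Fin 2) × FreeGroup (Fin 2) × FreeGroup (Fin (d + 1))

/-- word length in a piece -/
def nm {d : ℕ} (o : Pc d) : ℕ := o.1.norm + o.2.1.norm + o.2.2.norm

theorem plemma (d C m : ℕ) : ∃ ρ : ℕ, ∀ E : Set (Pc d),
    Growth (fun u v : Pc d => nm (u⁻¹ * v)) E C m →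
    ∀ χ : Pc d → Prop, (∀ z s, nm s ≤ 1 → z ∉ E → z * s ∉ E → (χ z ↔ χ (z * s))) →
    ∀ u v, (∀ e ∈ E, ρ < nm (u⁻¹ * e)) → (∀ e ∈ E, ρ < nm (v⁻¹ * e)) → (χ u ↔ χ v) := by
  obtain ⟨ρ, hρ⟩ := good_word C m
  refine ⟨ρ, ?_⟩
  intro E hE χ hχ u v hu hv
  set s := nm (u⁻¹ * v) with hs
  obtain ⟨n, hn⟩ := hρ s
  obtain ⟨w, hw, hw1, hw2⟩ := hn n le_rfl (Pc d) (fun u v : Pc d => nm (u⁻¹ * v)) E u hE hu
    (fun b => (u.1 * pw b, u.2)) (fun e => e.1) u.1 (by
      intro b
      simp [nm, norm_pw]) (fun b => rfl)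
  obtain ⟨w', hw', hw1', hw2'⟩ := hn n le_rfl (Pc d) (fun u v : Pc d => nm (u⁻¹ * v)) E v hE hv
    (fun b => (v.1, v.2.1 * pw b, v.2.2)) (fun e => e.2.1) v.2.1 (by
      intro b
      simp [nm, norm_pw]) (fun b => rfl)
  have c1 : ∀ l, l <+: w → (χ u ↔ χ (u.1 * pw l, u.2)) := by
    intro l
    induction l using List.reverseRecOn with
    | nil => intro _; rw [pw_nil, mul_one]
    | append_singleton l x ih =>
      intro hl
      have hl' : l <+: w := (List.prefix_append l [x]).trans hl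
      rw [ih hl']
      have h1 := hχ (u.1 * pw l, u.2) (FreeGroup.of x, 1) (by simp [nm])
        (hw1 l hl') (by
          have := hw1 _ hl
          rw [pw_append, ← mul_assoc, pw_single] at this
          simpa using this)
      rw [h1, pw_append, ← mul_assoc]
      simp only [Prod.mk_mul_mk, mul_one]
      rfl
  have c2 : ∀ l, l <+: w' → (χ v ↔ χ (v.1, v.2.1 * pw l, v.2.2)) := by
    intro l
    induction l using List.reverseRecOn with
    | nil => intro _; rw [pw_nil, mul_one]
    | append_singleton l x ih =>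
      intro hl
      have hl' : l <+: w' := (List.prefix_append l [x]).trans hl
      rw [ih hl']
      have h1 := hχ (v.1, v.2.1 * pw l, v.2.2) (1, FreeGroup.of x, 1) (by simp [nm])
        (hw1' l hl') (by
          have := hw1' _ hl
          rw [pw_append, ← mul_assoc, pw_single] at this
          simpa using this)
      rw [h1, pw_append, ← mul_assoc]
      simp only [Prod.mk_mul_mk, mul_one]
      rfl
  set p := u.1 * pw w with hp
  set q := v.2.1 * pw w' with hq
  have hs1 : (u.1⁻¹ * v.1).norm ≤ s := by rw [hs]; simp [nm]; omega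
  have hs2 : (u.2.1⁻¹ * v.2.1).norm ≤ s := by rw [hs]; simp [nm]; omega
  have hs3 : (u.2.2⁻¹ * v.2.2).norm ≤ s := by rw [hs]; simp [nm]
  have hup : (u.1⁻¹ * p).norm = n := by
    rw [hp, inv_mul_cancel_left, norm_pw, hw]
  have hvq : (v.2.1⁻¹ * q).norm = n := by
    rw [hq, inv_mul_cancel_left, norm_pw, hw']
  have huq : (u.2.1⁻¹ * q).norm ≤ n + s := by
    have e : u.2.1⁻¹ * q = (u.2.1⁻¹ * v.2.1) * (v.2.1⁻¹ * q) := by group
    rw [e]
    refine (FreeGroup.norm_mul_le _ _).trans ?_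
    omega
  have hvp : (v.1⁻¹ * p).norm ≤ n + s := by
    have e : v.1⁻¹ * p = (u.1⁻¹ * v.1)⁻¹ * (u.1⁻¹ * p) := by group
    rw [e]
    refine (FreeGroup.norm_mul_le _ _).trans ?_
    rw [norm_inv_eq]
    omega
  -- segment (p, u₂, u₃) → (p, q, u₃)
  have s1 : χ (p, u.2.1, u.2.2) ↔ χ (p, q, u.2.2) := by
    apply geod (fun t => χ (p, t, u.2.2)) (fun t => (p, t, u.2.2) ∉ E) _ u.2.1 (n + s)
    · intro t ht he
      have := hw2 _ he rfl
      simp only [nm, Prod.fst_mul, Prod.snd_mul, Prod.fst_inv, Prod.snd_inv, inv_mul_cancel,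
        FreeGroup.norm_one] at this
      omega
    · exact huq
    · intro t s hs ht hts
      have := hχ (p, t, u.2.2) (1, s, 1) (by simp [nm, hs]) ht (by simpa using hts)
      simpa using this
  have s2 : χ (p, q, u.2.2) ↔ χ (p, q, v.2.2) := by
    apply geod (fun t => χ (p, q, t)) (fun t => (p, q, t) ∉ E) _ u.2.2 s
    · intro t ht he
      have := hw2 _ he rfl
      simp only [nm, Prod.fst_mul, Prod.snd_mul, Prod.fst_inv, Prod.snd_inv] at this
      omega
    · exact hs3
    · intro t s hs ht hts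
      have := hχ (p, q, t) (1, 1, s) (by simp [nm, hs]) ht (by simpa using hts)
      simpa using this
  have s3 : χ (v.1, q, v.2.2) ↔ χ (p, q, v.2.2) := by
    apply geod (fun t => χ (t, q, v.2.2)) (fun t => (t, q, v.2.2) ∉ E) _ v.1 (n + s)
    · intro t ht he
      have := hw2' _ he rfl
      simp only [nm, Prod.fst_mul, Prod.snd_mul, Prod.fst_inv, Prod.snd_inv, inv_mul_cancel,
        FreeGroup.norm_one] at this
      omega
    · exact hvp
    · intro t s hs ht hts
      have := hχ (t, q, v.2.2) (s, 1, 1) (by simp [nm, hs]) ht (by simpa using hts)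
      simpa using this
  rw [c1 w (List.prefix_refl w), c2 w' (List.prefix_refl w'), ← hq, s3, ← s2, ← s1]

end Pool.Agent.H536R3
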