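import Pool.Agent.H536R3.Piece

set_option autoImplicit false
set_option linter.unusedSectionVars false
set_option linter.unusedSimpArgs false

/-! Norm facts for the pieces, the central `ℤ³` and the retraction. -/

namespace Pool.Agent.H536R3

open FreeGroup

theorem nm_one {d : ℕ} : nm (1 : Pc d) = 0 := by simp [nm]

theorem nm_inv {d : ℕ} (o : Pc d) : nm o⁻¹ = nm o := by simp [nm]

theorem nm_mul {d : ℕ} (o o' : Pc d) : nm (o * o') ≤ nm o + nm o' := by
  have h1 := FreeGroup.norm_mul_le o.1 o'.1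
  have h2 := FreeGroup.norm_mul_le o.2.1 o'.2.1
  have h3 := FreeGroup.norm_mul_le o.2.2 o'.2.2
  simp only [nm, Prod.fst_mul, Prod.snd_mul]
  omega

theorem nm_eq_zero {d : ℕ} {o : Pc d} (h : nm o = 0) : o = 1 := by
  unfold nm at h
  have h1 : o.1 = 1 := FreeGroup.norm_eq_zero.1 (by omega)
  have h2 : o.2.1 = 1 := FreeGroup.norm_eq_zero.1 (by omega)
  have h3 : o.2.2 = 1 := FreeGroup.norm_eq_zero.1 (by omega)
  exact Prod.ext h1 (Prod.ext h2 h3)

theorem nm_split {d : ℕ} (o : Pc d) {n : ℕ} (h : nm o = n + 1) :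
    ∃ o' s : Pc d, nm o' = n ∧ nm s = 1 ∧ o = o' * s := by
  obtain ⟨o1, o2, o3⟩ := o
  simp only [nm] at h
  by_cases h1 : o1.norm = 0
  · by_cases h2 : o2.norm = 0
    · obtain ⟨s, g', hs, hg', rfl⟩ := norm_split' o3 (n := n) (by omega)
      refine ⟨(o1, o2, g'), (1, 1, s), ?_, ?_, ?_⟩
      · simp only [nm]; omega
      · simp [nm, hs]
      · simp
    · obtain ⟨m, hm⟩ := Nat.exists_eq_succ_of_ne_zero h2
      obtain ⟨s, g', hs, hg', rfl⟩ := norm_split' o2 hm
      refine ⟨(o1, g', o3), (1, s, 1), ?_, ?_, ?_⟩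
      · simp only [nm]; omega
      · simp [nm, hs]
      · simp
  · obtain ⟨m, hm⟩ := Nat.exists_eq_succ_of_ne_zero h1
    obtain ⟨s, g', hs, hg', rfl⟩ := norm_split' o1 hm
    refine ⟨(g', o2, o3), (s, 1, 1), ?_, ?_, ?_⟩
    · simp only [nm]; omega
    · simp [nm, hs]
    · simp

/-- the group `ℤ³` -/
abbrev AA : Type := Multiplicative ℤ × Multiplicative ℤ × Multiplicative ℤ

/-- `ℓ¹` norm -/
def an (a : AA) : ℕ := a.1.toAdd.natAbs + a.2.1.toAdd.natAbs + a.2.2.toAdd.natAbs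

/-- the embedding of `ℤ³` in a piece -/
def phi (d : ℕ) : AA →* Pc d :=
  (zpowersHom (FreeGroup (Fin 2)) (FreeGroup.of 0)).prodMap
    ((zpowersHom (FreeGroup (Fin 2)) (FreeGroup.of 0)).prodMap
      (zpowersHom (FreeGroup (Fin (d + 1))) (FreeGroup.of 0)))

/-- the retraction of a piece to `ℤ³` -/
def rt (d : ℕ) : Pc d →* AA := (ret 0).prodMap ((ret 0).prodMap (ret 0))

theorem phi_apply (d : ℕ) (a : AA) : phi d a =
    ((FreeGroup.of 0) ^ a.1.toAdd, (FreeGroup.of 0) ^ a.2.1.toAdd,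
      (FreeGroup.of 0) ^ a.2.2.toAdd) := rfl

theorem rt_phi (d : ℕ) (a : AA) : rt d (phi d a) = a := by
  rw [phi_apply]
  refine Prod.ext ?_ (Prod.ext ?_ ?_)
  · exact Multiplicative.toAdd.injective (ret_zpow 0 _)
  · exact Multiplicative.toAdd.injective (ret_zpow 0 _)
  · exact Multiplicative.toAdd.injective (ret_zpow 0 _)

theorem phi_injective (d : ℕ) : Function.Injective (phi d) := by
  intro a b h
  have := congrArg (rt d) h
  rwa [rt_phi, rt_phi] at this

theorem an_rt {d : ℕ} (o : Pc d) : an (rt d o) ≤ nm o := by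
  have h1 := abs_le.1 (ret_bd (0 : Fin 2) _ o.1 rfl)
  have h2 := abs_le.1 (ret_bd (0 : Fin 2) _ o.2.1 rfl)
  have h3 := abs_le.1 (ret_bd (0 : Fin (d + 1)) _ o.2.2 rfl)
  simp only [an, nm, rt, MonoidHom.coe_prodMap, Prod.map_fst, Prod.map_snd]
  omega

theorem norm_zpow_le {β : Type} [DecidableEq β] (x : β) (i : ℤ) :
    ((FreeGroup.of x) ^ i).norm ≤ i.natAbs := by
  obtain ⟨n, rfl | rfl⟩ := Int.eq_nat_or_neg i
  · rw [zpow_natCast, norm_of_pow]; simp
  · rw [zpow_neg, zpow_natCast, norm_inv_eq, norm_of_pow]; simp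

theorem nm_phi {d : ℕ} (a : AA) : nm (phi d a) ≤ an a := by
  rw [phi_apply]
  simp only [nm, an]
  have h1 := norm_zpow_le (0 : Fin 2) a.1.toAdd
  have h2 := norm_zpow_le (0 : Fin 2) a.2.1.toAdd
  have h3 := norm_zpow_le (0 : Fin (d + 1)) a.2.2.toAdd
  omega

theorem an_one : an 1 = 0 := by simp [an]

theorem an_mul (a b : AA) : an (a * b) ≤ an a + an b := by
  simp only [an, Prod.fst_mul, Prod.snd_mul, toAdd_mul]
  omega

theorem an_inv (a : AA) : an a⁻¹ = an a := by simp [an]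

theorem mem_phi_range {d : ℕ} (o : Pc d) : o ∈ (phi d).range ↔
    o.1 ∈ Subgroup.zpowers (FreeGroup.of (0 : Fin 2)) ∧
    o.2.1 ∈ Subgroup.zpowers (FreeGroup.of (0 : Fin 2)) ∧
    o.2.2 ∈ Subgroup.zpowers (FreeGroup.of (0 : Fin (d + 1))) := by
  constructor
  · rintro ⟨a, rfl⟩
    rw [phi_apply]
    exact ⟨⟨_, rfl⟩, ⟨_, rfl⟩, ⟨_, rfl⟩⟩
  · rintro ⟨⟨i, hi⟩, ⟨j, hj⟩, ⟨k, hk⟩⟩
    refine MonoidHom.mem_range.2 ⟨(Multiplicative.ofAdd i, Multiplicative.ofAdd j,
      Multiplicative.ofAdd k), ?_⟩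
    rw [phi_apply]
    exact Prod.ext hi (Prod.ext hj hk)

/-- the three coordinates of `ℤ³` -/
def co (a : AA) (c : Fin 3) : ℤ :=
  match c with
  | 0 => a.1.toAdd
  | 1 => a.2.1.toAdd
  | 2 => a.2.2.toAdd

theorem co_bd (a : AA) (c : Fin 3) : |co a c| ≤ an a := by
  rw [abs_le]
  fin_cases c <;> simp only [co, an] <;> constructor <;> omega

theorem co_mul (a b : AA) (c : Fin 3) : co (a * b) c = co a c + co b c := by
  fin_cases c <;> simp [co]

theorem co_inv (a : AA) (c : Fin 3) : co a⁻¹ c = - co a c := by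
  fin_cases c <;> simp [co]

theorem co_ext {a b : AA} (h : ∀ c, co a c = co b c) : a = b :=
  Prod.ext (Multiplicative.toAdd.injective (h 0))
    (Prod.ext (Multiplicative.toAdd.injective (h 1)) (Multiplicative.toAdd.injective (h 2)))

/-- the coset `o ℤ³` is different from `ℤ³` in coordinate `c` -/
def off {d : ℕ} (o : Pc d) (c : Fin 3) : Prop :=
  match c with
  | 0 => o.1 ∉ Subgroup.zpowers (FreeGroup.of (0 : Fin 2))
  | 1 => o.2.1 ∉ Subgroup.zpowers (FreeGroup.of (0 : Fin 2))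
  | 2 => o.2.2 ∉ Subgroup.zpowers (FreeGroup.of (0 : Fin (d + 1)))

theorem exists_off {d : ℕ} {o : Pc d} (h : o ∉ (phi d).range) : ∃ c, off o c := by
  rw [mem_phi_range] at h
  by_contra hc
  push Not at hc
  exact h ⟨not_not.1 (hc 0), not_not.1 (hc 1), not_not.1 (hc 2)⟩

/-- control of a coordinate of points of `ℤ³` close to a different coset -/
theorem off_bd {d : ℕ} {o : Pc d} {c : Fin 3} (h : off o c) :
    ∃ p : ℤ, ∀ a b : AA, |co a c - p| ≤ nm ((phi d a)⁻¹ * o * phi d b) := by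
  fin_cases c
  · refine ⟨- ex 0 o.1⁻¹, fun a b => ?_⟩
    have h1 := axis_bd (0 : Fin 2) o.1 h a.1.toAdd b.1.toAdd
    simp only [phi_apply, co, nm, Prod.fst_mul, Prod.snd_mul, Prod.fst_inv, Prod.snd_inv,
      Fin.zero_eta, Fin.isValue, sub_neg_eq_add]
    rw [zpow_neg] at h1
    omega
  · refine ⟨- ex 0 o.2.1⁻¹, fun a b => ?_⟩
    have h1 := axis_bd (0 : Fin 2) o.2.1 h a.2.1.toAdd b.2.1.toAdd
    simp only [phi_apply, co, nm, Prod.fst_mul, Prod.snd_mul, Prod.fst_inv, Prod.snd_inv,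
      Fin.mk_one, Fin.isValue, sub_neg_eq_add]
    rw [zpow_neg] at h1
    omega
  · refine ⟨- ex 0 o.2.2⁻¹, fun a b => ?_⟩
    have h1 := axis_bd (0 : Fin (d + 1)) o.2.2 h a.2.2.toAdd b.2.2.toAdd
    simp only [phi_apply, co, nm, Prod.fst_mul, Prod.snd_mul, Prod.fst_inv, Prod.snd_inv,
      Fin.reduceFinMk, Fin.isValue, sub_neg_eq_add]
    rw [zpow_neg] at h1
    omega

theorem off_word {d : ℕ} (hd : d = 1) : ∃ o : Pc d, ∀ c, off o c := by
  subst hd
  have h : FreeGroup.of (1 : Fin 2) ∉ Subgroup.zpowers (FreeGroup.of (0 : Fin 2)) := by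
    rintro ⟨i, hi⟩
    have h1 : (ret (1 : Fin 2) (FreeGroup.of (1 : Fin 2))).toAdd = 1 := by
      simp [ret]
    have h2 : (ret (1 : Fin 2) (FreeGroup.of (0 : Fin 2))).toAdd = 0 := by
      simp [ret]
    have h3 := congrArg (fun g => (ret (1 : Fin 2) g).toAdd) hi
    simp only [_root_.map_zpow, toAdd_zpow, h1, h2] at h3
    simp at h3
  refine ⟨(FreeGroup.of 1, FreeGroup.of 1, FreeGroup.of 1), ?_⟩
  intro c
  fin_cases c <;> exact h

/-- in the pieces `F₂ × F₂ × ℤ` the third factor of `ℤ³` is central -/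
theorem central_zero {d : ℕ} (hd : d = 0) (i : ℤ) (o : Pc d) :
    phi d (1, 1, Multiplicative.ofAdd i) * o = o * phi d (1, 1, Multiplicative.ofAdd i) := by
  subst hd
  rw [phi_apply]
  refine Prod.ext ?_ (Prod.ext ?_ ?_)
  · simp
  · simp
  · simp only [Prod.snd_mul, toAdd_ofAdd]
    have h : ∀ g : FreeGroup (Fin 1), g ∈ Subgroup.zpowers (FreeGroup.of (0 : Fin 1)) := by
      intro g
      rw [← mk_toWord (x := g)]
      exact mem_zpowers_of_word 0 _ fun y _ => Subsingleton.elim _ _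
    obtain ⟨j, hj⟩ := h o.2.2
    simp only at hj
    rw [← hj]
    exact (Commute.zpow_zpow_self _ _ _)

/-- finitely many letters -/
theorem letters {d : ℕ} (s : Finset (Pc d)) (h : ∀ o ∈ s, nm o = 1) : s.card ≤ 10 + 2 * d := by
  classical
  let T : Finset (Pc d) :=
    ((Finset.univ : Finset (Fin 2 × Bool)).image fun x => (FreeGroup.mk [x], 1, 1)) ∪
    (((Finset.univ : Finset (Fin 2 × Bool)).image fun x => (1, FreeGroup.mk [x], 1)) ∪
    ((Finset.univ : Finset (Fin (d + 1) × Bool)).image fun x => (1, 1, FreeGroup.mk [x])))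
  have hT : T.card ≤ 10 + 2 * d := by
    refine (Finset.card_union_le _ _).trans ?_
    have h1 := Finset.card_image_le (s := (Finset.univ : Finset (Fin 2 × Bool)))
      (f := fun x => ((FreeGroup.mk [x], 1, 1) : Pc d))
    have h2 := Finset.card_union_le
      ((Finset.univ : Finset (Fin 2 × Bool)).image fun x => ((1, FreeGroup.mk [x], 1) : Pc d))
      ((Finset.univ : Finset (Fin (d + 1) × Bool)).image fun x => ((1, 1, FreeGroup.mk [x]) : Pc d))
    have h3 := Finset.card_image_le (s := (Finset.univ : Finset (Fin 2 × Bool)))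
      (f := fun x => ((1, FreeGroup.mk [x], 1) : Pc d))
    have h4 := Finset.card_image_le (s := (Finset.univ : Finset (Fin (d + 1) × Bool)))
      (f := fun x => ((1, 1, FreeGroup.mk [x]) : Pc d))
    simp only [Finset.card_univ, Fintype.card_prod, Fintype.card_fin, Fintype.card_bool] at h1 h3 h4
    omega
  refine le_trans (Finset.card_le_card ?_) hT
  intro o ho
  have h1 := h o ho
  obtain ⟨o1, o2, o3⟩ := o
  simp only [nm] at h1
  have hz : ∀ {β : Type} [DecidableEq β] {g : FreeGroup β}, g.norm = 0 → g = 1 :=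
    fun hg => FreeGroup.norm_eq_zero.1 hg
  rw [Finset.mem_union, Finset.mem_union, Finset.mem_image, Finset.mem_image, Finset.mem_image]
  rcases Nat.eq_zero_or_pos o1.norm with h2 | h2
  · rcases Nat.eq_zero_or_pos o2.norm with h3 | h3
    · right; right
      obtain ⟨x, hx⟩ := norm_one_iff o3 (by omega)
      exact ⟨x, Finset.mem_univ _, by rw [hz h2, hz h3, hx]⟩
    · right; left
      obtain ⟨x, hx⟩ := norm_one_iff o2 (by omega)
      exact ⟨x, Finset.mem_univ _, by rw [hz h2, hz (g := o3) (by omega), hx]⟩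
  · left
    obtain ⟨x, hx⟩ := norm_one_iff o1 (by omega)
    exact ⟨x, Finset.mem_univ _, by rw [hz (g := o2) (by omega), hz (g := o3) (by omega), hx]⟩

/-- transport between equal pieces -/
def pcCast {a b : ℕ} (h : a = b) : Pc a →* Pc b := by
  subst h; exact MonoidHom.id _

theorem nm_pcCast {a b : ℕ} (h : a = b) (o : Pc a) : nm (pcCast h o) = nm o := by
  subst h; rfl

theorem pcCast_phi {a b : ℕ} (h : a = b) (x : AA) : pcCast h (phi a x) = phi b x := by
  subst h; rfl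

theorem pcCast_self {a : ℕ} (h : a = a) (o : Pc a) : pcCast h o = o := rfl

theorem pcCast_cast {a b : ℕ} (h : a = b) (h' : b = a) (o : Pc a) :
    pcCast h' (pcCast h o) = o := by
  subst h; rfl

end Pool.Agent.H536R3
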