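import Pool.Agent.H536R3.Graph

set_option autoImplicit false
set_option linter.unusedSectionVars false

/-! Quasi-isometrically embedded pieces are close to pieces. -/

namespace Pool.Agent.H536R3

open Monoid Monoid.PushoutI

theorem growth_of_map {α β : Type} {da : α → α → ℕ} {db : β → β → ℕ} {S : Set β} {T : Set α}
    {C m M L : ℕ} (π : α → β)
    (hfib : ∀ t : Finset α, (∀ a ∈ t, a ∈ T) → (∀ a ∈ t, ∀ a' ∈ t, π a = π a') → t.card ≤ M)
    (hS : ∀ a ∈ T, π a ∈ S)
    (hd : ∀ x, ∃ y, ∀ a ∈ T, ∀ r, da x a ≤ r → db y (π a) ≤ L * (r + 1))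
    (hG : Growth db S C m) : Growth da T (M * (C * (L + 1) ^ m)) m := by
  classical
  intro x r t ht
  obtain ⟨y, hy⟩ := hd x
  have h1 : t.card ≤ M * (t.image π).card := by
    apply Finset.card_le_mul_card_image
    intro z hz
    apply hfib
    · intro a ha
      exact (ht a (Finset.mem_filter.1 ha).1).1
    · intro a ha a' ha'
      rw [(Finset.mem_filter.1 ha).2, (Finset.mem_filter.1 ha').2]
  have h2 : (t.image π).card ≤ C * (L * (r + 1) + 1) ^ m := by
    apply hG y
    intro z hz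
    obtain ⟨a, ha, rfl⟩ := Finset.mem_image.1 hz
    exact ⟨hS a (ht a ha).1, hy a (ht a ha).1 r (ht a ha).2⟩
  calc t.card ≤ M * (t.image π).card := h1
    _ ≤ M * (C * (L * (r + 1) + 1) ^ m) := Nat.mul_le_mul_left _ h2
    _ ≤ M * (C * ((L + 1) * (r + 1)) ^ m) := by
        gcongr
        nlinarith [Nat.zero_le r]
    _ = M * (C * (L + 1) ^ m) * (r + 1) ^ m := by rw [mul_pow]; ring

theorem box (t : Finset AA) (q : Fin 3 → ℤ) (w : Fin 3 → ℕ)
    (h : ∀ a ∈ t, ∀ c, |co a c - q c| ≤ w c) :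
    t.card ≤ (2 * w 0 + 1) * ((2 * w 1 + 1) * (2 * w 2 + 1)) := by
  classical
  let I : Fin 3 → Finset ℤ := fun c => Finset.Icc (q c - w c) (q c + w c)
  have hI : ∀ c, (I c).card = 2 * w c + 1 := by
    intro c
    simp only [I, Int.card_Icc]
    omega
  have h1 : t.card ≤ ((I 0) ×ˢ ((I 1) ×ˢ (I 2))).card := by
    apply Finset.card_le_card_of_injOn (fun a => (co a 0, co a 1, co a 2))
    · intro a ha
      have h2 := fun c => abs_le.1 (h a ha c)
      simp only [I, Finset.coe_product, Set.mem_prod, Finset.coe_Icc, Set.mem_Icc]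
      have h30 := h2 0
      have h31 := h2 1
      have h32 := h2 2
      refine ⟨⟨?_, ?_⟩, ⟨?_, ?_⟩, ⟨?_, ?_⟩⟩ <;> linarith
    · intro a _ b _ hab
      simp only [Prod.mk.injEq] at hab
      apply co_ext
      intro c
      fin_cases c
      · exact hab.1
      · exact hab.2.1
      · exact hab.2.2
  rw [Finset.card_product, Finset.card_product, hI, hI, hI] at h1
  exact h1

variable (s : ℤ → ℕ)

theorem growth_FL (k : KK s) (n : ℤ) : Growth (dX s) (FL s k n) 8 3 := by
  classical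
  intro x r t ht
  rw [← Finset.card_image_of_injOn (s := t) (f := fun y => rho s y.1)]
  · refine (box (t.image fun y => rho s y.1) (fun c => co (rho s x.1) c) (fun _ => r) ?_).trans ?_
    · intro a ha c
      obtain ⟨y, hy, rfl⟩ := Finset.mem_image.1 ha
      have h1 := (rho_lip s x y).trans (ht y hy).2
      have h2 := co_bd ((rho s x.1)⁻¹ * rho s y.1) c
      rw [co_mul, co_inv] at h2
      have h3 : co (rho s y.1) c - co (rho s x.1) c = - co (rho s x.1) c + co (rho s y.1) c := by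
        ring
      rw [h3]
      exact h2.trans (by exact_mod_cast h1)
    · have : (2 * r + 1) ≤ 2 * (r + 1) := by omega
      calc (2 * r + 1) * ((2 * r + 1) * (2 * r + 1))
          ≤ (2 * (r + 1)) * ((2 * (r + 1)) * (2 * (r + 1))) := by gcongr
        _ = 8 * (r + 1) ^ 3 := by ring
  · intro y hy y' hy' h
    obtain ⟨a, rfl⟩ := (ht y hy).1
    obtain ⟨a', rfl⟩ := (ht y' hy').1
    simp only [_root_.map_mul, rho_bb] at h
    rw [mul_left_cancel h]

/-- the slab over a coset of `ℤ³` -/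
def DD (k : KK s) : Set (KK s × ℤ) := {x | ∃ a m, x = (k * bb s a, m)}

theorem growth_DD (k : KK s) : Growth (dX s) (DD s k) 16 4 := by
  classical
  intro x r t ht
  have h1 : t.card ≤ (2 * r + 1) * (t.image fun y => rho s y.1).card := by
    apply Finset.card_le_mul_card_image
    intro z hz
    have h2 : (t.filter fun y => rho s y.1 = z).card ≤
        (Finset.Icc (x.2 - r) (x.2 + r)).card := by
      apply Finset.card_le_card_of_injOn (fun y => y.2)
      · intro y hy
        have hy' := Finset.mem_filter.1 hy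
        have h3 := (level_lip s x y).trans (ht y hy'.1).2
        simp only [Finset.coe_Icc, Set.mem_Icc]
        constructor <;> omega
      · intro y hy y' hy' h
        have hy1 := Finset.mem_filter.1 hy
        have hy2 := Finset.mem_filter.1 hy'
        obtain ⟨a, m, rfl⟩ := (ht y hy1.1).1
        obtain ⟨a', m', rfl⟩ := (ht y' hy2.1).1
        have h4 := hy1.2.trans hy2.2.symm
        simp only [_root_.map_mul, rho_bb] at h4
        simp only at h
        rw [mul_left_cancel h4, h]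
    refine h2.trans ?_
    rw [Int.card_Icc]; omega
  have h2 : (t.image fun y => rho s y.1).card ≤ (2 * r + 1) * ((2 * r + 1) * (2 * r + 1)) := by
    apply box (t.image fun y => rho s y.1) (fun c => co (rho s x.1) c) (fun _ => r)
    intro a ha c
    obtain ⟨y, hy, rfl⟩ := Finset.mem_image.1 ha
    have h1 := (rho_lip s x y).trans (ht y hy).2
    have h2 := co_bd ((rho s x.1)⁻¹ * rho s y.1) c
    rw [co_mul, co_inv] at h2
    have h3 : co (rho s y.1) c - co (rho s x.1) c = - co (rho s x.1) c + co (rho s y.1) c := by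
      ring
    rw [h3]
    exact h2.trans (by exact_mod_cast h1)
  have h3 : (2 * r + 1) ≤ 2 * (r + 1) := by omega
  calc t.card ≤ (2 * r + 1) * ((2 * r + 1) * ((2 * r + 1) * (2 * r + 1))) :=
        h1.trans (Nat.mul_le_mul_left _ h2)
    _ ≤ (2 * (r + 1)) * ((2 * (r + 1)) * ((2 * (r + 1)) * (2 * (r + 1)))) := by gcongr
    _ = 16 * (r + 1) ^ 4 := by ring

/-- neighbourhoods -/
def NB (R : ℕ) (S : Set (KK s × ℤ)) : Set (KK s × ℤ) := {x | ∃ y ∈ S, dX s x y ≤ R}

theorem NB_mono {R R' : ℕ} (h : R ≤ R') {S S' : Set (KK s × ℤ)} (hS : S ⊆ S') :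
    NB s R S ⊆ NB s R' S' := by
  rintro x ⟨y, hy, hxy⟩
  exact ⟨y, hS hy, hxy.trans h⟩

variable {s}

theorem growth_NB (hs : ∀ n, s n ≤ 1) {S : Set (KK s × ℤ)} {C m : ℕ}
    (hG : Growth (dX s) S C m) (R : ℕ) :
    Growth (dX s) (NB s R S) (15 ^ R * (C * (R + 1 + 1) ^ m)) m := by
  classical
  have hch : ∀ x, ∃ y, x ∈ NB s R S → y ∈ S ∧ dX s x y ≤ R := by
    intro x
    by_cases hx : x ∈ NB s R S
    · obtain ⟨y, hy⟩ := hx
      exact ⟨y, fun _ => hy⟩
    · exact ⟨x, fun h => absurd h hx⟩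
  choose π hπ using hch
  refine growth_of_map π ?_ (fun a ha => (hπ a ha).1) ?_ hG
  · intro t ht ht2
    rcases t.eq_empty_or_nonempty with rfl | ⟨a, ha⟩
    · simp
    · apply ballX s hs R (π a)
      intro y hy
      rw [ht2 a ha y hy, dX_comm]
      exact (hπ y (ht y hy)).2
  · intro x
    refine ⟨x, fun a ha r hr => ?_⟩
    have h1 := (hπ a ha).2
    have h2 := dX_tri s x a (π a)
    nlinarith [Nat.zero_le (R * r)]

theorem ballP {d : ℕ} (hd : d ≤ 1) (r : ℕ) (u : Pc d) (t : Finset (Pc d))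
    (ht : ∀ v ∈ t, nm (u⁻¹ * v) ≤ r) : t.card ≤ 15 ^ r := by
  classical
  let c : ℤ → ℕ := fun _ => d
  let f : Pc d → KK c × ℤ := fun v => (io c 0 v, 0)
  have hf : Function.Injective f := by
    intro a b h
    exact of_injective (phi_inj c) 0 (Prod.mk.inj h).1
  rw [← Finset.card_image_of_injective t hf]
  apply ballX c (fun _ => hd) r (f u)
  intro y hy
  obtain ⟨v, hv, rfl⟩ := Finset.mem_image.1 hy
  have := dX_piece c 1 0 u v
  rw [one_mul, one_mul] at this
  change dX c (io c 0 u, 0) (io c 0 v, 0) ≤ r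
  rw [this]
  exact ht v hv

theorem exp_growth (d C m : ℕ) : ¬ Growth (fun u v : Pc d => nm (u⁻¹ * v)) Set.univ C m := by
  classical
  intro h
  obtain ⟨n, hn⟩ := poly_lt_exp C m
  have h1 := hn n le_rfl
  let f : (Fin n → Fin 2) → Pc d := fun w => (pw (List.ofFn w), 1, 1)
  have hf : Function.Injective f := by
    intro a b hab
    have := pw_injective (Prod.mk.inj hab).1
    exact List.ofFn_injective this
  have h2 := h 1 n (Finset.univ.image f) (by
    intro y hy
    obtain ⟨w, _, rfl⟩ := Finset.mem_image.1 hy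
    refine ⟨Set.mem_univ _, ?_⟩
    simp [f, nm, norm_pw])
  rw [Finset.card_image_of_injective _ hf, Finset.card_univ, Fintype.card_fun, Fintype.card_fin,
    Fintype.card_fin] at h2
  omega

/-- pull-back of growth bounds to a piece -/
theorem growth_pull (hs : ∀ n, s n ≤ 1) {d : ℕ} (hd : d ≤ 1) {K C : ℕ} (g : Pc d → KK s × ℤ)
    (hu : ∀ u v, dX s (g u) (g v) ≤ K * nm (u⁻¹ * v) + C)
    (hl : ∀ u v, nm (u⁻¹ * v) ≤ K * dX s (g u) (g v) + C) {S : Set (KK s × ℤ)} {C' m : ℕ}
    (hG : Growth (dX s) S C' m) :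
    Growth (fun u v : Pc d => nm (u⁻¹ * v)) {u | g u ∈ S} (15 ^ C * (C' * (K + C + 1) ^ m)) m := by
  classical
  refine growth_of_map g ?_ (fun a ha => ha) ?_ hG
  · intro t _ ht2
    rcases t.eq_empty_or_nonempty with rfl | ⟨a, ha⟩
    · simp
    · apply ballP hd C a
      intro y hy
      have h1 := hl a y
      rw [ht2 a ha y hy, dX_self] at h1
      omega
  · intro u
    refine ⟨g u, fun a _ r hr => ?_⟩
    have h1 := hu u a
    nlinarith [Nat.mul_le_mul_left K hr, Nat.zero_le (C * r)]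

theorem no_poly (hs : ∀ n, s n ≤ 1) {d : ℕ} (hd : d ≤ 1) {K C : ℕ} (g : Pc d → KK s × ℤ)
    (hu : ∀ u v, dX s (g u) (g v) ≤ K * nm (u⁻¹ * v) + C)
    (hl : ∀ u v, nm (u⁻¹ * v) ≤ K * dX s (g u) (g v) + C) {S : Set (KK s × ℤ)} {C' m : ℕ}
    (hG : Growth (dX s) S C' m) : ¬ ∀ u, g u ∈ S := by
  intro h
  have h1 := growth_pull hs hd g hu hl hG
  apply exp_growth d _ m (h1.mono _)
  intro u _
  exact h u

theorem UU_base (k : KK s) (n : ℤ) (a : AA) : UU s (k * bb s a) n = UU s k n := by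
  ext x
  unfold UU
  simp only [Set.mem_ofPred_eq]
  rw [mul_inv_rev, ← _root_.map_inv, mul_assoc, fl_base_mul]

theorem FL_base (k : KK s) (n : ℤ) (a : AA) : FL s (k * bb s a) n = FL s k n := by
  ext x
  constructor
  · rintro ⟨b, rfl⟩
    exact ⟨a * b, by rw [_root_.map_mul, mul_assoc]⟩
  · rintro ⟨b, rfl⟩
    exact ⟨a⁻¹ * b, by rw [_root_.map_mul, mul_assoc, ← mul_assoc (bb s a), _root_.map_inv]; simp⟩

theorem Rone (hs : ∀ n, s n ≤ 1) (d : ℕ) (hd : d ≤ 1) (K C : ℕ) :
    ∃ M : ℕ, ∀ g : Pc d → KK s × ℤ,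
      (∀ u v, dX s (g u) (g v) ≤ K * nm (u⁻¹ * v) + C) →
      (∀ u v, nm (u⁻¹ * v) ≤ K * dX s (g u) (g v) + C) →
      ∃ k n, ∀ u, ∃ y ∈ OB s k n, dX s (g u) y ≤ M := by
  classical
  obtain ⟨ρ, hρ⟩ := plemma d (15 ^ C * (15 ^ (K + C) * (8 * (K + C + 1 + 1) ^ 3) * (K + C + 1) ^ 3)) 3
  refine ⟨K * ρ + C + (K + C), ?_⟩
  intro g hu hl
  set M := K * ρ + C + (K + C) with hM
  let E : KK s → ℤ → Set (Pc d) := fun k n => {u | g u ∈ NB s (K + C) (FL s k n)}
  have hE : ∀ k n, Growth (fun u v : Pc d => nm (u⁻¹ * v)) (E k n)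
      (15 ^ C * (15 ^ (K + C) * (8 * (K + C + 1 + 1) ^ 3) * (K + C + 1) ^ 3)) 3 := fun k n =>
    growth_pull hs hd g hu hl (growth_NB hs (growth_FL s k n) (K + C))
  let deep : KK s → ℤ → Pc d → Prop := fun k n u => ∀ e ∈ E k n, ρ < nm (u⁻¹ * e)
  have hside : ∀ k n u v, deep k n u → deep k n v → (g u ∈ UU s k n ↔ g v ∈ UU s k n) := by
    intro k n u v h1 h2
    refine hρ (E k n) (hE k n) (fun u => g u ∈ UU s k n) ?_ u v h1 h2
    intro z t ht hz hzt
    have hdist : dX s (g z) (g (z * t)) ≤ K + C := by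
      refine (hu z (z * t)).trans ?_
      rw [inv_mul_cancel_left]
      nlinarith
    by_contra hc
    apply hz
    rcases not_iff.1 hc with hc'
    by_cases hzU : g z ∈ UU s k n
    · have : g (z * t) ∉ UU s k n := fun h => hc'.2 h hzU
      obtain ⟨y, hy, hyd⟩ := cross s k n hzU this
      exact ⟨y, hy, by omega⟩
    · have : g (z * t) ∈ UU s k n := hc'.1 hzU
      obtain ⟨y, hy, hyd⟩ := cross' s k n hzU this
      exact ⟨y, hy, by omega⟩
  have hnd : ∀ k n u, ¬ deep k n u → ∃ y ∈ FL s k n, dX s (g u) y ≤ M := by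
    intro k n u h
    simp only [deep] at h
    push Not at h
    obtain ⟨e, ⟨y, hy, hyd⟩, he⟩ := h
    refine ⟨y, hy, ?_⟩
    have h1 := hu u e
    have h2 := dX_tri s (g u) (g e) y
    have h3 : K * nm (u⁻¹ * e) ≤ K * ρ := Nat.mul_le_mul_left _ he
    omega
  let sideU : KK s → ℤ → Prop := fun k n => ∃ u, deep k n u ∧ g u ∈ UU s k n
  -- slabs are not sinks
  have hDsink : ∀ k, ∃ n, sideU k n := by
    intro k
    by_contra hc
    push Not at hc
    apply no_poly hs hd g hu hl (growth_NB hs (growth_DD s k) M)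
    intro u
    rcases hfl : fl (tr s) (k⁻¹ * (g u).1) with _ | n
    · obtain ⟨a, ha⟩ := fl_none (tr s) hfl
      refine ⟨g u, ⟨a, (g u).2, ?_⟩, by rw [dX_self]; omega⟩
      rw [← ha, mul_inv_cancel_left]
    · have h1 : ¬ deep k n u := fun h => hc n ⟨u, h, hfl⟩
      obtain ⟨y, ⟨a, rfl⟩, hy⟩ := hnd k n u h1
      exact ⟨_, ⟨a, n, rfl⟩, hy⟩
  by_contra hno
  push Not at hno
  -- pieces are not sinks
  have hPsink : ∀ k n, ∃ o : Pc (s n), ¬ sideU (k * io s n o) n := by
    intro k n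
    by_contra hc
    push Not at hc
    obtain ⟨u, hu2⟩ := hno k n
    have hcl : ∃ o : Pc (s n), g u ∉ UU s (k * io s n o) n := by
      by_cases h1 : g u ∈ UU s k n
      · obtain ⟨v, g', hv, hg', he⟩ := fl_some (tr s) (show fl (tr s) (k⁻¹ * (g u).1) = some n from h1)
        refine ⟨v, fun h2 => hg' ?_⟩
        have h3 : fl (tr s) ((k * io s n v)⁻¹ * (g u).1) = some n := h2
        rw [mul_inv_rev, mul_assoc, he, inv_mul_cancel_left] at h3
        exact h3
      · exact ⟨1, by rw [_root_.map_one, mul_one]; exact h1⟩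
    obtain ⟨o, ho⟩ := hcl
    obtain ⟨v, hv1, hv2⟩ := hc o
    have h1 : ¬ deep (k * io s n o) n u := fun h => ho ((hside _ _ u v h hv1).2 hv2)
    obtain ⟨y, ⟨a, rfl⟩, hy⟩ := hnd _ _ _ h1
    have h2 := hu2 (k * io s n o * bb s a, n) ⟨o * phi (s n) a, by
      rw [_root_.map_mul, io_phi, mul_assoc]⟩
    omega
  set x0 := g 1 with hx0
  have hQ : ∀ j : ℕ, ∃ k n, sideU k n ∧ x0 ∉ UU s k n ∧ ∀ z ∈ FL s k n, j ≤ dX s x0 z := by
    intro j
    induction j with
    | zero =>
      obtain ⟨n, hn⟩ := hDsink x0.1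
      refine ⟨x0.1, n, hn, ?_, fun _ _ => Nat.zero_le _⟩
      intro h
      have : fl (tr s) (x0.1⁻¹ * x0.1) = some n := h
      rw [inv_mul_cancel, fl_one] at this
      simp at this
    | succ j ih =>
      obtain ⟨k, n, h1, h2, h3⟩ := ih
      obtain ⟨o, ho⟩ := hPsink k n
      obtain ⟨n', hn'⟩ := hDsink (k * io s n o)
      have hne : n' ≠ n := by
        rintro rfl; exact ho hn'
      have hor : o ∉ (phi (s n)).range := by
        rintro ⟨a, rfl⟩
        apply ho
        rw [io_phi]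
        obtain ⟨u, hu1, hu2⟩ := h1
        refine ⟨u, ?_, ?_⟩
        · intro e he
          apply hu1 e
          simp only [E, Set.mem_ofPred_eq] at he ⊢
          rw [FL_base] at he
          exact he
        · rw [UU_base]; exact hu2
      have hor' : o⁻¹ ∉ (phi (s n)).range := fun h => hor (by simpa using inv_mem h)
      refine ⟨k * io s n o, n', hn', ?_, ?_⟩
      · intro h
        have h4 : fl (tr s) ((k * io s n o)⁻¹ * x0.1) = some n' := h
        rw [mul_inv_rev, mul_assoc, ← _root_.map_inv] at h4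
        rw [fl_of_mul (tr s) o⁻¹ hor' (k⁻¹ * x0.1) h2] at h4
        exact hne (Option.some.inj h4).symm
      · rintro z ⟨a, rfl⟩
        have hz : ((k * io s n o * bb s a, n') : KK s × ℤ) ∈ UU s k n := by
          change fl (tr s) (k⁻¹ * (k * io s n o * bb s a)) = some n
          have e : k⁻¹ * (k * io s n o * bb s a) = io s n (o * phi (s n) a) := by
            rw [_root_.map_mul, io_phi]; group
          rw [e]
          apply fl_of_not_mem
          intro h
          apply hor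
          exact (Subgroup.mul_mem_cancel_right (phi (s n)).range
            (MonoidHom.mem_range.2 ⟨a, rfl⟩)).1 h
        obtain ⟨y, hy, hyd⟩ := cross' s k n h2 hz
        have h5 := h3 y hy
        have h6 : dX s y (k * io s n o * bb s a, n') ≠ 0 := by
          intro h0
          have := dX_eq_zero s h0
          rw [this] at hy
          exact FL_not_UU s k n hy hz
        omega
  obtain ⟨k, n, ⟨v, hv1, hv2⟩, h2, h3⟩ := hQ (M + 1)
  have h1 : deep k n 1 := by
    by_contra h
    obtain ⟨y, hy, hyd⟩ := hnd k n 1 h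
    have := h3 y hy
    have hyd' : dX s x0 y ≤ M := hyd
    omega
  exact h2 ((hside k n 1 v h1 hv1).2 hv2)

end Pool.Agent.H536R3
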