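import Pool.Agent.H536R3.Rtwo

set_option autoImplicit false
set_option linter.unusedSectionVars false
set_option linter.unusedVariables false

/-! Cobounded quasi-actions on the graph and the induced permutations of levels. -/

namespace Pool.Agent.H536R3

open Monoid Monoid.PushoutI

universe u

/-- quasi-action -/
structure QA {H : Type u} [Group H] (s : ℤ → ℕ) (f : H → KK s × ℤ → KK s × ℤ) (K C : ℕ) :
    Prop where
  up : ∀ h x y, dX s (f h x) (f h y) ≤ K * dX s x y + C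
  lo : ∀ h x y, dX s x y ≤ K * dX s (f h x) (f h y) + C
  mul : ∀ h h' x, dX s (f h (f h' x)) (f (h * h') x) ≤ C
  one : ∀ x, dX s (f 1 x) x ≤ C
  cob : ∀ x y, ∃ h, dX s (f h x) y ≤ C

variable {s : ℤ → ℕ} {H : Type u} [Group H]

/-- `f h` maps `P` close to `P'` -/
def MP (f : H → KK s × ℤ → KK s × ℤ) (M : ℕ) (h : H) (P P' : Set (KK s × ℤ)) : Prop :=
  ∀ x ∈ P, f h x ∈ NB s M P'

/-- `f h` maps `P` close to `P'` -/
def mp (f : H → KK s × ℤ → KK s × ℤ) (h : H) (P P' : Set (KK s × ℤ)) : Prop :=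
  ∃ M, MP f M h P P'

variable {f : H → KK s × ℤ → KK s × ℤ} {K C : ℕ}

theorem MP_comp (q : QA s f K C) {M M' : ℕ} {h h' : H} {P P' P'' : Set (KK s × ℤ)}
    (h1 : MP f M h P P') (h2 : MP f M' h' P' P'') :
    MP f (C + (K * M + C) + M') (h' * h) P P'' := by
  intro x hx
  obtain ⟨y, hy, hxy⟩ := h1 x hx
  obtain ⟨z, hz, hyz⟩ := h2 y hy
  refine ⟨z, hz, ?_⟩
  have e1 := q.mul h' h x
  rw [dX_comm] at e1
  have e2 := q.up h' (f h x) y
  have e3 := dX_tri s (f (h' * h) x) (f h' (f h x)) z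
  have e4 := dX_tri s (f h' (f h x)) (f h' y) z
  have e5 : K * dX s (f h x) y ≤ K * M := Nat.mul_le_mul_left _ hxy
  omega

theorem MP_one (q : QA s f K C) (P : Set (KK s × ℤ)) : MP f C 1 P P :=
  fun x hx => ⟨x, hx, q.one x⟩

theorem MP_uniq (hs : ∀ n, s n ≤ 1) (q : QA s f K C) {M M' : ℕ} {h : H} {k k1 k2 : KK s}
    {n n1 n2 : ℤ} (h1 : MP f M h (OB s k n) (OB s k1 n1)) (h2 : MP f M' h (OB s k n) (OB s k2 n2)) :
    OB s k1 n1 = OB s k2 n2 := by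
  by_contra hne
  obtain ⟨C', hC'⟩ := growth_distinct hs hne (max M M')
  refine no_poly hs (hs n) (K := K) (C := C) (fun u => f h (k * io s n u, n)) ?_ ?_ hC' ?_
  · intro u v
    have := q.up h (k * io s n u, n) (k * io s n v, n)
    rwa [dX_piece] at this
  · intro u v
    have := q.lo h (k * io s n u, n) (k * io s n v, n)
    rwa [dX_piece] at this
  · intro u
    have e1 := h1 (k * io s n u, n) ⟨u, rfl⟩
    have e2 := h2 (k * io s n u, n) ⟨u, rfl⟩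
    exact ⟨NB_mono s (le_max_left _ _) subset_rfl e1, NB_mono s (le_max_right _ _) subset_rfl e2⟩

theorem MP_exists (hs : ∀ n, s n ≤ 1) (q : QA s f K C) :
    ∃ M0, ∀ h k n, ∃ k' n', MP f M0 h (OB s k n) (OB s k' n') := by
  have key : ∀ d : ℕ, ∃ M : ℕ, d ≤ 1 → ∀ g : Pc d → KK s × ℤ,
      (∀ u v, dX s (g u) (g v) ≤ K * nm (u⁻¹ * v) + C) →
      (∀ u v, nm (u⁻¹ * v) ≤ K * dX s (g u) (g v) + C) →
      ∃ k n, ∀ u, ∃ y ∈ OB s k n, dX s (g u) y ≤ M := by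
    intro d
    by_cases hd : d ≤ 1
    · obtain ⟨M, hM⟩ := Rone (s := s) hs d hd K C
      exact ⟨M, fun _ => hM⟩
    · exact ⟨0, fun h => absurd h hd⟩
  choose M hM using key
  refine ⟨max (M 0) (M 1), fun h k n => ?_⟩
  have hle : M (s n) ≤ max (M 0) (M 1) := by
    have h0 := hs n
    have h1 : s n = 0 ∨ s n = 1 := by omega
    rcases h1 with h1 | h1
    · rw [h1]; exact le_max_left _ _
    · rw [h1]; exact le_max_right _ _
  obtain ⟨k', n', h1⟩ := hM (s n) (hs n) (fun u => f h (k * io s n u, n)) (by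
    intro u v
    have := q.up h (k * io s n u, n) (k * io s n v, n)
    rwa [dX_piece] at this) (by
    intro u v
    have := q.lo h (k * io s n u, n) (k * io s n v, n)
    rwa [dX_piece] at this)
  refine ⟨k', n', ?_⟩
  rintro x ⟨u, rfl⟩
  obtain ⟨y, hy, hyd⟩ := h1 u
  exact ⟨y, hy, hyd.trans hle⟩

theorem mp_comp (q : QA s f K C) {h h' : H} {P P' P'' : Set (KK s × ℤ)}
    (h1 : mp f h P P') (h2 : mp f h' P' P'') : mp f (h' * h) P P'' := by
  obtain ⟨M, h1⟩ := h1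
  obtain ⟨M', h2⟩ := h2
  exact ⟨_, MP_comp q h1 h2⟩

theorem mp_uniq (hs : ∀ n, s n ≤ 1) (q : QA s f K C) {h : H} {k k1 k2 : KK s}
    {n n1 n2 : ℤ} (h1 : mp f h (OB s k n) (OB s k1 n1)) (h2 : mp f h (OB s k n) (OB s k2 n2)) :
    OB s k1 n1 = OB s k2 n2 := by
  obtain ⟨M, h1⟩ := h1
  obtain ⟨M', h2⟩ := h2
  exact MP_uniq hs q h1 h2

theorem mp_one (q : QA s f K C) (P : Set (KK s × ℤ)) : mp f 1 P P := ⟨_, MP_one q P⟩

theorem mp_exists (hs : ∀ n, s n ≤ 1) (q : QA s f K C) (h : H) (k : KK s) (n : ℤ) :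
    ∃ k' n', mp f h (OB s k n) (OB s k' n') := by
  obtain ⟨M0, h0⟩ := MP_exists hs q
  obtain ⟨k', n', h1⟩ := h0 h k n
  exact ⟨k', n', _, h1⟩

theorem mp_inv (hs : ∀ n, s n ≤ 1) (q : QA s f K C) {h : H} {k k' : KK s} {n n' : ℤ}
    (h1 : mp f h (OB s k n) (OB s k' n')) : mp f h⁻¹ (OB s k' n') (OB s k n) := by
  obtain ⟨k'', n'', h2⟩ := mp_exists hs q h⁻¹ k' n'
  have h3 := mp_comp q h1 h2
  rw [inv_mul_cancel] at h3
  have h4 := mp_uniq hs q h3 (mp_one q (OB s k n))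
  rwa [h4] at h2

theorem mp_inj (hs : ∀ n, s n ≤ 1) (q : QA s f K C) {h : H} {k1 k2 : KK s} {n1 n2 : ℤ}
    {k : KK s} {n : ℤ}
    (h1 : mp f h (OB s k1 n1) (OB s k n)) (h2 : mp f h (OB s k2 n2) (OB s k n)) :
    OB s k1 n1 = OB s k2 n2 :=
  mp_uniq hs q (mp_inv hs q h1) (mp_inv hs q h2)

theorem tr_growth (hs : ∀ n, s n ≤ 1) (q : QA s f K C) {h : H} {P P' Q Q' : Set (KK s × ℤ)}
    {M M' R : ℕ} (h1 : MP f M h P P') (h2 : MP f M' h Q Q') {C' m : ℕ}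
    (hG : Growth (dX s) (NB s (K * R + C + (M + M')) P' ∩ NB s (K * R + C + (M + M')) Q') C' m) :
    Growth (dX s) (NB s R P ∩ NB s R Q) (15 ^ C * (C' * (K + C + 1) ^ m)) m := by
  classical
  refine growth_of_map (f h) ?_ ?_ ?_ hG
  · intro t _ ht2
    rcases t.eq_empty_or_nonempty with rfl | ⟨a, ha⟩
    · simp
    · apply ballX s hs C a
      intro y hy
      have h1 := q.lo h a y
      rw [ht2 a ha y hy, dX_self] at h1
      omega
  · rintro x ⟨⟨p, hp, hxp⟩, ⟨r, hr, hxr⟩⟩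
    obtain ⟨y, hy, hpy⟩ := h1 p hp
    obtain ⟨z, hz, hrz⟩ := h2 r hr
    have e1 := q.up h x p
    have e2 := q.up h x r
    have e3 : K * dX s x p ≤ K * R := Nat.mul_le_mul_left _ hxp
    have e4 : K * dX s x r ≤ K * R := Nat.mul_le_mul_left _ hxr
    have e5 := dX_tri s (f h x) (f h p) y
    have e6 := dX_tri s (f h x) (f h r) z
    exact ⟨⟨y, hy, by omega⟩, ⟨z, hz, by omega⟩⟩
  · intro x
    refine ⟨f h x, fun a _ r hr => ?_⟩
    have h1 := q.up h x a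
    have h2 : K * dX s x a ≤ K * r := Nat.mul_le_mul_left K hr
    nlinarith [Nat.zero_le (C * r)]

theorem big_tr (hs : ∀ n, s n ≤ 1) (q : QA s f K C) {h : H} {P P' Q Q' : Set (KK s × ℤ)}
    (h1 : mp f h P P') (h2 : mp f h Q Q') (hb : Big P Q) : Big P' Q' := by
  obtain ⟨M, h1⟩ := h1
  obtain ⟨M', h2⟩ := h2
  obtain ⟨R, hR⟩ := hb
  exact ⟨_, fun C' hC' => hR _ (tr_growth hs q h1 h2 hC')⟩

theorem bdd_tr (hs : ∀ n, s n ≤ 1) (q : QA s f K C) {h : H} {k k' g g' : KK s} {n n' m m' : ℤ}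
    (h1 : mp f h (OB s k n) (OB s k' n')) (h2 : mp f h (OB s g m) (OB s g' m'))
    (hb : Bdd (OB s k n) (OB s g m)) : Bdd (OB s k' n') (OB s g' m') := by
  obtain ⟨M, h1⟩ := mp_inv hs q h1
  obtain ⟨M', h2⟩ := mp_inv hs q h2
  intro R
  obtain ⟨C', hC'⟩ := hb (K * R + C + (M + M'))
  exact ⟨_, tr_growth hs q h1 h2 hC'⟩

theorem TB_tr (hs : ∀ n, s n ≤ 1) (q : QA s f K C) {h : H} {k k' : KK s} {n n' : ℤ}
    (h1 : mp f h (OB s k n) (OB s k' n')) (ht : TB (OB s k n)) : TB (OB s k' n') := by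
  obtain ⟨_, _, ⟨k1, n1, rfl⟩, ⟨k2, n2, rfl⟩, hb1, hb2, hbd⟩ := ht
  obtain ⟨k1', n1', e1⟩ := mp_exists hs q h k1 n1
  obtain ⟨k2', n2', e2⟩ := mp_exists hs q h k2 n2
  exact ⟨OB s k1' n1', OB s k2' n2', ⟨_, _, rfl⟩, ⟨_, _, rfl⟩, big_tr hs q h1 e1 hb1,
    big_tr hs q h1 e2 hb2, bdd_tr hs q e1 e2 hbd⟩

theorem type_one (hs : ∀ n, s n ≤ 1) (q : QA s f K C) {h : H} {k k' : KK s} {n n' : ℤ}
    (h1 : mp f h (OB s k n) (OB s k' n')) (hn : s n = 1) : s n' = 1 := by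
  by_contra hc
  have h0 := hs n'
  exact not_TB_zero hs k' n' (by omega) (TB_tr hs q h1 (TB_one hs k n hn))

theorem type_eq (hs : ∀ n, s n ≤ 1) (q : QA s f K C) {h : H} {k k' : KK s} {n n' : ℤ}
    (h1 : mp f h (OB s k n) (OB s k' n')) : s n' = s n := by
  have h0 := hs n'
  have h0' := hs n
  by_cases hn : s n = 1
  · rw [type_one hs q h1 hn, hn]
  · by_cases hn' : s n' = 1
    · exact absurd (type_one hs q (mp_inv hs q h1) hn') hn
    · omega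

/-- `f h` maps the slab of `k` to the slab of `k'` -/
def Sl (f : H → KK s × ℤ → KK s × ℤ) (h : H) (k k' : KK s) (σ : Equiv.Perm ℤ) : Prop :=
  ∀ n, mp f h (OB s k n) (OB s k' (σ n))

theorem slab_pre (hs : ∀ n, s n ≤ 1) (q : QA s f K C) (h : H) (k : KK s) :
    ∃ κ : KK s, ∃ π : ℤ → ℤ, ∀ n, mp f h (OB s k n) (OB s κ (π n)) := by
  choose g π hg using fun n => mp_exists hs q h k n
  obtain ⟨κ, h0, h1⟩ := big_share hs (big_tr hs q (hg 0) (hg 1) (big_same k 0 1))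
  have hne : π 0 ≠ π 1 := by
    intro he
    have h2 : OB s (g 0) (π 0) = OB s (g 1) (π 1) := by
      rw [← h0, ← h1, he]
    have h3 := hg 0
    rw [h2] at h3
    have h4 := OB_level (mp_inj hs q h3 (hg 1))
    omega
  refine ⟨κ, π, fun n => ?_⟩
  have h2 : OB s (g n) (π n) = OB s κ (π n) := by
    apply big_slab hs hne
    · rw [h0]; exact big_tr hs q (hg n) (hg 0) (big_same k n 0)
    · rw [h1]; exact big_tr hs q (hg n) (hg 1) (big_same k n 1)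
  rw [← h2]
  exact hg n

theorem slab (hs : ∀ n, s n ≤ 1) (q : QA s f K C) (h : H) (k : KK s) :
    ∃ κ σ, Sl f h k κ σ := by
  obtain ⟨κ, π, hπ⟩ := slab_pre hs q h k
  obtain ⟨κ', π', hπ'⟩ := slab_pre hs q h⁻¹ κ
  have h1 : ∀ n, OB s κ' (π' (π n)) = OB s k n := by
    intro n
    have h2 := mp_comp q (hπ n) (hπ' (π n))
    rw [inv_mul_cancel] at h2
    exact mp_uniq hs q h2 (mp_one q _)
  have h2 : ∀ n, π' (π n) = n := fun n => OB_level (h1 n)
  have h3 : ∀ m, π (π' m) = m := by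
    intro m
    have h4 := h1 (π' m)
    rw [h2] at h4
    have h5 := hπ' m
    rw [h4] at h5
    have h6 := mp_comp q h5 (hπ (π' m))
    rw [mul_inv_cancel] at h6
    exact OB_level (mp_uniq hs q h6 (mp_one q _))
  exact ⟨κ, ⟨π, π', h2, h3⟩, hπ⟩

theorem Sl_comp (q : QA s f K C) {h h' : H} {k k' k'' : KK s} {σ σ' : Equiv.Perm ℤ}
    (h1 : Sl f h k k' σ) (h2 : Sl f h' k' k'' σ') : Sl f (h' * h) k k'' (σ' * σ) := by
  intro n
  exact mp_comp q (h1 n) (h2 (σ n))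

theorem Sl_one (q : QA s f K C) (k : KK s) : Sl f 1 k k 1 := fun n => mp_one q _

theorem Sl_inv (hs : ∀ n, s n ≤ 1) (q : QA s f K C) {h : H} {k k' : KK s} {σ : Equiv.Perm ℤ}
    (h1 : Sl f h k k' σ) : Sl f h⁻¹ k' k σ⁻¹ := by
  intro n
  have h2 := mp_inv hs q (h1 (σ⁻¹ n))
  have h3 : σ (σ⁻¹ n) = n := Equiv.apply_symm_apply σ n
  rwa [h3] at h2

/-- the permutations of levels induced by the stabilizer of a slab -/
def GG (hs : ∀ n, s n ≤ 1) (q : QA s f K C) : Subgroup (Equiv.Perm ℤ) where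
  carrier := {σ | ∃ h, Sl f h 1 1 σ}
  mul_mem' := by
    rintro a b ⟨h, ha⟩ ⟨h', hb⟩
    exact ⟨h * h', Sl_comp q hb ha⟩
  one_mem' := ⟨1, Sl_one q 1⟩
  inv_mem' := by
    rintro a ⟨h, ha⟩
    exact ⟨h⁻¹, Sl_inv hs q ha⟩

theorem mem_GG (hs : ∀ n, s n ≤ 1) (q : QA s f K C) {σ : Equiv.Perm ℤ} :
    σ ∈ GG hs q ↔ ∃ h, Sl f h 1 1 σ := Iff.rfl

theorem NB_level {M : ℕ} {k : KK s} {n : ℤ} {x : KK s × ℤ} (h : x ∈ NB s M (OB s k n)) :
    (x.2 - n).natAbs ≤ M := by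
  obtain ⟨y, ⟨o, rfl⟩, hy⟩ := h
  exact (level_lip s x _).trans hy

theorem OB_bb (k : KK s) (a : AA) (n : ℤ) : OB s (k * bb s a) n = OB s k n := by
  rw [← io_phi s n a]; exact OB_io k n _

theorem no_QA (hs : ∀ n, s n ≤ 1) (q : QA s f K C)
    (hfl : ∀ (G : Subgroup (Equiv.Perm ℤ)) (L : ℕ), (∀ σ ∈ G, ∀ n, s (σ n) = s n) →
      (∀ σ ∈ G, ∀ n m : ℤ, (σ n - σ m).natAbs ≤ L * (n - m).natAbs + L) →
      ∀ n : ℤ, ∃ B : ℕ, ∀ σ ∈ G, (σ n).natAbs ≤ B) : False := by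
  classical
  obtain ⟨M0, hM0⟩ := MP_exists hs q
  have hunif : ∀ {h : H} {k k' : KK s} {n n' : ℤ}, mp f h (OB s k n) (OB s k' n') →
      MP f M0 h (OB s k n) (OB s k' n') := by
    intro h k k' n n' h1
    obtain ⟨k'', n'', h2⟩ := hM0 h k n
    have h3 := mp_uniq hs q h1 ⟨M0, h2⟩
    rwa [← h3] at h2
  have hbd := hfl (GG hs q) (K + C + 2 * M0) (by
    rintro σ ⟨h, hσ⟩ n
    exact type_eq hs q (hσ n)) (by
    rintro σ ⟨h, hσ⟩ n m
    have h1 := NB_level (hunif (hσ n) (1, n) (self_mem_OB 1 n))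
    have h2 := NB_level (hunif (hσ m) (1, m) (self_mem_OB 1 m))
    have h3 := level_lip s (f h (1, n)) (f h (1, m))
    have h4 := q.up h (1, n) (1, m)
    have h5 : K * dX s (1, n) (1, m) ≤ K * (n - m).natAbs :=
      Nat.mul_le_mul_left _ (dX_vert s 1 n m)
    have h6 : (K + C + 2 * M0) * (n - m).natAbs ≥ K * (n - m).natAbs :=
      Nat.mul_le_mul_right _ (by omega)
    omega)
  -- the elements moving `(1, m)` close to `(1, 0)`
  set R := C + (K + C + M0) with hR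
  have key : ∀ m : ℤ, ∃ (h : H) (κ : KK s) (σ : Equiv.Perm ℤ), Sl f h 1 κ σ ∧
      dX s (1, 0) (κ, σ m) ≤ R := by
    intro m
    obtain ⟨h, hh⟩ := q.cob (1, m) (1, 0)
    obtain ⟨κ, σ, hσ⟩ := slab hs q h 1
    have h1 := hunif (hσ m) (1, m) (self_mem_OB 1 m)
    have h2 := hunif (hσ (m + 1)) (1, m + 1) (self_mem_OB 1 (m + 1))
    have h3 : ((1, 0) : KK s × ℤ) ∈ NB s R (OB s κ (σ m)) := by
      obtain ⟨y, hy, hyd⟩ := h1
      refine ⟨y, hy, ?_⟩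
      have h4 := dX_tri s (1, 0) (f h (1, m)) y
      rw [dX_comm s (1, 0) (f h (1, m))] at h4
      omega
    have h4 : ((1, 0) : KK s × ℤ) ∈ NB s R (OB s κ (σ (m + 1))) := by
      obtain ⟨y, hy, hyd⟩ := h2
      refine ⟨y, hy, ?_⟩
      have h4 := dX_tri s (1, 0) (f h (1, m)) y
      have h5 := dX_tri s (f h (1, m)) (f h (1, m + 1)) y
      have h6 := q.up h (1, m) (1, m + 1)
      have h7 : K * dX s (1, m) (1, m + 1) ≤ K * 1 := by
        apply Nat.mul_le_mul_left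
        refine (dX_vert s 1 m (m + 1)).trans ?_
        omega
      rw [dX_comm s (1, 0) (f h (1, m))] at h4
      omega
    have hne : σ m ≠ σ (m + 1) := by
      intro h
      have := σ.injective h
      omega
    obtain ⟨y, ⟨a, rfl⟩, hy⟩ := near_two κ hne R ⟨h3, h4⟩
    refine ⟨h, κ * bb s a, σ, ?_, hy⟩
    intro n
    rw [OB_bb]
    exact hσ n
  choose h κ σ hσ hκ using key
  -- pigeonhole
  have hfin : (Set.range fun m => ((κ m, σ m m) : KK s × ℤ)).Finite := by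
    by_contra hinf
    obtain ⟨t, ht, htc⟩ := Set.Infinite.exists_subset_card_eq hinf (15 ^ R + 1)
    have h1 := ballX s hs R (1, 0) t (by
      intro y hy
      obtain ⟨m, rfl⟩ := ht hy
      exact hκ m)
    omega
  obtain ⟨p, hp⟩ : ∃ p : KK s × ℤ, (Set.preimage (fun m => ((κ m, σ m m) : KK s × ℤ)) {p}).Infinite := by
    by_contra hc
    push Not at hc
    have h1 : (Set.univ : Set ℤ).Finite := by
      have h2 : (Set.univ : Set ℤ) ⊆ ⋃ p ∈ (Set.range fun m => ((κ m, σ m m) : KK s × ℤ)),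
          Set.preimage (fun m => ((κ m, σ m m) : KK s × ℤ)) {p} := by
        intro m _
        simp only [Set.mem_iUnion]
        exact ⟨_, ⟨m, rfl⟩, rfl⟩
      refine Set.Finite.subset (Set.Finite.biUnion hfin fun p _ => ?_) h2
      exact hc p
    exact Set.infinite_univ h1
  obtain ⟨m1, hm1⟩ := hp.nonempty
  obtain ⟨B, hB⟩ := hbd m1
  apply hp
  refine (Set.finite_Icc (-(B : ℤ)) B).subset ?_
  intro m hm
  have e1 : κ m1 = κ m := by
    have h1 : (κ m1, σ m1 m1) = p := hm1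
    have h2 : (κ m, σ m m) = p := hm
    exact (Prod.mk.inj (h1.trans h2.symm)).1
  have e2 : σ m1 m1 = σ m m := by
    have h1 : (κ m1, σ m1 m1) = p := hm1
    have h2 : (κ m, σ m m) = p := hm
    exact (Prod.mk.inj (h1.trans h2.symm)).2
  have h1 : (σ m)⁻¹ * σ m1 ∈ GG hs q := by
    refine ⟨(h m)⁻¹ * h m1, ?_⟩
    refine Sl_comp q (k' := κ m) ?_ (Sl_inv hs q (hσ m))
    rw [← e1]; exact hσ m1
  have h2 := hB _ h1
  have h3 : (σ m)⁻¹ ((σ m) m) = m := Equiv.symm_apply_apply (σ m) m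
  rw [Equiv.Perm.mul_apply, e2, h3] at h2
  rw [Set.mem_Icc]
  omega

end Pool.Agent.H536R3
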