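import Pool.Agent.H536R3.Rone

set_option autoImplicit false
set_option linter.unusedSectionVars false
set_option linter.unusedVariables false

/-! Coarse intersections of pieces. -/

namespace Pool.Agent.H536R3

open Monoid Monoid.PushoutI

variable {s : ℤ → ℕ}

theorem OB_io (k : KK s) (n : ℤ) (v : Pc (s n)) : OB s (k * io s n v) n = OB s k n := by
  ext x
  constructor
  · rintro ⟨o, rfl⟩
    exact ⟨v * o, by rw [_root_.map_mul, mul_assoc]⟩
  · rintro ⟨o, rfl⟩
    exact ⟨v⁻¹ * o, by rw [_root_.map_mul, _root_.map_inv, mul_assoc, mul_inv_cancel_left]⟩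

theorem self_mem_OB (k : KK s) (n : ℤ) : (k, n) ∈ OB s k n := ⟨1, by rw [_root_.map_one, mul_one]⟩

theorem OB_level {k k' : KK s} {n n' : ℤ} (h : OB s k n = OB s k' n') : n = n' := by
  have h1 : (k, n) ∈ OB s k' n' := h ▸ self_mem_OB k n
  obtain ⟨o, ho⟩ := h1
  exact (Prod.mk.inj ho).2

theorem OB_rep {k k' : KK s} {n : ℤ} (h : OB s k' n = OB s k n) :
    ∃ o : Pc (s n), k' = k * io s n o := by
  have h1 : (k', n) ∈ OB s k n := h ▸ self_mem_OB k' n
  obtain ⟨o, ho⟩ := h1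
  exact ⟨o, (Prod.mk.inj ho).1⟩

/-- flats of the same piece: coarse intersection -/
theorem two_flats (k : KK s) (i : ℤ) (u : Pc (s i)) (R : ℕ) :
    ∃ (p : Fin 3 → ℤ), ∀ a : AA, (k * bb s a, i) ∈ NB s R (FL s (k * io s i u) i) →
      ∀ c, off u c → |co a c - p c| ≤ R := by
  classical
  have h1 : ∀ c, ∃ p : ℤ, off u c → ∀ a b : AA, |co a c - p| ≤ nm ((phi _ a)⁻¹ * u * phi _ b) := by
    intro c
    by_cases hc : off u c
    · obtain ⟨p, hp⟩ := off_bd hc
      exact ⟨p, fun _ => hp⟩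
    · exact ⟨0, fun h => absurd h hc⟩
  choose p hp using h1
  refine ⟨p, ?_⟩
  rintro a ⟨y, ⟨b, rfl⟩, hy⟩ c hc
  have h2 := hp c hc a b
  have h3 := dX_piece s k i (phi _ a) (u * phi _ b)
  rw [io_phi, _root_.map_mul, io_phi, ← mul_assoc] at h3
  rw [h3, ← mul_assoc] at hy
  exact h2.trans (by exact_mod_cast hy)

theorem growth_two (hs : ∀ n, s n ≤ 1) (k : KK s) (i : ℤ) (u : Pc (s i))
    (hu : u ∉ (phi (s i)).range) (R : ℕ) :
    ∃ C, Growth (dX s) (NB s R (FL s k i) ∩ NB s R (FL s (k * io s i u) i)) C 2 := by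
  classical
  obtain ⟨p, hp⟩ := two_flats k i u (R + R)
  obtain ⟨c0, hc0⟩ := exists_off hu
  have hS : Growth (dX s) (FL s k i ∩ NB s (R + R) (FL s (k * io s i u) i))
      ((2 * (R + R) + 1) * 4) 2 := by
    intro x r t ht
    rw [← Finset.card_image_of_injOn (s := t) (f := fun y => (rho s k)⁻¹ * rho s y.1)]
    · let q : Fin 3 → ℤ := fun c => if c = c0 then p c else co ((rho s k)⁻¹ * rho s x.1) c
      let w : Fin 3 → ℕ := fun c => if c = c0 then R + R else r
      have hbox := box (t.image fun y => (rho s k)⁻¹ * rho s y.1) q w (by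
        intro a ha c
        obtain ⟨y, hy, rfl⟩ := Finset.mem_image.1 ha
        obtain ⟨⟨b, hb⟩, hy2⟩ := (ht y hy).1
        by_cases hc : c = c0
        · simp only [q, w, if_pos hc]
          rw [hb] at hy2 ⊢
          simp only [_root_.map_mul, rho_bb, inv_mul_cancel_left]
          exact_mod_cast hp b hy2 c (hc ▸ hc0)
        · simp only [q, w, if_neg hc]
          have h1 := (rho_lip s x y).trans (ht y hy).2
          have h2 := co_bd ((rho s x.1)⁻¹ * rho s y.1) c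
          rw [co_mul, co_inv] at h2
          rw [co_mul, co_mul]
          have h3 : co (rho s k)⁻¹ c + co (rho s y.1) c - (co (rho s k)⁻¹ c + co (rho s x.1) c)
            = - co (rho s x.1) c + co (rho s y.1) c := by ring
          rw [h3]
          exact h2.trans (by exact_mod_cast h1))
      refine hbox.trans ?_
      have e : ∀ c, 2 * w c + 1 = if c = c0 then 2 * (R + R) + 1 else 2 * r + 1 := by
        intro c; simp only [w]; split_ifs <;> rfl
      have h3 : (2 * r + 1) ≤ 2 * (r + 1) := by omega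
      have h4 : (2 * r + 1) * (2 * r + 1) ≤ 4 * (r + 1) ^ 2 := by nlinarith
      have h5 := Nat.mul_le_mul_left (2 * (R + R) + 1) h4
      rw [e, e, e]
      clear_value q w
      clear hbox
      fin_cases c0
      · simp only [Fin.zero_eta, Fin.isValue, if_true, if_neg (show (1 : Fin 3) ≠ 0 by decide),
          if_neg (show (2 : Fin 3) ≠ 0 by decide)]
        refine h5.trans ?_
        exact le_of_eq (by ring)
      · simp only [Fin.mk_one, Fin.isValue, if_true, if_neg (show (0 : Fin 3) ≠ 1 by decide),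
          if_neg (show (2 : Fin 3) ≠ 1 by decide)]
        calc _ = (2 * (R + R) + 1) * ((2 * r + 1) * (2 * r + 1)) := by ring
          _ ≤ _ := h5
          _ = _ := by ring
      · simp only [Fin.reduceFinMk, Fin.isValue, if_true, if_neg (show (0 : Fin 3) ≠ 2 by decide),
          if_neg (show (1 : Fin 3) ≠ 2 by decide)]
        calc _ = (2 * (R + R) + 1) * ((2 * r + 1) * (2 * r + 1)) := by ring
          _ ≤ _ := h5
          _ = _ := by ring
    · intro y hy y' hy' h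
      obtain ⟨a, rfl⟩ := (ht y hy).1.1
      obtain ⟨a', rfl⟩ := (ht y' hy').1.1
      simp only [_root_.map_mul, rho_bb, inv_mul_cancel_left] at h
      rw [h]
  refine ⟨_, (growth_NB hs hS R).mono ?_⟩
  rintro x ⟨⟨y, hy, hxy⟩, ⟨z, hz, hxz⟩⟩
  refine ⟨y, ⟨hy, z, hz, ?_⟩, hxy⟩
  have := dX_tri s y x z
  rw [dX_comm s y x] at this
  omega

theorem growth_three_off (hs : ∀ n, s n ≤ 1) (k : KK s) (i : ℤ) (u : Pc (s i))
    (hu : ∀ c, off u c) (R : ℕ) :
    ∃ C, Growth (dX s) (NB s R (FL s k i) ∩ NB s R (FL s (k * io s i u) i)) C 0 := by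
  classical
  obtain ⟨p, hp⟩ := two_flats k i u (R + R)
  have hS : Growth (dX s) (FL s k i ∩ NB s (R + R) (FL s (k * io s i u) i))
      ((2 * (R + R) + 1) * ((2 * (R + R) + 1) * (2 * (R + R) + 1))) 0 := by
    intro x r t ht
    rw [← Finset.card_image_of_injOn (s := t) (f := fun y => (rho s k)⁻¹ * rho s y.1)]
    · have hbox := box (t.image fun y => (rho s k)⁻¹ * rho s y.1) p (fun _ => R + R) (by
        intro a ha c
        obtain ⟨y, hy, rfl⟩ := Finset.mem_image.1 ha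
        obtain ⟨⟨b, hb⟩, hy2⟩ := (ht y hy).1
        rw [hb] at hy2 ⊢
        simp only [_root_.map_mul, rho_bb, inv_mul_cancel_left]
        exact_mod_cast hp b hy2 c (hu c))
      rw [pow_zero, mul_one]
      exact hbox
    · intro y hy y' hy' h
      obtain ⟨a, rfl⟩ := (ht y hy).1.1
      obtain ⟨a', rfl⟩ := (ht y' hy').1.1
      simp only [_root_.map_mul, rho_bb, inv_mul_cancel_left] at h
      rw [h]
  refine ⟨_, (growth_NB hs hS R).mono ?_⟩
  rintro x ⟨⟨y, hy, hxy⟩, ⟨z, hz, hxz⟩⟩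
  refine ⟨y, ⟨hy, z, hz, ?_⟩, hxy⟩
  have := dX_tri s y x z
  rw [dX_comm s y x] at this
  omega

/-- separation by two flats -/
theorem far_sub (k g : KK s) (m i : ℤ) (u : Pc (s i)) (g' : KK s) (hu : u ∉ (phi (s i)).range)
    (hg' : fl (tr s) g' ≠ some i) (he : k⁻¹ * g = io s i u * g')
    (hm : ∀ v : Pc (s m), k⁻¹ * g ≠ io s m v) (j : ℤ) (hj : j ≠ i) (R : ℕ) :
    NB s R (OB s g m) ∩ NB s R (OB s k j) ⊆
      NB s R (FL s k i) ∩ NB s R (FL s (k * io s i u) i) := by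
  rintro x ⟨⟨q, ⟨o, rfl⟩, hxq⟩, ⟨p, ⟨o', rfl⟩, hxp⟩⟩
  have hu' : u⁻¹ ∉ (phi (s i)).range := fun h => hu (by simpa using inv_mem h)
  have hfl : fl (tr s) (k⁻¹ * g) = some i := by rw [he]; exact fl_of_mul (tr s) u hu g' hg'
  have q1 : ((g * io s m o, m) : KK s × ℤ) ∈ UU s k i := by
    change fl (tr s) (k⁻¹ * (g * io s m o)) = some i
    rw [← mul_assoc]
    rcases fl_mul_of (tr s) m o (k⁻¹ * g) with h | ⟨v, hv⟩
    · rw [h]; exact hfl
    · exact absurd hv (hm v)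
  have p1 : ((k * io s j o', j) : KK s × ℤ) ∉ UU s k i := by
    intro h
    have h1 : fl (tr s) (k⁻¹ * (k * io s j o')) = some i := h
    rw [inv_mul_cancel_left] at h1
    exact fl_of_ne (tr s) o' hj h1
  have q2 : ((g * io s m o, m) : KK s × ℤ) ∉ UU s (k * io s i u) i := by
    intro h
    have h1 : fl (tr s) ((k * io s i u)⁻¹ * (g * io s m o)) = some i := h
    rw [mul_inv_rev, mul_assoc, ← mul_assoc k⁻¹, he, mul_assoc, inv_mul_cancel_left] at h1
    rcases fl_mul_of (tr s) m o g' with h2 | ⟨v, hv⟩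
    · rw [h2] at h1; exact hg' h1
    · by_cases hmi : m = i
      · subst hmi
        apply hm (u * v)
        rw [he, hv, _root_.map_mul]
      · rw [hv, ← _root_.map_mul] at h1
        exact fl_of_ne (tr s) _ hmi h1
  have p2 : ((k * io s j o', j) : KK s × ℤ) ∈ UU s (k * io s i u) i := by
    change fl (tr s) ((k * io s i u)⁻¹ * (k * io s j o')) = some i
    rw [mul_inv_rev, mul_assoc, inv_mul_cancel_left, ← _root_.map_inv]
    apply fl_of_mul (tr s) _ hu'
    exact fl_of_ne (tr s) o' hj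
  exact ⟨cross_near s k i q1 p1 hxq hxp, cross_near s (k * io s i u) i p2 q2 hxp hxq⟩

theorem far_growth (hs : ∀ n, s n ≤ 1) (k g : KK s) (m : ℤ)
    (hm : ∀ v : Pc (s m), k⁻¹ * g ≠ io s m v) :
    ∃ i, fl (tr s) (k⁻¹ * g) = some i ∧ ∀ j, j ≠ i → ∀ R, ∃ C,
      Growth (dX s) (NB s R (OB s g m) ∩ NB s R (OB s k j)) C 2 := by
  rcases hfl : fl (tr s) (k⁻¹ * g) with _ | i
  · obtain ⟨a, ha⟩ := fl_none (tr s) hfl
    exact absurd (ha.trans (io_phi s m a).symm) (hm _)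
  · refine ⟨i, rfl, fun j hj R => ?_⟩
    obtain ⟨u, g', hu, hg', he⟩ := fl_some (tr s) hfl
    obtain ⟨C, hC⟩ := growth_two hs k i u hu R
    exact ⟨C, hC.mono (far_sub k g m i u g' hu hg' he hm j hj R)⟩

/-- large coarse intersection -/
def Big (P Q : Set (KK s × ℤ)) : Prop :=
  ∃ R, ∀ C, ¬ Growth (dX s) (NB s R P ∩ NB s R Q) C 2

/-- bounded coarse intersection -/
def Bdd (P Q : Set (KK s × ℤ)) : Prop :=
  ∀ R, ∃ C, Growth (dX s) (NB s R P ∩ NB s R Q) C 0

theorem Big.symm {P Q : Set (KK s × ℤ)} (h : Big P Q) : Big Q P := by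
  obtain ⟨R, hR⟩ := h
  refine ⟨R, fun C hC => hR C ?_⟩
  rwa [Set.inter_comm]

theorem not_growth_FL (k : KK s) (n : ℤ) (C : ℕ) : ¬ Growth (dX s) (FL s k n) C 2 := by
  classical
  intro h
  let N := 9 * C
  let B : Finset (ℕ × ℕ × ℕ) := Finset.range (N + 1) ×ˢ (Finset.range (N + 1) ×ˢ Finset.range (N + 1))
  let e : ℕ × ℕ × ℕ → AA := fun x =>
    (Multiplicative.ofAdd (x.1 : ℤ), Multiplicative.ofAdd (x.2.1 : ℤ),
      Multiplicative.ofAdd (x.2.2 : ℤ))
  have he : Function.Injective e := by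
    rintro ⟨a, b, c⟩ ⟨a', b', c'⟩ hab
    simp only [e, Prod.mk.injEq, EmbeddingLike.apply_eq_iff_eq, Nat.cast_inj] at hab
    obtain ⟨h1, h2, h3⟩ := hab
    rw [h1, h2, h3]
  have hf : Function.Injective (fun x => ((k * bb s (e x), n) : KK s × ℤ)) := by
    intro a b hab
    have h1 := (Prod.mk.inj hab).1
    have h2 := mul_left_cancel h1
    exact he (base_injective (phi_inj s) h2)
  have hcard := h (k, n) (3 * N) (B.image fun x => ((k * bb s (e x), n) : KK s × ℤ)) (by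
    intro y hy
    obtain ⟨x, hx, rfl⟩ := Finset.mem_image.1 hy
    refine ⟨⟨e x, rfl⟩, ?_⟩
    have h1 := dX_piece_le s k n _ (phi (s n) (e x)) rfl
    rw [io_phi] at h1
    refine h1.trans ((nm_phi _).trans ?_)
    simp only [B, Finset.mem_product, Finset.mem_range] at hx
    simp only [an, e, toAdd_ofAdd, Int.natAbs_natCast]
    omega)
  rw [Finset.card_image_of_injective _ hf] at hcard
  simp only [B, Finset.card_product, Finset.card_range] at hcard
  have h1 : (3 * N + 1) ^ 2 ≤ 9 * (N + 1) ^ 2 := by nlinarith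
  have h2 : (N + 1) * ((N + 1) * (N + 1)) ≤ C * (9 * (N + 1) ^ 2) :=
    hcard.trans (Nat.mul_le_mul_left _ h1)
  have h3 : (N + 1) * (N + 1) ^ 2 ≤ N * (N + 1) ^ 2 := by
    calc (N + 1) * (N + 1) ^ 2 = (N + 1) * ((N + 1) * (N + 1)) := by ring
      _ ≤ C * (9 * (N + 1) ^ 2) := h2
      _ = N * (N + 1) ^ 2 := by simp only [N]; ring
  have h4 : 0 < (N + 1) ^ 2 := by positivity
  have h5 := Nat.le_of_mul_le_mul_right h3 h4
  omega

theorem big_same (k : KK s) (n m : ℤ) : Big (OB s k n) (OB s k m) := by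
  refine ⟨(n - m).natAbs, fun C hC => not_growth_FL k n C (hC.mono ?_)⟩
  rintro x ⟨a, rfl⟩
  constructor
  · exact ⟨_, FL_sub_OB s k n ⟨a, rfl⟩, by rw [dX_self]; omega⟩
  · exact ⟨(k * bb s a, m), FL_sub_OB s k m ⟨a, rfl⟩, dX_vert s _ n m⟩

theorem rep (k g : KK s) (n m : ℤ) : ∃ κ : KK s, OB s κ n = OB s k n ∧
    (OB s κ m = OB s g m ∨ ((∃ i, fl (tr s) (κ⁻¹ * g) = some i ∧ i ≠ n) ∧
      ∀ v : Pc (s m), κ⁻¹ * g ≠ io s m v)) := by
  obtain ⟨κ, hκ, hfl⟩ : ∃ κ : KK s, OB s κ n = OB s k n ∧ fl (tr s) (κ⁻¹ * g) ≠ some n := by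
    by_cases h : fl (tr s) (k⁻¹ * g) = some n
    · obtain ⟨u, g', hu, hg', he⟩ := fl_some (tr s) h
      refine ⟨k * io s n u, OB_io k n u, ?_⟩
      rw [mul_inv_rev, mul_assoc, he, inv_mul_cancel_left]
      exact hg'
    · exact ⟨k, rfl, h⟩
  refine ⟨κ, hκ, ?_⟩
  by_cases hv : ∃ v : Pc (s m), κ⁻¹ * g = io s m v
  · left
    obtain ⟨v, hv⟩ := hv
    have : g = κ * io s m v := by rw [← hv, mul_inv_cancel_left]
    rw [this, OB_io]
  · right
    push Not at hv
    refine ⟨?_, hv⟩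
    rcases hfl2 : fl (tr s) (κ⁻¹ * g) with _ | i
    · obtain ⟨a, ha⟩ := fl_none (tr s) hfl2
      exact absurd (ha.trans (io_phi s m a).symm) (hv _)
    · refine ⟨i, rfl, ?_⟩
      rintro rfl
      exact hfl hfl2

theorem big_share (hs : ∀ n, s n ≤ 1) {k g : KK s} {n m : ℤ} (h : Big (OB s k n) (OB s g m)) :
    ∃ κ : KK s, OB s κ n = OB s k n ∧ OB s κ m = OB s g m := by
  obtain ⟨κ, h1, h2 | ⟨⟨i, hi, hin⟩, hv⟩⟩ := rep k g n m
  · exact ⟨κ, h1, h2⟩
  · exfalso
    obtain ⟨i', hi', hgr⟩ := far_growth hs κ g m hv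
    have : i' = i := by
      rw [hi] at hi'; exact (Option.some.inj hi').symm
    subst this
    obtain ⟨R, hR⟩ := h
    obtain ⟨C, hC⟩ := hgr n (Ne.symm hin) R
    rw [h1, Set.inter_comm] at hC
    exact hR C hC

theorem big_slab (hs : ∀ n, s n ≤ 1) {κ g : KK s} {j0 j1 m : ℤ} (hj : j0 ≠ j1)
    (h0 : Big (OB s g m) (OB s κ j0)) (h1 : Big (OB s g m) (OB s κ j1)) :
    OB s g m = OB s κ m := by
  by_cases hv : ∃ v : Pc (s m), κ⁻¹ * g = io s m v
  · obtain ⟨v, hv⟩ := hv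
    have : g = κ * io s m v := by rw [← hv, mul_inv_cancel_left]
    rw [this, OB_io]
  · exfalso
    push Not at hv
    obtain ⟨i, hi, hgr⟩ := far_growth hs κ g m hv
    by_cases hji : j0 = i
    · obtain ⟨R, hR⟩ := h1
      obtain ⟨C, hC⟩ := hgr j1 (by rw [← hji]; exact Ne.symm hj) R
      exact hR C hC
    · obtain ⟨R, hR⟩ := h0
      obtain ⟨C, hC⟩ := hgr j0 hji R
      exact hR C hC

theorem near_two (κ : KK s) {n m : ℤ} (hnm : n ≠ m) (R : ℕ) :
    NB s R (OB s κ n) ∩ NB s R (OB s κ m) ⊆ NB s R (FL s κ n) := by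
  rintro x ⟨⟨p, ⟨o, rfl⟩, hxp⟩, ⟨q, ⟨o', rfl⟩, hxq⟩⟩
  have hq : ((κ * io s m o', m) : KK s × ℤ) ∉ UU s κ n := by
    intro h
    have h1 : fl (tr s) (κ⁻¹ * (κ * io s m o')) = some n := h
    rw [inv_mul_cancel_left] at h1
    exact fl_of_ne (tr s) o' (Ne.symm hnm) h1
  by_cases hp : ((κ * io s n o, n) : KK s × ℤ) ∈ UU s κ n
  · exact cross_near s κ n hp hq hxp hxq
  · have h1 : o ∈ (phi (s n)).range := by
      by_contra hc
      apply hp
      change fl (tr s) (κ⁻¹ * (κ * io s n o)) = some n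
      rw [inv_mul_cancel_left]
      exact fl_of_not_mem (tr s) hc
    obtain ⟨a, rfl⟩ := h1
    exact ⟨_, ⟨a, by rw [io_phi]⟩, hxp⟩

theorem growth_distinct (hs : ∀ n, s n ≤ 1) {k g : KK s} {n m : ℤ}
    (h : OB s k n ≠ OB s g m) (R : ℕ) :
    ∃ C, Growth (dX s) (NB s R (OB s k n) ∩ NB s R (OB s g m)) C 3 := by
  obtain ⟨κ, h1, h2 | ⟨⟨i, hi, hin⟩, hv⟩⟩ := rep k g n m
  · have hnm : n ≠ m := by
      rintro rfl
      exact h (h1.symm.trans h2)
    rw [← h1, ← h2]
    exact ⟨_, (growth_NB hs (growth_FL s κ n) R).mono (near_two κ hnm R)⟩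
  · obtain ⟨i', hi', hgr⟩ := far_growth hs κ g m hv
    have : i' = i := by
      rw [hi] at hi'; exact (Option.some.inj hi').symm
    subst this
    obtain ⟨C, hC⟩ := hgr n (Ne.symm hin) R
    rw [h1, Set.inter_comm] at hC
    exact ⟨C, hC.up (by omega)⟩

/-- being a piece -/
def IsOb (P : Set (KK s × ℤ)) : Prop := ∃ k n, P = OB s k n

/-- type predicate -/
def TB (P : Set (KK s × ℤ)) : Prop :=
  ∃ Q1 Q2 : Set (KK s × ℤ), IsOb Q1 ∧ IsOb Q2 ∧ Big P Q1 ∧ Big P Q2 ∧ Bdd Q1 Q2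

theorem TB_one (hs : ∀ n, s n ≤ 1) (k : KK s) (n : ℤ) (hn : s n = 1) : TB (OB s k n) := by
  obtain ⟨o, ho⟩ := off_word hn
  have hor : o ∉ (phi (s n)).range := fun h => (ho 0) ((mem_phi_range o).1 h).1
  refine ⟨OB s k (n + 1), OB s (k * io s n o) (n + 1), ⟨_, _, rfl⟩, ⟨_, _, rfl⟩, big_same k _ _,
    ?_, ?_⟩
  · rw [← OB_io k n o]
    exact big_same _ _ _
  · intro R
    obtain ⟨C, hC⟩ := growth_three_off hs k n o ho R
    refine ⟨C, hC.mono ?_⟩
    rw [Set.inter_comm]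
    refine far_sub k (k * io s n o) (n + 1) n o 1 hor (by rw [fl_one]; simp) (by
      rw [inv_mul_cancel_left, mul_one]) ?_ (n + 1) (by omega) R
    intro v hv
    rw [inv_mul_cancel_left] at hv
    obtain ⟨a, ha⟩ := mem_two (tr s) (show n ≠ n + 1 by omega) hv
    apply hor
    refine MonoidHom.mem_range.2 ⟨a, of_injective (phi_inj s) n ?_⟩
    rw [ha]
    exact io_phi s n a

theorem not_TB_zero (hs : ∀ n, s n ≤ 1) (k : KK s) (n : ℤ) (hn : s n = 0) :
    ¬ TB (OB s k n) := by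
  classical
  rintro ⟨_, _, ⟨k1, n1, rfl⟩, ⟨k2, n2, rfl⟩, hb1, hb2, hbd⟩
  obtain ⟨κ1, h11, h12⟩ := big_share hs hb1
  obtain ⟨κ2, h21, h22⟩ := big_share hs hb2
  obtain ⟨o1, ho1⟩ := OB_rep h11
  obtain ⟨o2, ho2⟩ := OB_rep h21
  set R := (n - n1).natAbs + (n - n2).natAbs + nm (o1⁻¹ * o2) with hR
  obtain ⟨C, hC⟩ := hbd R
  let z : ℕ → AA := fun t => (1, 1, Multiplicative.ofAdd (t : ℤ))
  have hz : Function.Injective z := by
    intro a b hab
    simpa [z] using hab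
  have hzinj : Function.Injective (fun t => ((κ1 * bb s (z t), n) : KK s × ℤ)) := by
    intro a b hab
    have h1 := (Prod.mk.inj hab).1
    have h2 := mul_left_cancel h1
    exact hz (base_injective (phi_inj s) h2)
  have hcard := hC (κ1, n) C ((Finset.range (C + 1)).image
    fun t => ((κ1 * bb s (z t), n) : KK s × ℤ)) (by
    intro y hy
    obtain ⟨t, ht, rfl⟩ := Finset.mem_image.1 hy
    rw [Finset.mem_range] at ht
    refine ⟨⟨?_, ?_⟩, ?_⟩
    · refine ⟨(κ1 * bb s (z t), n1), ?_, ?_⟩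
      · rw [← h12]; exact FL_sub_OB s κ1 n1 ⟨_, rfl⟩
      · refine (dX_vert s _ n n1).trans ?_
        omega
    · refine ⟨(κ2 * bb s (z t), n2), ?_, ?_⟩
      · rw [← h22]; exact FL_sub_OB s κ2 n2 ⟨_, rfl⟩
      · refine (dX_tri s _ (κ2 * bb s (z t), n) _).trans ?_
        have h3 := dX_vert s (κ2 * bb s (z t)) n n2
        have h4 : dX s (κ1 * bb s (z t), n) (κ2 * bb s (z t), n) = nm (o1⁻¹ * o2) := by
          have h5 := dX_piece s k n (o1 * phi (s n) (z t)) (o2 * phi (s n) (z t))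
          rw [_root_.map_mul, _root_.map_mul, io_phi, ← mul_assoc, ← mul_assoc, ← ho1, ← ho2] at h5
          rw [h5]
          congr 1
          have h6 := central_zero hn (t : ℤ) (o1⁻¹ * o2)
          have h7 : (o1 * phi (s n) (z t))⁻¹ * (o2 * phi (s n) (z t)) =
            (phi (s n) (z t))⁻¹ * ((o1⁻¹ * o2) * phi (s n) (z t)) := by group
          rw [h7, ← h6]
          exact inv_mul_cancel_left (phi (s n) (z t)) (o1⁻¹ * o2)
        omega
    · have h1 := dX_piece_le s κ1 n _ (phi (s n) (z t)) rfl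
      rw [io_phi] at h1
      refine h1.trans ((nm_phi _).trans ?_)
      simp only [an, z, toAdd_ofAdd, toAdd_one, Int.natAbs_zero, Int.natAbs_natCast]
      omega)
  rw [Finset.card_image_of_injective _ hzinj, Finset.card_range, pow_zero, mul_one] at hcard
  omega

end Pool.Agent.H536R3
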